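import Mathlib

set_option autoImplicit false
open MeasureTheory Filter Topology
open scoped ENNReal

namespace Pool.Agent.H27R3.UG

/-- `∫ 1/((x-l)²+t²) dμ` -/
noncomputable def bb (μ : Measure ℝ) (l t : ℝ) : ℝ := ∫ x, 1 / ((x - l) ^ 2 + t ^ 2) ∂μ

/-- `∫ (x-l)/((x-l)²+t²) dμ` -/
noncomputable def cc (μ : Measure ℝ) (l t : ℝ) : ℝ := ∫ x, (x - l) / ((x - l) ^ 2 + t ^ 2) ∂μ

/-- `∫ 1/(x-l)² dμ` -/
noncomputable def be (μ : Measure ℝ) (l : ℝ) : ℝ≥0∞ := ∫⁻ x, (ENNReal.ofReal ((x - l) ^ 2))⁻¹ ∂μ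

/-- `∫ 1/(x-l) dμ` -/
noncomputable def ge (μ : Measure ℝ) (l : ℝ) : ℝ := ∫ x, 1 / (x - l) ∂μ

/-- the sequence `1/(n+1)` -/
noncomputable def tn (n : ℕ) : ℝ := 1 / ((n : ℝ) + 1)

theorem tn_pos (n : ℕ) : 0 < tn n := by unfold tn; positivity

theorem tn_le_one (n : ℕ) : tn n ≤ 1 := by
  unfold tn
  rw [div_le_one (by positivity)]
  have : (0 : ℝ) ≤ n := by positivity
  linarith

theorem tn_tendsto : Tendsto tn atTop (𝓝 0) := tendsto_one_div_add_atTop_nhds_zero_nat

theorem tn_anti : Antitone tn := by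
  intro a b hab
  unfold tn
  apply one_div_le_one_div_of_le (by positivity)
  have : (a : ℝ) ≤ b := by exact_mod_cast hab
  linarith

section One

variable (μ : Measure ℝ) [IsProbabilityMeasure μ] (l : ℝ)

theorem meas_b (t : ℝ) : Measurable (fun x : ℝ => 1 / ((x - l) ^ 2 + t ^ 2)) := by fun_prop

theorem meas_c (t : ℝ) : Measurable (fun x : ℝ => (x - l) / ((x - l) ^ 2 + t ^ 2)) := by fun_prop

theorem int_b {t : ℝ} (ht : 0 < t) : Integrable (fun x : ℝ => 1 / ((x - l) ^ 2 + t ^ 2)) μ := by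
  refine Integrable.of_bound (meas_b l t).aestronglyMeasurable (1 / t ^ 2) (Eventually.of_forall fun x => ?_)
  rw [Real.norm_of_nonneg (by positivity)]
  apply one_div_le_one_div_of_le (by positivity)
  nlinarith [sq_nonneg (x - l)]

theorem abs_c_le (y : ℝ) {t : ℝ} (ht : 0 < t) : |y / (y ^ 2 + t ^ 2)| ≤ 1 / (2 * t) := by
  rw [abs_div, abs_of_pos (by positivity : 0 < y ^ 2 + t ^ 2), div_le_div_iff₀ (by positivity) (by positivity)]
  have := sq_nonneg (|y| - t)
  have h2 : |y| ^ 2 = y ^ 2 := sq_abs y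
  nlinarith

theorem int_c {t : ℝ} (ht : 0 < t) :
    Integrable (fun x : ℝ => (x - l) / ((x - l) ^ 2 + t ^ 2)) μ := by
  refine Integrable.of_bound (meas_c l t).aestronglyMeasurable (1 / (2 * t)) (Eventually.of_forall fun x => ?_)
  rw [Real.norm_eq_abs]
  exact abs_c_le _ ht

theorem bb_nonneg (t : ℝ) : 0 ≤ bb μ l t := integral_nonneg fun x => by positivity

/-- (L1) -/
theorem lim_al : Tendsto (fun n => tn n ^ 2 * bb μ l (tn n)) atTop (𝓝 (μ.real {l})) := by
  have h1 : ∀ n, tn n ^ 2 * bb μ l (tn n) = ∫ x, tn n ^ 2 * (1 / ((x - l) ^ 2 + tn n ^ 2)) ∂μ :=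
    fun n => (integral_const_mul _ _).symm
  have h2 : μ.real {l} = ∫ x, Set.indicator {l} (fun _ => (1 : ℝ)) x ∂μ := by
    rw [integral_indicator_const _ (measurableSet_singleton l)]
    simp
  simp_rw [h1]
  rw [h2]
  refine tendsto_integral_of_dominated_convergence (fun _ => 1)
    (fun n => (by fun_prop : Measurable _).aestronglyMeasurable) (integrable_const _) ?_ ?_
  · intro n
    refine Eventually.of_forall fun x => ?_
    have := tn_pos n
    rw [Real.norm_of_nonneg (by positivity), mul_one_div, div_le_one (by positivity)]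
    nlinarith [sq_nonneg (x - l)]
  · refine Eventually.of_forall fun x => ?_
    by_cases hx : x = l
    · subst hx
      rw [Set.indicator_of_mem (Set.mem_singleton x)]
      refine tendsto_const_nhds.congr fun n => ?_
      have := tn_pos n
      field_simp
      ring
    · rw [Set.indicator_of_notMem (by simpa using hx)]
      have hne : (x - l) ^ 2 ≠ 0 := by
        have : x - l ≠ 0 := sub_ne_zero.mpr hx
        positivity
      have h3 : Tendsto (fun n => tn n ^ 2 * (1 / ((x - l) ^ 2 + tn n ^ 2))) atTop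
          (𝓝 (0 ^ 2 * (1 / ((x - l) ^ 2 + 0 ^ 2)))) := by
        refine (tn_tendsto.pow 2).mul (tendsto_const_nhds.div ?_ (by simpa using hne))
        exact tendsto_const_nhds.add (tn_tendsto.pow 2)
      simpa using h3

/-- (L2) -/
theorem lim_be : Tendsto (fun n => ENNReal.ofReal (bb μ l (tn n))) atTop (𝓝 (be μ l)) := by
  have h1 : ∀ n, ENNReal.ofReal (bb μ l (tn n)) =
      ∫⁻ x, ENNReal.ofReal (1 / ((x - l) ^ 2 + tn n ^ 2)) ∂μ := by
    intro n
    unfold bb
    rw [ofReal_integral_eq_lintegral_ofReal (int_b μ l (tn_pos n))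
      (Eventually.of_forall fun x => by positivity)]
  simp_rw [h1]
  unfold be
  refine lintegral_tendsto_of_tendsto_of_monotone
    (fun n => (by fun_prop : Measurable _).aemeasurable) ?_ ?_
  · refine Eventually.of_forall fun x a b hab => ?_
    apply ENNReal.ofReal_le_ofReal
    have h1 := tn_pos a
    have h2 := tn_pos b
    apply one_div_le_one_div_of_le (by positivity)
    have h3 : tn b ≤ tn a := tn_anti hab
    nlinarith
  · refine Eventually.of_forall fun x => ?_
    have h3 : ∀ n, ENNReal.ofReal (1 / ((x - l) ^ 2 + tn n ^ 2)) =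
        (ENNReal.ofReal ((x - l) ^ 2 + tn n ^ 2))⁻¹ := by
      intro n
      have := tn_pos n
      rw [one_div, ENNReal.ofReal_inv_of_pos (by positivity)]
    simp_rw [h3]
    refine (tendsto_inv_iff.mpr ?_)
    refine ENNReal.tendsto_ofReal ?_
    have := tendsto_const_nhds (x := (x - l) ^ 2) (f := (atTop : Filter ℕ))
    simpa using this.add (tn_tendsto.pow 2)

theorem be_ne_zero : be μ l ≠ 0 := by
  intro h
  unfold be at h
  rw [lintegral_eq_zero_iff (by fun_prop)] at h
  have : ∀ᵐ x ∂μ, False := by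
    filter_upwards [h] with x hx
    simp at hx
  simp at this
  exact IsProbabilityMeasure.ne_zero μ this

theorem al_of_be (h : be μ l ≠ ∞) : μ {l} = 0 := by
  by_contra hne
  apply h
  have h1 : ∫⁻ x in {l}, (ENNReal.ofReal ((x - l) ^ 2))⁻¹ ∂μ = ∞ := by
    rw [lintegral_singleton]
    simp [ENNReal.top_mul, hne]
  refine top_unique ?_
  rw [← h1]
  exact setLIntegral_le_lintegral _ _

theorem ae_ne (h : be μ l ≠ ∞) : ∀ᵐ x ∂μ, x ≠ l := by
  rw [ae_iff]
  simpa using al_of_be μ l h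

theorem int_inv_sq (h : be μ l ≠ ∞) : Integrable (fun x : ℝ => 1 / (x - l) ^ 2) μ := by
  refine ⟨(by fun_prop : Measurable _).aestronglyMeasurable, ?_⟩
  rw [hasFiniteIntegral_iff_ofReal (Eventually.of_forall fun x => by positivity)]
  refine lt_of_le_of_lt (lintegral_mono_ae ?_) (lt_top_iff_ne_top.mpr h)
  filter_upwards [ae_ne μ l h] with x hx
  have : 0 < (x - l) ^ 2 := by
    have : x - l ≠ 0 := sub_ne_zero.mpr hx
    positivity
  rw [one_div, ENNReal.ofReal_inv_of_pos this]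

theorem inv_abs_le (y : ℝ) : |1 / y| ≤ 1 + 1 / y ^ 2 := by
  by_cases hy : y = 0
  · subst hy; simp
  · rw [abs_div, abs_one]
    have h1 : 0 < |y| := abs_pos.mpr hy
    have h2 : y ^ 2 = |y| ^ 2 := (sq_abs y).symm
    rw [h2]
    have h3 : 0 < 1 / |y| := by positivity
    have h4 : 1 / |y| ^ 2 = (1 / |y|) ^ 2 := by rw [div_pow, one_pow]
    rw [h4]
    nlinarith [sq_nonneg (1 / |y| - 1)]

/-- (L3) -/
theorem lim_c (h : be μ l ≠ ∞) : Tendsto (fun n => cc μ l (tn n)) atTop (𝓝 (ge μ l)) := by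
  unfold cc ge
  refine tendsto_integral_of_dominated_convergence (fun x => 1 + 1 / (x - l) ^ 2)
    (fun n => (meas_c l _).aestronglyMeasurable) ((integrable_const _).add (int_inv_sq μ l h)) ?_ ?_
  · intro n
    refine Eventually.of_forall fun x => ?_
    refine le_trans ?_ (inv_abs_le (x - l))
    rw [Real.norm_eq_abs]
    by_cases hy : x - l = 0
    · rw [hy]; simp
    · have h1 : 0 < |x - l| := abs_pos.mpr hy
      have := tn_pos n
      rw [abs_div, abs_div, abs_one, abs_of_pos (by positivity : 0 < (x - l) ^ 2 + tn n ^ 2),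
        div_le_div_iff₀ (by positivity) h1]
      have h2 : (x - l) ^ 2 = |x - l| ^ 2 := (sq_abs _).symm
      rw [h2]
      nlinarith [sq_nonneg (tn n)]
  · filter_upwards [ae_ne μ l h] with x hx
    have hy : x - l ≠ 0 := sub_ne_zero.mpr hx
    have h3 : Tendsto (fun n => (x - l) / ((x - l) ^ 2 + tn n ^ 2)) atTop
        (𝓝 ((x - l) / ((x - l) ^ 2 + 0 ^ 2))) := by
      refine tendsto_const_nhds.div ?_ (by simpa using hy)
      exact tendsto_const_nhds.add (tn_tendsto.pow 2)
    have h4 : (x - l) / ((x - l) ^ 2 + 0 ^ 2) = 1 / (x - l) := by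
      field_simp
      ring
    rw [h4] at h3
    exact h3

/-- (L3') -/
theorem lim_c' (h : be μ l ≠ ∞) :
    Tendsto (fun n => (cc μ l (tn n) - ge μ l) / tn n) atTop (𝓝 0) := by
  have hig : Integrable (fun x : ℝ => 1 / (x - l)) μ := by
    refine Integrable.mono' ((integrable_const (1 : ℝ)).add (int_inv_sq μ l h))
      (by fun_prop : Measurable _).aestronglyMeasurable (Eventually.of_forall fun x => ?_)
    exact inv_abs_le _
  have h1 : ∀ n, (cc μ l (tn n) - ge μ l) / tn n =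
      ∫ x, ((x - l) / ((x - l) ^ 2 + tn n ^ 2) - 1 / (x - l)) / tn n ∂μ := by
    intro n
    unfold cc ge
    rw [← integral_sub (int_c μ l (tn_pos n)) hig, integral_div]
  simp_rw [h1]
  have h0 : (0 : ℝ) = ∫ _x, (0 : ℝ) ∂μ := by simp
  rw [h0]
  have key : ∀ n x, ((x - l) / ((x - l) ^ 2 + tn n ^ 2) - 1 / (x - l)) / tn n =
      -(tn n * (x - l) / ((x - l) ^ 2 + tn n ^ 2)) * (1 / (x - l) ^ 2) := by
    intro n x
    have := tn_pos n
    by_cases hy : x - l = 0
    · rw [hy]; simp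
    · field_simp
      ring
  refine tendsto_integral_of_dominated_convergence (fun x => 1 / (x - l) ^ 2)
    (fun n => (by fun_prop : Measurable _).aestronglyMeasurable) (int_inv_sq μ l h) ?_ ?_
  · intro n
    refine Eventually.of_forall fun x => ?_
    have ht := tn_pos n
    rw [key, norm_mul, norm_neg, Real.norm_eq_abs, Real.norm_of_nonneg (by positivity : (0:ℝ) ≤ 1 / (x - l) ^ 2)]
    have h2 := abs_c_le (x - l) ht
    have h3 : |tn n * (x - l) / ((x - l) ^ 2 + tn n ^ 2)| ≤ 1 := by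
      rw [mul_div_assoc, abs_mul, abs_of_pos ht]
      calc tn n * |(x - l) / ((x - l) ^ 2 + tn n ^ 2)| ≤ tn n * (1 / (2 * tn n)) :=
            mul_le_mul_of_nonneg_left h2 ht.le
        _ = 1 / 2 := by field_simp
        _ ≤ 1 := by norm_num
    calc _ ≤ 1 * (1 / (x - l) ^ 2) := mul_le_mul_of_nonneg_right h3 (by positivity)
      _ = _ := one_mul _
  · filter_upwards [ae_ne μ l h] with x hx
    have hy : x - l ≠ 0 := sub_ne_zero.mpr hx
    simp_rw [key]
    have h3 : Tendsto (fun n => -(tn n * (x - l) / ((x - l) ^ 2 + tn n ^ 2)) * (1 / (x - l) ^ 2)) atTop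
        (𝓝 (-(0 * (x - l) / ((x - l) ^ 2 + 0 ^ 2)) * (1 / (x - l) ^ 2))) := by
      refine ((Tendsto.div (tn_tendsto.mul_const _) ?_ (by simpa using hy)).neg).mul_const _
      exact tendsto_const_nhds.add (tn_tendsto.pow 2)
    simpa using h3

/-- (L4) -/
theorem lim_tc : Tendsto (fun n => tn n * cc μ l (tn n)) atTop (𝓝 0) := by
  have h1 : ∀ n, tn n * cc μ l (tn n) = ∫ x, tn n * ((x - l) / ((x - l) ^ 2 + tn n ^ 2)) ∂μ :=
    fun n => (integral_const_mul _ _).symm
  simp_rw [h1]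
  have h0 : (0 : ℝ) = ∫ _x, (0 : ℝ) ∂μ := by simp
  rw [h0]
  refine tendsto_integral_of_dominated_convergence (fun _ => 1)
    (fun n => (by fun_prop : Measurable _).aestronglyMeasurable) (integrable_const _) ?_ ?_
  · intro n
    refine Eventually.of_forall fun x => ?_
    have ht := tn_pos n
    rw [Real.norm_eq_abs, abs_mul, abs_of_pos ht]
    calc tn n * |(x - l) / ((x - l) ^ 2 + tn n ^ 2)| ≤ tn n * (1 / (2 * tn n)) :=
          mul_le_mul_of_nonneg_left (abs_c_le _ ht) ht.le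
      _ = 1 / 2 := by field_simp
      _ ≤ 1 := by norm_num
  · refine Eventually.of_forall fun x => ?_
    by_cases hy : x - l = 0
    · rw [hy]
      simp
    · have h3 : Tendsto (fun n => tn n * ((x - l) / ((x - l) ^ 2 + tn n ^ 2))) atTop
          (𝓝 (0 * ((x - l) / ((x - l) ^ 2 + 0 ^ 2)))) := by
        refine tn_tendsto.mul (tendsto_const_nhds.div ?_ (by simpa using hy))
        exact tendsto_const_nhds.add (tn_tendsto.pow 2)
      simpa using h3

/-- (L5) -/
theorem c_sq_le (h0 : μ {l} = 0) (η : ℝ) (hη : 0 < η) :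
    ∃ K : ℝ, ∀ n, cc μ l (tn n) ^ 2 ≤ η * bb μ l (tn n) + K := by
  -- small ball
  have hball : ∃ δ : ℝ, 0 < δ ∧ μ.real (Set.Icc (l - δ) (l + δ)) ≤ η / 2 := by
    have h1 : Tendsto (fun n => μ (Set.Icc (l - tn n) (l + tn n))) atTop
        (𝓝 (μ (⋂ n, Set.Icc (l - tn n) (l + tn n)))) := by
      refine tendsto_measure_iInter_atTop (fun n => measurableSet_Icc.nullMeasurableSet) ?_
        ⟨0, measure_ne_top _ _⟩
      intro a b hab
      have := tn_anti hab
      exact Set.Icc_subset_Icc (by linarith) (by linarith)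
    have h2 : (⋂ n, Set.Icc (l - tn n) (l + tn n)) = {l} := by
      ext x
      simp only [Set.mem_iInter, Set.mem_Icc, Set.mem_singleton_iff]
      constructor
      · intro hx
        have a1 : l - 0 ≤ x := le_of_tendsto' (tendsto_const_nhds.sub tn_tendsto) fun n => (hx n).1
        have a2 : x ≤ l + 0 := ge_of_tendsto' (tendsto_const_nhds.add tn_tendsto) fun n => (hx n).2
        linarith
      · rintro rfl n
        have := tn_pos n
        constructor <;> linarith
    rw [h2, h0] at h1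
    have h3 := (ENNReal.tendsto_toReal ENNReal.zero_ne_top).comp h1
    simp only [ENNReal.toReal_zero] at h3
    obtain ⟨n, hn⟩ := (h3.eventually (eventually_le_nhds (by positivity : (0 : ℝ) < η / 2))).exists
    exact ⟨tn n, tn_pos n, hn⟩
  obtain ⟨δ, hδ, hμ⟩ := hball
  refine ⟨2 * (1 / δ) ^ 2, fun n => ?_⟩
  have ht := tn_pos n
  set b := bb μ l (tn n) with hb
  have hbpos : 0 < b := by
    have hb1 : 0 < ∫ x, 1 / ((x - l) ^ 2 + tn n ^ 2) ∂μ := by
      rw [integral_pos_iff_support_of_nonneg (fun x => by positivity) (int_b μ l ht)]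
      have : Function.support (fun x : ℝ => 1 / ((x - l) ^ 2 + tn n ^ 2)) = Set.univ := by
        ext x
        simp only [Function.mem_support, Set.mem_univ, iff_true]
        positivity
      rw [this]
      simp
    exact hb1
  set s := Real.sqrt (b / (η / 2)) with hs
  have hspos : 0 < s := Real.sqrt_pos.mpr (by positivity)
  have hs2 : s ^ 2 = b / (η / 2) := Real.sq_sqrt (by positivity)
  have hptw : ∀ x, |(x - l) / ((x - l) ^ 2 + tn n ^ 2)| ≤
      (s / 2) * Set.indicator (Set.Icc (l - δ) (l + δ)) (fun _ => (1 : ℝ)) x +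
        (1 / (2 * s)) * (1 / ((x - l) ^ 2 + tn n ^ 2)) + 1 / δ := by
    intro x
    have hpos : 0 < (x - l) ^ 2 + tn n ^ 2 := by positivity
    by_cases hx : x ∈ Set.Icc (l - δ) (l + δ)
    · rw [Set.indicator_of_mem hx]
      set f := |(x - l) / ((x - l) ^ 2 + tn n ^ 2)| with hf
      have hf2 : f ^ 2 ≤ 1 / ((x - l) ^ 2 + tn n ^ 2) := by
        rw [hf, sq_abs, div_pow, div_le_div_iff₀ (by positivity) hpos]
        nlinarith [sq_nonneg (tn n), sq_nonneg (x - l)]
      have h1 : f ≤ s / 2 + (1 / (2 * s)) * f ^ 2 := by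
        have : 0 ≤ (s - f) ^ 2 / (2 * s) := by positivity
        have e : (s - f) ^ 2 / (2 * s) = s / 2 - f + (1 / (2 * s)) * f ^ 2 := by
          field_simp
          ring
        linarith
      have h2 : (1 / (2 * s)) * f ^ 2 ≤ (1 / (2 * s)) * (1 / ((x - l) ^ 2 + tn n ^ 2)) :=
        mul_le_mul_of_nonneg_left hf2 (by positivity)
      have h3 : 0 < 1 / δ := by positivity
      linarith
    · rw [Set.indicator_of_notMem hx]
      have hd : δ ≤ |x - l| := by
        rw [Set.mem_Icc, not_and_or] at hx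
        rcases hx with hx | hx
        · rw [abs_of_nonpos (by linarith)]; linarith
        · rw [abs_of_nonneg (by linarith)]; linarith
      have hxp : 0 < |x - l| := lt_of_lt_of_le hδ hd
      have h1 : |(x - l) / ((x - l) ^ 2 + tn n ^ 2)| ≤ 1 / |x - l| := by
        rw [abs_div, abs_of_pos hpos, div_le_div_iff₀ hpos hxp]
        have h2 : (x - l) ^ 2 = |x - l| ^ 2 := (sq_abs _).symm
        rw [h2]
        nlinarith [sq_nonneg (tn n)]
      have h2 : 1 / |x - l| ≤ 1 / δ := one_div_le_one_div_of_le hδ hd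
      have h3 : 0 ≤ (1 / (2 * s)) * (1 / ((x - l) ^ 2 + tn n ^ 2)) := by positivity
      linarith
  have hc : |cc μ l (tn n)| ≤ (s / 2) * (η / 2) + (1 / (2 * s)) * b + 1 / δ := by
    have hi1 : Integrable (fun x => (s / 2) * Set.indicator (Set.Icc (l - δ) (l + δ)) (fun _ => (1 : ℝ)) x) μ :=
      ((integrable_const (1 : ℝ)).indicator measurableSet_Icc).const_mul _
    have hi2 : Integrable (fun x => (1 / (2 * s)) * (1 / ((x - l) ^ 2 + tn n ^ 2))) μ :=
      (int_b μ l ht).const_mul _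
    calc |cc μ l (tn n)| ≤ ∫ x, |(x - l) / ((x - l) ^ 2 + tn n ^ 2)| ∂μ := by
          unfold cc
          exact abs_integral_le_integral_abs
      _ ≤ ∫ x, ((s / 2) * Set.indicator (Set.Icc (l - δ) (l + δ)) (fun _ => (1 : ℝ)) x +
        (1 / (2 * s)) * (1 / ((x - l) ^ 2 + tn n ^ 2)) + 1 / δ) ∂μ := by
          refine integral_mono (int_c μ l ht).abs ((hi1.add hi2).add (integrable_const _)) hptw
      _ = (s / 2) * μ.real (Set.Icc (l - δ) (l + δ)) + (1 / (2 * s)) * b + 1 / δ := by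
          have hi3 : Integrable (fun x => (s / 2) * Set.indicator (Set.Icc (l - δ) (l + δ)) (fun _ => (1 : ℝ)) x +
            (1 / (2 * s)) * (1 / ((x - l) ^ 2 + tn n ^ 2))) μ := hi1.add hi2
          rw [integral_add hi3 (integrable_const _), integral_add hi1 hi2,
            integral_const_mul, integral_const_mul, integral_indicator_const _ measurableSet_Icc]
          simp [hb, bb]
      _ ≤ _ := by
          have := mul_le_mul_of_nonneg_left hμ (by positivity : 0 ≤ s / 2)
          linarith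
  have e1 : (s / 2) * (η / 2) + (1 / (2 * s)) * b = (η / 2) * s := by
    have hb' : b = (η / 2) * s ^ 2 := by rw [hs2]; field_simp
    rw [hb']
    field_simp
    ring
  rw [e1] at hc
  have h4 : cc μ l (tn n) ^ 2 ≤ ((η / 2) * s + 1 / δ) ^ 2 := by
    rw [← sq_abs]
    exact pow_le_pow_left₀ (abs_nonneg _) hc 2
  have h5 : ((η / 2) * s + 1 / δ) ^ 2 ≤ 2 * ((η / 2) * s) ^ 2 + 2 * (1 / δ) ^ 2 := by
    nlinarith [sq_nonneg ((η / 2) * s - 1 / δ)]
  have h6 : 2 * ((η / 2) * s) ^ 2 = η * b := by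
    rw [mul_pow, hs2]
    field_simp
  linarith

end One

section Vertex

variable (μ : Measure ℝ) [IsProbabilityMeasure μ] (l : ℝ) {M : ℕ} (ν : Fin M → Measure ℝ)
  [∀ i, IsProbabilityMeasure (ν i)]

/-- the recursion relating the measure of a vertex to the measures of its branches -/
def Rec : Prop := ∀ n, bb μ l (tn n) =
      (1 + ∑ i, bb (ν i) l (tn n)) / ((l + ∑ i, cc (ν i) l (tn n)) ^ 2 +
        tn n ^ 2 * (1 + ∑ i, bb (ν i) l (tn n)) ^ 2) ∧
    cc μ l (tn n) =
      -(l + ∑ i, cc (ν i) l (tn n)) / ((l + ∑ i, cc (ν i) l (tn n)) ^ 2 +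
        tn n ^ 2 * (1 + ∑ i, bb (ν i) l (tn n)) ^ 2)

variable {μ l ν}

theorem lim_b_real (ρ : Measure ℝ) [IsProbabilityMeasure ρ] (h : be ρ l ≠ ∞) :
    Tendsto (fun n => bb ρ l (tn n)) atTop (𝓝 (be ρ l).toReal) := by
  have := (ENNReal.tendsto_toReal h).comp (lim_be ρ l)
  refine this.congr fun n => ?_
  simp only [Function.comp]
  rw [ENNReal.toReal_ofReal (bb_nonneg ρ l _)]

/-- (V1) -/
theorem V1 (hR : Rec μ l ν) (hb : ∀ i, be (ν i) l ≠ ∞) (hg : l + ∑ i, ge (ν i) l = 0) :
    μ.real {l} = 1 / (1 + ∑ i, (be (ν i) l).toReal) := by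
  have h1 := lim_al μ l
  have hh : Tendsto (fun n => 1 + ∑ i, bb (ν i) l (tn n)) atTop
      (𝓝 (1 + ∑ i, (be (ν i) l).toReal)) :=
    tendsto_const_nhds.add (tendsto_finsetSum _ fun i _ => lim_b_real (ν i) (hb i))
  have hc : Tendsto (fun n => (l + ∑ i, cc (ν i) l (tn n)) / tn n) atTop (𝓝 0) := by
    have : Tendsto (fun n => ∑ i, (cc (ν i) l (tn n) - ge (ν i) l) / tn n) atTop
        (𝓝 (∑ _i : Fin M, (0 : ℝ))) :=
      tendsto_finsetSum _ fun i _ => lim_c' (ν i) l (hb i)
    rw [Finset.sum_const_zero] at this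
    refine this.congr fun n => ?_
    rw [← Finset.sum_div, Finset.sum_sub_distrib]
    congr 1
    linarith
  have hpos : 0 < 1 + ∑ i, (be (ν i) l).toReal := by
    have : 0 ≤ ∑ i, (be (ν i) l).toReal := Finset.sum_nonneg fun i _ => ENNReal.toReal_nonneg
    linarith
  have h2 : Tendsto (fun n => (1 + ∑ i, bb (ν i) l (tn n)) /
      (((l + ∑ i, cc (ν i) l (tn n)) / tn n) ^ 2 + (1 + ∑ i, bb (ν i) l (tn n)) ^ 2)) atTop
      (𝓝 ((1 + ∑ i, (be (ν i) l).toReal) / (0 ^ 2 + (1 + ∑ i, (be (ν i) l).toReal) ^ 2))) :=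
    hh.div ((hc.pow 2).add (hh.pow 2)) (by positivity)
  have h3 := tendsto_nhds_unique h1 (h2.congr fun n => ?_)
  · rw [h3]
    field_simp
    ring
  · have ht := tn_pos n
    have hbn : 0 < 1 + ∑ i, bb (ν i) l (tn n) := by
      have : 0 ≤ ∑ i, bb (ν i) l (tn n) := Finset.sum_nonneg fun i _ => bb_nonneg _ _ _
      linarith
    rw [(hR n).1]
    field_simp

/-- (V2) -/
theorem V2 (hR : Rec μ l ν) (hb : ∀ i, be (ν i) l ≠ ∞) (hg : l + ∑ i, ge (ν i) l ≠ 0) :
    be μ l = ENNReal.ofReal ((1 + ∑ i, (be (ν i) l).toReal) / (l + ∑ i, ge (ν i) l) ^ 2) ∧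
      ge μ l = -1 / (l + ∑ i, ge (ν i) l) := by
  have hh : Tendsto (fun n => 1 + ∑ i, bb (ν i) l (tn n)) atTop
      (𝓝 (1 + ∑ i, (be (ν i) l).toReal)) :=
    tendsto_const_nhds.add (tendsto_finsetSum _ fun i _ => lim_b_real (ν i) (hb i))
  have hc : Tendsto (fun n => l + ∑ i, cc (ν i) l (tn n)) atTop (𝓝 (l + ∑ i, ge (ν i) l)) :=
    tendsto_const_nhds.add (tendsto_finsetSum _ fun i _ => lim_c (ν i) l (hb i))
  have hD : Tendsto (fun n => (l + ∑ i, cc (ν i) l (tn n)) ^ 2 +
        tn n ^ 2 * (1 + ∑ i, bb (ν i) l (tn n)) ^ 2) atTop (𝓝 ((l + ∑ i, ge (ν i) l) ^ 2)) := by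
    have := (hc.pow 2).add ((tn_tendsto.pow 2).mul (hh.pow 2))
    simpa using this
  have hne : (l + ∑ i, ge (ν i) l) ^ 2 ≠ 0 := pow_ne_zero 2 hg
  have h1 : be μ l = ENNReal.ofReal ((1 + ∑ i, (be (ν i) l).toReal) / (l + ∑ i, ge (ν i) l) ^ 2) := by
    refine tendsto_nhds_unique (lim_be μ l) ?_
    refine ENNReal.tendsto_ofReal ((hh.div hD hne).congr fun n => ?_)
    exact (hR n).1.symm
  refine ⟨h1, ?_⟩
  have hfin : be μ l ≠ ∞ := by rw [h1]; exact ENNReal.ofReal_ne_top
  refine tendsto_nhds_unique (lim_c μ l hfin) ?_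
  have h2 := (hc.neg.div hD hne).congr fun n => (hR n).2.symm
  convert h2 using 2
  field_simp

/-- (V3) -/
theorem V3 (hR : Rec μ l ν) (hA : ∃ i, (ν i) {l} ≠ 0) :
    be μ l = (∑ i, (ν i) {l})⁻¹ ∧ ge μ l = 0 := by
  have hsum : Tendsto (fun n => tn n ^ 2 * (1 + ∑ i, bb (ν i) l (tn n))) atTop
      (𝓝 (∑ i, (ν i).real {l})) := by
    have h1 : Tendsto (fun n => tn n ^ 2 + ∑ i, tn n ^ 2 * bb (ν i) l (tn n)) atTop
        (𝓝 (0 ^ 2 + ∑ i, (ν i).real {l})) :=
      (tn_tendsto.pow 2).add (tendsto_finsetSum _ fun i _ => lim_al (ν i) l)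
    have e : (0 : ℝ) ^ 2 + ∑ i, (ν i).real {l} = ∑ i, (ν i).real {l} := by ring
    rw [e] at h1
    refine h1.congr fun n => ?_
    rw [← Finset.mul_sum]
    ring
  have hc : Tendsto (fun n => tn n * (l + ∑ i, cc (ν i) l (tn n))) atTop (𝓝 0) := by
    have h1 : Tendsto (fun n => tn n * l + ∑ i, tn n * cc (ν i) l (tn n)) atTop
        (𝓝 (0 * l + ∑ _i : Fin M, (0 : ℝ))) :=
      (tn_tendsto.mul_const l).add (tendsto_finsetSum _ fun i _ => lim_tc (ν i) l)
    have e : 0 * l + ∑ _i : Fin M, (0 : ℝ) = 0 := by simp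
    rw [e] at h1
    refine h1.congr fun n => ?_
    rw [← Finset.mul_sum]
    ring
  have hpos : 0 < ∑ i, (ν i).real {l} := by
    obtain ⟨i, hi⟩ := hA
    refine lt_of_lt_of_le ?_ (Finset.single_le_sum (fun j _ => measureReal_nonneg) (Finset.mem_univ i))
    exact ENNReal.toReal_pos hi (measure_ne_top _ _)
  set a := ∑ i, (ν i).real {l} with ha
  have hD : Tendsto (fun n => (tn n * (l + ∑ i, cc (ν i) l (tn n))) ^ 2 +
      (tn n ^ 2 * (1 + ∑ i, bb (ν i) l (tn n))) ^ 2) atTop (𝓝 (a ^ 2)) := by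
    have := (hc.pow 2).add (hsum.pow 2)
    simpa using this
  have hne : a ^ 2 ≠ 0 := by positivity
  have key : ∀ n, bb μ l (tn n) = tn n ^ 2 * (1 + ∑ i, bb (ν i) l (tn n)) /
      ((tn n * (l + ∑ i, cc (ν i) l (tn n))) ^ 2 +
      (tn n ^ 2 * (1 + ∑ i, bb (ν i) l (tn n))) ^ 2) := by
    intro n
    have ht := tn_pos n
    have hbn : 0 < 1 + ∑ i, bb (ν i) l (tn n) := by
      have : 0 ≤ ∑ i, bb (ν i) l (tn n) := Finset.sum_nonneg fun i _ => bb_nonneg _ _ _
      linarith
    rw [(hR n).1, div_eq_div_iff (by positivity) (by positivity)]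
    ring
  have key2 : ∀ n, cc μ l (tn n) = -(tn n * (tn n * (l + ∑ i, cc (ν i) l (tn n)))) /
      ((tn n * (l + ∑ i, cc (ν i) l (tn n))) ^ 2 +
      (tn n ^ 2 * (1 + ∑ i, bb (ν i) l (tn n))) ^ 2) := by
    intro n
    have ht := tn_pos n
    have hbn : 0 < 1 + ∑ i, bb (ν i) l (tn n) := by
      have : 0 ≤ ∑ i, bb (ν i) l (tn n) := Finset.sum_nonneg fun i _ => bb_nonneg _ _ _
      linarith
    rw [(hR n).2, div_eq_div_iff (by positivity) (by positivity)]
    ring
  have h1 : be μ l = ENNReal.ofReal (a / a ^ 2) := by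
    refine tendsto_nhds_unique (lim_be μ l) ?_
    exact ENNReal.tendsto_ofReal ((hsum.div hD hne).congr fun n => (key n).symm)
  have h1' : be μ l = (∑ i, (ν i) {l})⁻¹ := by
    rw [h1]
    have e : a / a ^ 2 = a⁻¹ := by field_simp
    rw [e, ENNReal.ofReal_inv_of_pos hpos, ha, ENNReal.ofReal_sum_of_nonneg fun i _ => measureReal_nonneg]
    congr 1
    refine Finset.sum_congr rfl fun i _ => ?_
    exact ENNReal.ofReal_toReal (measure_ne_top _ _)
  refine ⟨h1', ?_⟩
  have hfin : be μ l ≠ ∞ := by rw [h1]; exact ENNReal.ofReal_ne_top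
  refine tendsto_nhds_unique (lim_c μ l hfin) ?_
  have h2 := ((tn_tendsto.mul hc).neg.div hD hne).congr fun n => (key2 n).symm
  simpa using h2

/-- (V4) -/
theorem V4 (hR : Rec μ l ν) (hA : ∀ i, (ν i) {l} = 0) (hS : ∃ i, be (ν i) l = ∞) :
    be μ l = ∞ ∧ μ {l} = 0 := by
  obtain ⟨i₀, hi₀⟩ := hS
  have hbig : Tendsto (fun n => 1 + ∑ i, bb (ν i) l (tn n)) atTop atTop := by
    have h1 : Tendsto (fun n => bb (ν i₀) l (tn n)) atTop atTop := by
      have := lim_be (ν i₀) l
      rw [hi₀] at this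
      exact ENNReal.tendsto_ofReal_nhds_top.mp this
    refine tendsto_atTop_mono (fun n => ?_) h1
    have : bb (ν i₀) l (tn n) ≤ ∑ i, bb (ν i) l (tn n) :=
      Finset.single_le_sum (fun j _ => bb_nonneg (ν j) l _) (Finset.mem_univ i₀)
    linarith
  have hpos : ∀ n, 1 ≤ 1 + ∑ i, bb (ν i) l (tn n) := fun n => by
    have : 0 ≤ ∑ i, bb (ν i) l (tn n) := Finset.sum_nonneg fun i _ => bb_nonneg _ _ _
    linarith
  have hth : Tendsto (fun n => tn n ^ 2 * (1 + ∑ i, bb (ν i) l (tn n))) atTop (𝓝 0) := by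
    have h1 : Tendsto (fun n => tn n ^ 2 + ∑ i, tn n ^ 2 * bb (ν i) l (tn n)) atTop
        (𝓝 (0 ^ 2 + ∑ i, (ν i).real {l})) :=
      (tn_tendsto.pow 2).add (tendsto_finsetSum _ fun i _ => lim_al (ν i) l)
    have e : (0 : ℝ) ^ 2 + ∑ i, (ν i).real {l} = 0 := by simp [Measure.real, hA]
    rw [e] at h1
    refine h1.congr fun n => ?_
    rw [← Finset.mul_sum]
    ring
  constructor
  · -- be = ∞
    have hlim : Tendsto (fun n => bb μ l (tn n)) atTop atTop := by
      rw [tendsto_atTop]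
      intro C
      -- choose η with 1/(..) large
      set C' := max C 1 with hC'
      have hC'pos : 0 < C' := lt_max_of_lt_right one_pos
      set η := 1 / (4 * ((M : ℝ) + 1) * C') with hη
      have hηpos : 0 < η := by positivity
      have hK : ∀ i, ∃ K : ℝ, ∀ n, cc (ν i) l (tn n) ^ 2 ≤ η * bb (ν i) l (tn n) + K :=
        fun i => c_sq_le (ν i) l (hA i) η hηpos
      choose K hK using hK
      have hC : ∀ n, (l + ∑ i, cc (ν i) l (tn n)) ^ 2 ≤
          ((M : ℝ) + 1) * (l ^ 2 + η * (1 + ∑ i, bb (ν i) l (tn n)) + ∑ i, |K i|) := by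
        intro n
        have h1 : (l + ∑ i, cc (ν i) l (tn n)) ^ 2 ≤
            ((M : ℝ) + 1) * (l ^ 2 + ∑ i, cc (ν i) l (tn n) ^ 2) := by
          have h2 := sq_sum_le_card_mul_sum_sq (s := (Finset.univ : Finset (Option (Fin M))))
            (f := fun o => o.elim l fun i => cc (ν i) l (tn n))
          rw [Fintype.sum_option, Fintype.sum_option] at h2
          simpa using h2
        refine h1.trans ?_
        apply mul_le_mul_of_nonneg_left _ (by positivity)
        have h3 : ∑ i, cc (ν i) l (tn n) ^ 2 ≤ ∑ i, (η * bb (ν i) l (tn n) + |K i|) :=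
          Finset.sum_le_sum fun i _ => (hK i n).trans (by linarith [le_abs_self (K i)])
        rw [Finset.sum_add_distrib, ← Finset.mul_sum] at h3
        linarith
      set K' := ((M : ℝ) + 1) * (l ^ 2 + ∑ i, |K i|) with hK'
      have hK'0 : 0 ≤ K' := by positivity
      have e1 := hbig.eventually (eventually_ge_atTop (4 * C' * K'))
      have e2 := hth.eventually (eventually_le_nhds (by positivity : (0 : ℝ) < 1 / (2 * C')))
      filter_upwards [e1, e2] with n h1 h2
      refine (le_max_left C 1).trans ?_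
      rw [(hR n).1]
      set h := 1 + ∑ i, bb (ν i) l (tn n) with hh
      have hp := hpos n
      have ht := tn_pos n
      have hD : (l + ∑ i, cc (ν i) l (tn n)) ^ 2 + tn n ^ 2 * h ^ 2 ≤ h / C' := by
        have a1 : (l + ∑ i, cc (ν i) l (tn n)) ^ 2 ≤ ((M : ℝ) + 1) * η * h + K' := by
          have := hC n
          rw [hK']
          linarith
        have a2 : ((M : ℝ) + 1) * η * h = h / (4 * C') := by
          rw [hη]
          field_simp
        have a3 : K' ≤ h / (4 * C') := by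
          rw [le_div_iff₀ (by positivity)]
          linarith
        have a4 : tn n ^ 2 * h ^ 2 ≤ h / (2 * C') := by
          calc tn n ^ 2 * h ^ 2 = (tn n ^ 2 * h) * h := by ring
            _ ≤ (1 / (2 * C')) * h := mul_le_mul_of_nonneg_right h2 (by linarith)
            _ = _ := by ring
        have a5 : h / (4 * C') + h / (4 * C') + h / (2 * C') = h / C' := by
          field_simp
          ring
        linarith
      rw [le_div_iff₀ (by positivity)]
      calc C' * ((l + ∑ i, cc (ν i) l (tn n)) ^ 2 + tn n ^ 2 * h ^ 2) ≤ C' * (h / C') :=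
            mul_le_mul_of_nonneg_left hD hC'pos.le
        _ = h := by field_simp
    refine tendsto_nhds_unique (lim_be μ l) ?_
    exact ENNReal.tendsto_ofReal_nhds_top.mpr hlim
  · have h1 := lim_al μ l
    have h2 : Tendsto (fun n => tn n ^ 2 * bb μ l (tn n)) atTop (𝓝 0) := by
      have hinv : Tendsto (fun n => (1 + ∑ i, bb (ν i) l (tn n))⁻¹) atTop (𝓝 0) :=
        tendsto_inv_atTop_zero.comp hbig
      refine squeeze_zero (fun n => mul_nonneg (sq_nonneg _) (bb_nonneg _ _ _)) (fun n => ?_) hinv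
      rw [(hR n).1]
      have hp := hpos n
      have ht := tn_pos n
      set h := 1 + ∑ i, bb (ν i) l (tn n) with hh
      have hp' : 0 < h := by linarith
      rw [← mul_div_assoc, div_le_iff₀ (by positivity), inv_mul_eq_div, le_div_iff₀ hp']
      nlinarith [sq_nonneg (l + ∑ i, cc (ν i) l (tn n))]
    have h3 := tendsto_nhds_unique h1 h2
    rwa [measureReal_eq_zero_iff] at h3

end Vertex

end Pool.Agent.H27R3.UG
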