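import Mathlib
import Pool.Agent.H27R3.UG.Ana

set_option autoImplicit false
open MeasureTheory Filter Topology
open scoped ENNReal InnerProductSpace CompactlySupported

namespace Pool.Agent.H27R3.UG

section Spec

variable {H : Type} [NormedAddCommGroup H] [InnerProductSpace ℂ H] [CompleteSpace H]

noncomputable def tv (e : H) (T : H →L[ℂ] H) (h : ℝ → ℝ) : ℝ := (⟪e, cfc h T e⟫_ℂ).re

noncomputable def tvLin (e : H) (T : H →L[ℂ] H) : C_c(ℝ, ℝ) →ₗ[ℝ] ℝ where
  toFun h := tv e T h
  map_add' f g := by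
    unfold tv
    have : cfc ((f + g : C_c(ℝ, ℝ)) : ℝ → ℝ) T = cfc (f : ℝ → ℝ) T + cfc (g : ℝ → ℝ) T := by
      exact cfc_add (R := ℝ) (a := T) (f := f) (g := g) (by fun_prop) (by fun_prop)
    rw [this]
    simp
  map_smul' c f := by
    unfold tv
    have : cfc ((c • f : C_c(ℝ, ℝ)) : ℝ → ℝ) T = c • cfc (f : ℝ → ℝ) T := by
      exact cfc_smul (R := ℝ) c f T (by fun_prop)
    rw [this]
    simp

theorem tvLin_nonneg (e : H) (T : H →L[ℂ] H) (f : C_c(ℝ, ℝ)) (hf : 0 ≤ f) : 0 ≤ tvLin e T f := by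
  change 0 ≤ (⟪e, cfc (f : ℝ → ℝ) T e⟫_ℂ).re
  have h1 : (0 : H →L[ℂ] H) ≤ cfc (f : ℝ → ℝ) T := cfc_nonneg (fun x _ => hf x)
  have h2 := (ContinuousLinearMap.nonneg_iff_isPositive _).mp h1
  exact h2.re_inner_nonneg_right e

noncomputable def tvPos (e : H) (T : H →L[ℂ] H) : C_c(ℝ, ℝ) →ₚ[ℝ] ℝ :=
  PositiveLinearMap.mk₀ (tvLin e T) (tvLin_nonneg e T)

theorem spec_sub (T : H →L[ℂ] H) : spectrum ℝ T ⊆ Set.Icc (-‖T‖) ‖T‖ := by
  intro x hx
  have : ‖x‖ ≤ ‖T‖ := by
    rcases subsingleton_or_nontrivial (H →L[ℂ] H) with h | h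
    · exact absurd hx (by rw [spectrum.of_subsingleton]; simp)
    · exact spectrum.norm_le_norm_of_mem hx
  rw [Real.norm_eq_abs, abs_le] at this
  exact this

/-- cutoff functions -/
noncomputable def chi (R : ℝ) (n : ℕ) (x : ℝ) : ℝ := max 0 (1 - (n + 1) * max 0 (|x| - R))

theorem chi_cont (R : ℝ) (n : ℕ) : Continuous (chi R n) := by unfold chi; fun_prop

theorem chi_nonneg (R : ℝ) (n : ℕ) (x : ℝ) : 0 ≤ chi R n x := le_max_left _ _

theorem chi_le (R : ℝ) (n : ℕ) (x : ℝ) : chi R n x ≤ chi R 0 x := by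
  unfold chi
  apply max_le_max le_rfl
  have h1 : 0 ≤ max 0 (|x| - R) := le_max_left _ _
  have h2 : (0 : ℝ) ≤ n := by positivity
  push_cast
  nlinarith

theorem chi_eq_one (R : ℝ) (n : ℕ) (x : ℝ) (hx : x ∈ Set.Icc (-R) R) : chi R n x = 1 := by
  unfold chi
  have : |x| - R ≤ 0 := by rw [Set.mem_Icc, ← abs_le] at hx; linarith
  rw [max_eq_left this]
  simp

theorem chi_eq_zero (R : ℝ) (n : ℕ) (x : ℝ) (hx : R + 1 ≤ |x|) : chi R n x = 0 := by
  unfold chi
  apply max_eq_left
  have h1 : 1 ≤ max 0 (|x| - R) := le_max_of_le_right (by linarith)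
  have h2 : (0 : ℝ) ≤ n := by positivity
  nlinarith

theorem chi_lim (R : ℝ) (x : ℝ) (hx : x ∉ Set.Icc (-R) R) :
    Tendsto (fun n => chi R n x) atTop (𝓝 0) := by
  rw [Set.mem_Icc, ← abs_le, not_le] at hx
  have h1 : Tendsto (fun n : ℕ => ((n : ℝ) + 1) * max 0 (|x| - R)) atTop atTop := by
    refine Tendsto.atTop_mul_const (lt_max_of_lt_right (by linarith)) ?_
    exact tendsto_atTop_add_const_right _ _ tendsto_natCast_atTop_atTop
  refine tendsto_const_nhds.congr' ?_
  filter_upwards [h1.eventually (eventually_ge_atTop 1)] with n hn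
  unfold chi
  symm
  apply max_eq_left
  linarith

noncomputable def cut (R : ℝ) (n : ℕ) (h : ℝ → ℝ) (hh : Continuous h) : C_c(ℝ, ℝ) where
  toFun x := h x * chi R n x
  continuous_toFun := hh.mul (chi_cont R n)
  hasCompactSupport' := by
    refine HasCompactSupport.of_support_subset_isCompact (isCompact_Icc (a := -(R + 1)) (b := R + 1)) ?_
    intro x hx
    rw [Function.mem_support] at hx
    rw [Set.mem_Icc, ← abs_le]
    by_contra hcon
    push Not at hcon
    exact hx (by rw [chi_eq_zero R n x hcon.le, mul_zero])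

/-- the spectral measure of a vector -/
noncomputable def smeas (e : H) (T : H →L[ℂ] H) : Measure ℝ :=
  (RealRMK.rieszMeasure (tvPos e T)).restrict (Set.Icc (-‖T‖) ‖T‖)

theorem integral_smeas (e : H) (T : H →L[ℂ] H) (h : ℝ → ℝ) (hh : Continuous h) :
    Integrable h (smeas e T) ∧ ∫ x, h x ∂(smeas e T) = (⟪e, cfc h T e⟫_ℂ).re := by
  set μ0 := RealRMK.rieszMeasure (tvPos e T) with hμ0
  set R := ‖T‖ with hR
  have h1 : ∀ n (k : ℝ → ℝ) (hk : Continuous k),
      ∫ x, k x * chi R n x ∂μ0 = (⟪e, cfc k T e⟫_ℂ).re := by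
    intro n k hk
    have e1 : ∫ x, k x * chi R n x ∂μ0 = ∫ x, (cut R n k hk) x ∂μ0 := rfl
    rw [e1, hμ0, RealRMK.integral_rieszMeasure]
    change (⟪e, cfc (fun x => k x * chi R n x) T e⟫_ℂ).re = _
    congr 3
    refine cfc_congr fun x hx => ?_
    rw [chi_eq_one R n x (spec_sub T hx), mul_one]
  have hint : ∀ n (k : ℝ → ℝ) (hk : Continuous k), Integrable (fun x => k x * chi R n x) μ0 := by
    intro n k hk
    have : IsFiniteMeasureOnCompacts μ0 := by rw [hμ0]; infer_instance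
    exact (cut R n k hk).continuous.integrable_of_hasCompactSupport (cut R n k hk).hasCompactSupport
  have hint2 : IntegrableOn h (Set.Icc (-R) R) μ0 := by
    have : IntegrableOn (fun x => h x * chi R 0 x) (Set.Icc (-R) R) μ0 := (hint 0 h hh).integrableOn
    refine this.congr_fun (fun x hx => ?_) measurableSet_Icc
    simp only
    rw [chi_eq_one R 0 x hx, mul_one]
  refine ⟨hint2, ?_⟩
  have h2 : Tendsto (fun n => ∫ x, h x * chi R n x ∂μ0) atTop
      (𝓝 (∫ x, Set.indicator (Set.Icc (-R) R) h x ∂μ0)) := by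
    refine tendsto_integral_of_dominated_convergence (fun x => |h x| * chi R 0 x)
      (fun n => (hint n h hh).aestronglyMeasurable) (hint 0 _ hh.abs) ?_ ?_
    · intro n
      refine Eventually.of_forall fun x => ?_
      rw [norm_mul, Real.norm_eq_abs, Real.norm_of_nonneg (chi_nonneg R n x)]
      exact mul_le_mul_of_nonneg_left (chi_le R n x) (abs_nonneg _)
    · refine Eventually.of_forall fun x => ?_
      by_cases hx : x ∈ Set.Icc (-R) R
      · rw [Set.indicator_of_mem hx]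
        refine tendsto_const_nhds.congr fun n => ?_
        rw [chi_eq_one R n x hx, mul_one]
      · rw [Set.indicator_of_notMem hx]
        have := (chi_lim R x hx).const_mul (h x)
        rwa [mul_zero] at this
  have h3 : Tendsto (fun n => ∫ x, h x * chi R n x ∂μ0) atTop (𝓝 ((⟪e, cfc h T e⟫_ℂ).re)) := by
    refine tendsto_const_nhds.congr fun n => (h1 n h hh).symm
  rw [integral_indicator measurableSet_Icc] at h2
  exact tendsto_nhds_unique h2 h3

theorem smeas_prob (e : H) (he : ‖e‖ = 1) (T : H →L[ℂ] H) (hT : IsSelfAdjoint T) :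
    IsProbabilityMeasure (smeas e T) := by
  have h := integral_smeas e T (fun _ => 1) continuous_const
  have h1 : cfc (fun _ : ℝ => (1 : ℝ)) T = 1 := cfc_const_one ℝ T
  rw [h1] at h
  have h2 : (⟪e, (1 : H →L[ℂ] H) e⟫_ℂ).re = 1 := by
    simp only [one_apply_eq_self]
    rw [inner_self_eq_norm_sq_to_K, he]
    simp
  rw [h2] at h
  have hfin : IsFiniteMeasure (smeas e T) := by
    have := h.1
    rw [integrable_const_iff] at this
    simpa using this
  constructor
  have h3 := h.2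
  simp only [integral_const, smul_eq_mul, mul_one, Measure.real] at h3
  rw [← ENNReal.toReal_eq_one_iff]
  exact h3

theorem smeas_supp (e : H) (T : H →L[ℂ] H) : smeas e T (Set.Icc (-‖T‖) ‖T‖)ᶜ = 0 := by
  unfold smeas
  rw [Measure.restrict_apply measurableSet_Icc.compl]
  simp

theorem smeas_pow (e : H) (T : H →L[ℂ] H) (hT : IsSelfAdjoint T) (k : ℕ) :
    ∫ x, x ^ k ∂(smeas e T) = (⟪e, (T ^ k) e⟫_ℂ).re := by
  rw [(integral_smeas e T (fun x => x ^ k) (by fun_prop)).2]
  rw [cfc_pow_id T k]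

/-- the resolvent -/
theorem resolvent (e : H) (T : H →L[ℂ] H) (hT : IsSelfAdjoint T) (l t : ℝ) (ht : 0 < t) :
    ∃ ψ : H, T ψ - ((l : ℂ) + t * Complex.I) • ψ = e ∧
      ⟪e, ψ⟫_ℂ = (cc (smeas e T) l t : ℂ) + (t * bb (smeas e T) l t : ℝ) * Complex.I := by
  set f1 : ℝ → ℝ := fun x => (x - l) / ((x - l) ^ 2 + t ^ 2) with hf1
  set f2 : ℝ → ℝ := fun x => t * (1 / ((x - l) ^ 2 + t ^ 2)) with hf2
  have hpos : ∀ x : ℝ, (x - l) ^ 2 + t ^ 2 ≠ 0 := fun x => by positivity
  have hc1 : Continuous f1 := by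
    rw [hf1]
    exact (by fun_prop : Continuous fun x : ℝ => x - l).div (by fun_prop) hpos
  have hc2 : Continuous f2 := by
    rw [hf2]
    exact continuous_const.mul (continuous_const.div (by fun_prop) hpos)
  have hA : cfc (fun x : ℝ => x - l) T = T - l • (1 : H →L[ℂ] H) := by
    rw [cfc_sub (fun x : ℝ => x) (fun _ => l) T (by fun_prop) (by fun_prop), cfc_id' ℝ T,
      cfc_const l T, Algebra.algebraMap_eq_smul_one]
  have m1 : (T - l • (1 : H →L[ℂ] H)) * cfc f1 T + t • cfc f2 T = 1 := by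
    rw [← hA, ← cfc_mul (fun x : ℝ => x - l) f1 T (by fun_prop) hc1.continuousOn,
      ← cfc_smul t f2 T hc2.continuousOn, ← cfc_add (a := T) (fun x => (x - l) * f1 x) (fun x => t • f2 x)
        ((by fun_prop : Continuous fun x : ℝ => x - l).mul hc1).continuousOn (hc2.const_smul t).continuousOn]
    have : (fun x => (x - l) * f1 x + t • f2 x) = fun _ => (1 : ℝ) := by
      funext x
      rw [hf1, hf2]
      simp only [smul_eq_mul]
      have := hpos x
      field_simp
    rw [this]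
    exact cfc_const_one ℝ T
  have m2 : (T - l • (1 : H →L[ℂ] H)) * cfc f2 T - t • cfc f1 T = 0 := by
    rw [← hA, ← cfc_mul (fun x : ℝ => x - l) f2 T (by fun_prop) hc2.continuousOn,
      ← cfc_smul t f1 T hc1.continuousOn, ← cfc_sub (a := T) (fun x => (x - l) * f2 x) (fun x => t • f1 x)
        ((by fun_prop : Continuous fun x : ℝ => x - l).mul hc2).continuousOn (hc1.const_smul t).continuousOn]
    have : (fun x => (x - l) * f2 x - t • f1 x) = fun _ => (0 : ℝ) := by
      funext x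
      rw [hf1, hf2]
      simp only [smul_eq_mul]
      have := hpos x
      field_simp
      ring
    rw [this]
    exact cfc_const_zero ℝ T
  have m1' := congrArg (fun S : H →L[ℂ] H => S e) m1
  have m2' := congrArg (fun S : H →L[ℂ] H => S e) m2
  simp only [add_apply, mul_apply_eq_comp, sub_apply, smul_apply, one_apply_eq_self,
    zero_apply] at m1' m2'
  have real_inner : ∀ f : ℝ → ℝ, Continuous f → ⟪e, cfc f T e⟫_ℂ = ((∫ x, f x ∂(smeas e T) : ℝ) : ℂ) := by
    intro f hf
    rw [(integral_smeas e T f hf).2]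
    have hsa : IsSelfAdjoint (cfc f T) := cfc_predicate f T
    have := ContinuousLinearMap.isSelfAdjoint_iff_isSymmetric.mp hsa
    apply Complex.ext
    · simp
    · rw [Complex.ofReal_im]
      have h1 := this e e
      have h2 := inner_conj_symm (𝕜 := ℂ) e (cfc f T e)
      simp only [ContinuousLinearMap.coe_coe] at h1
      rw [h1] at h2
      exact Complex.conj_eq_iff_im.mp h2
  refine ⟨cfc f1 T e + Complex.I • cfc f2 T e, ?_, ?_⟩
  · have hs : ∀ (r : ℝ) (v : H), (r • v : H) = (r : ℂ) • v := fun r v => (Complex.coe_smul r v).symm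
    rw [hs, hs] at m1' m2'
    have e1 : T (cfc f1 T e) = e + (l : ℂ) • cfc f1 T e - (t : ℂ) • cfc f2 T e := by
      calc T (cfc f1 T e) = (T (cfc f1 T e) - (l : ℂ) • cfc f1 T e + (t : ℂ) • cfc f2 T e) +
            (l : ℂ) • cfc f1 T e - (t : ℂ) • cfc f2 T e := by abel
        _ = _ := by rw [m1']
    have e2 : T (cfc f2 T e) = (l : ℂ) • cfc f2 T e + (t : ℂ) • cfc f1 T e := by
      calc T (cfc f2 T e) = (T (cfc f2 T e) - (l : ℂ) • cfc f2 T e - (t : ℂ) • cfc f1 T e) +
            ((l : ℂ) • cfc f2 T e + (t : ℂ) • cfc f1 T e) := by abel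
        _ = _ := by rw [m2', zero_add]
    rw [map_add, map_smul, e1, e2]
    have hI : Complex.I * Complex.I = -1 := Complex.I_mul_I
    have : ∀ a b : H, e + (l : ℂ) • a - (t : ℂ) • b + Complex.I • ((l : ℂ) • b + (t : ℂ) • a) -
        ((l : ℂ) + t * Complex.I) • (a + Complex.I • b) = e - ((t : ℂ) * (1 + Complex.I * Complex.I)) • b := by
      intro a b
      module
    rw [this, hI]
    simp
  · rw [inner_add_right, inner_smul_right, real_inner f1 hc1, real_inner f2 hc2]
    unfold cc bb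
    have : ∫ x, f2 x ∂(smeas e T) = t * ∫ x, 1 / ((x - l) ^ 2 + t ^ 2) ∂(smeas e T) :=
      integral_const_mul _ _
    rw [this]
    ring

theorem resolvent_unique (T : H →L[ℂ] H) (hT : IsSelfAdjoint T) (l t : ℝ) (ht : 0 < t) (φ ψ : H)
    (h : T φ - ((l : ℂ) + t * Complex.I) • φ = T ψ - ((l : ℂ) + t * Complex.I) • ψ) : φ = ψ := by
  set δ := φ - ψ with hδ
  have h1 : T δ = ((l : ℂ) + t * Complex.I) • δ := by
    rw [hδ, map_sub, smul_sub]
    rw [sub_eq_sub_iff_add_eq_add] at h ⊢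
    rw [h]
    abel
  have hsym := ContinuousLinearMap.isSelfAdjoint_iff_isSymmetric.mp hT δ δ
  simp only [ContinuousLinearMap.coe_coe] at hsym
  rw [h1, inner_smul_left, inner_smul_right] at hsym
  have h2 : (starRingEnd ℂ ((l : ℂ) + t * Complex.I) - ((l : ℂ) + t * Complex.I)) * ⟪δ, δ⟫_ℂ = 0 := by
    rw [sub_mul, hsym, sub_self]
  rcases mul_eq_zero.mp h2 with h3 | h3
  · exfalso
    have := congrArg Complex.im h3
    simp at this
    linarith
  · rw [inner_self_eq_zero] at h3
    exact sub_eq_zero.mp h3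

end Spec

end Pool.Agent.H27R3.UG
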