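import Mathlib
import Pool.Agent.H27R3.UG.Spec

set_option autoImplicit false
open MeasureTheory Filter Topology
open scoped ENNReal InnerProductSpace

namespace Pool.Agent.H27R3.UG

section Op

variable {V : Type} [DecidableEq V] (nb : V → Finset V) (K : ℕ)

noncomputable abbrev EV (V : Type) := lp (fun _ : V => ℂ) 2

theorem two_toReal : (2 : ℝ≥0∞).toReal = 2 := by simp

theorem sum_sq_le (f : EV V) (s : Finset V) : ∑ v ∈ s, ‖f v‖ ^ 2 ≤ ‖f‖ ^ 2 := by
  have := lp.sum_rpow_le_norm_rpow (p := 2) (by simp) f s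
  simpa [two_toReal] using this

theorem op_bound (hK : ∀ v, (nb v).card ≤ K) (hs : ∀ u v, u ∈ nb v ↔ v ∈ nb u) (f : EV V)
    (s : Finset V) : ∑ v ∈ s, ‖∑ u ∈ nb v, f u‖ ^ 2 ≤ (K * ‖f‖) ^ 2 := by
  have h1 : ∀ v ∈ s, ‖∑ u ∈ nb v, f u‖ ^ 2 ≤ K * ∑ u ∈ nb v, ‖f u‖ ^ 2 := by
    intro v _
    calc ‖∑ u ∈ nb v, f u‖ ^ 2 ≤ (∑ u ∈ nb v, ‖f u‖) ^ 2 :=
          pow_le_pow_left₀ (norm_nonneg _) (norm_sum_le _ _) 2
      _ ≤ (nb v).card * ∑ u ∈ nb v, ‖f u‖ ^ 2 := sq_sum_le_card_mul_sum_sq
      _ ≤ _ := by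
        apply mul_le_mul_of_nonneg_right _ (Finset.sum_nonneg fun _ _ => sq_nonneg _)
        exact_mod_cast hK v
  refine (Finset.sum_le_sum h1).trans ?_
  rw [← Finset.mul_sum]
  have h2 : ∑ v ∈ s, ∑ u ∈ nb v, ‖f u‖ ^ 2 ≤ K * ‖f‖ ^ 2 := by
    have e1 : ∑ v ∈ s, ∑ u ∈ nb v, ‖f u‖ ^ 2 =
        ∑ u ∈ s.biUnion nb, ∑ v ∈ s, if u ∈ nb v then ‖f u‖ ^ 2 else 0 := by
      rw [Finset.sum_comm]
      refine Finset.sum_congr rfl fun v hv => ?_
      rw [← Finset.sum_filter]
      refine Finset.sum_congr ?_ fun _ _ => rfl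
      ext u
      rw [Finset.mem_filter, Finset.mem_biUnion]
      exact ⟨fun h => ⟨⟨v, hv, h⟩, h⟩, fun h => h.2⟩
    rw [e1]
    calc _ ≤ ∑ u ∈ s.biUnion nb, (K : ℝ) * ‖f u‖ ^ 2 := by
          refine Finset.sum_le_sum fun u _ => ?_
          rw [← Finset.sum_filter, Finset.sum_const, nsmul_eq_mul]
          apply mul_le_mul_of_nonneg_right _ (sq_nonneg _)
          have : s.filter (fun v => u ∈ nb v) ⊆ nb u := by
            intro v hv
            rw [Finset.mem_filter] at hv
            exact (hs u v).mp hv.2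
          exact_mod_cast (Finset.card_le_card this).trans (hK u)
      _ = K * ∑ u ∈ s.biUnion nb, ‖f u‖ ^ 2 := by rw [Finset.mul_sum]
      _ ≤ _ := mul_le_mul_of_nonneg_left (sum_sq_le f _) (by positivity)
  calc _ ≤ (K : ℝ) * (K * ‖f‖ ^ 2) := mul_le_mul_of_nonneg_left h2 (by positivity)
    _ = _ := by ring

noncomputable def opV (hK : ∀ v, (nb v).card ≤ K) (hs : ∀ u v, u ∈ nb v ↔ v ∈ nb u) :
    EV V →L[ℂ] EV V :=
  LinearMap.mkContinuous
    { toFun := fun f => ⟨fun v => ∑ u ∈ nb v, f u, memℓp_gen' (C := (K * ‖f‖) ^ 2) (by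
        intro s
        have := op_bound nb K hK hs f s
        simpa [two_toReal] using this)⟩
      map_add' := by
        intro f g
        ext v
        simp only [lp.coeFn_add, Pi.add_apply]
        exact Finset.sum_add_distrib
      map_smul' := by
        intro c f
        ext v
        simp only [lp.coeFn_smul, Pi.smul_apply, smul_eq_mul, RingHom.id_apply]
        exact (Finset.mul_sum _ _ _).symm } K (by
      intro f
      refine lp.norm_le_of_forall_sum_le (by simp) (by positivity) ?_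
      intro s
      have := op_bound nb K hK hs f s
      simpa [two_toReal] using this)

theorem opV_apply (hK : ∀ v, (nb v).card ≤ K) (hs : ∀ u v, u ∈ nb v ↔ v ∈ nb u) (f : EV V) (v : V) :
    (opV nb K hK hs f) v = ∑ u ∈ nb v, f u := rfl

theorem opV_sa (hK : ∀ v, (nb v).card ≤ K) (hs : ∀ u v, u ∈ nb v ↔ v ∈ nb u) :
    IsSelfAdjoint (opV nb K hK hs) := by
  rw [ContinuousLinearMap.isSelfAdjoint_iff_isSymmetric]
  set A := opV nb K hK hs with hA
  have hA1 : ∀ (v : V) (a : ℂ), A (lp.single 2 v a) = ∑ u ∈ nb v, (lp.single 2 u a : EV V) := by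
    intro v a
    ext w
    rw [hA, opV_apply]
    rw [lp.coeFn_sum, Finset.sum_apply]
    simp only [lp.coeFn_single, Pi.single_apply]
    rw [Finset.sum_ite_eq' (nb w) v, Finset.sum_ite_eq (nb v) w]
    simp only [hs v w]
  have h1 : ∀ g f : EV V, ⟪g, A f⟫_ℂ = ⟪A g, f⟫_ℂ := by
    intro g f
    have hsum := lp.hasSum_single (p := 2) (by simp) f
    have s1 := hsum.mapL ((innerSL ℂ g).comp A)
    have s2 := hsum.mapL (innerSL ℂ (A g))
    have e : (fun v => ((innerSL ℂ g).comp A) (lp.single 2 v (f v))) =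
        fun v => (innerSL ℂ (A g)) (lp.single 2 v (f v)) := by
      funext v
      simp only [ContinuousLinearMap.comp_apply, innerSL_apply_apply]
      rw [hA1, inner_sum, lp.inner_single_right]
      simp only [lp.inner_single_right]
      rw [hA, opV_apply, sum_inner]
    rw [e] at s1
    exact s1.unique s2
  intro f g
  exact (h1 f g).symm

end Op

section Tree

/-- neighbours of `v` in the tree with child numbers `min (T v) D` -/
def nbT (D : ℕ) : List ℕ → (List ℕ → ℕ) → Finset (List ℕ)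
  | [], T => (Finset.range (min (T []) D)).image (fun i => [i])
  | i :: w, T => if i < min (T []) D then
      ((nbT D w (fun v => T (i :: v))).image (fun u => i :: u)) ∪ (if w = [] then {[]} else ∅)
    else ∅

/-- branch of the tree -/
def br (i : ℕ) (T : List ℕ → ℕ) : List ℕ → ℕ := fun v => T (i :: v)

theorem nbT_nil (D : ℕ) (T : List ℕ → ℕ) :
    nbT D [] T = (Finset.range (min (T []) D)).image (fun i => [i]) := rfl

theorem nbT_cons (D i : ℕ) (w : List ℕ) (T : List ℕ → ℕ) :
    nbT D (i :: w) T = if i < min (T []) D then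
      ((nbT D w (br i T)).image (fun u => i :: u)) ∪ (if w = [] then {[]} else ∅) else ∅ := rfl

theorem mem_nil (D : ℕ) (T : List ℕ → ℕ) (u : List ℕ) :
    u ∈ nbT D [] T ↔ ∃ i < min (T []) D, u = [i] := by
  rw [nbT_nil, Finset.mem_image]
  simp only [Finset.mem_range]
  constructor
  · rintro ⟨i, hi, rfl⟩; exact ⟨i, hi, rfl⟩
  · rintro ⟨i, hi, rfl⟩; exact ⟨i, hi, rfl⟩

theorem mem_cons (D i : ℕ) (w : List ℕ) (T : List ℕ → ℕ) (u : List ℕ) :
    u ∈ nbT D (i :: w) T ↔ i < min (T []) D ∧
      ((∃ u' ∈ nbT D w (br i T), u = i :: u') ∨ (w = [] ∧ u = [])) := by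
  rw [nbT_cons]
  split_ifs with h h2
  · rw [Finset.mem_union, Finset.mem_image, Finset.mem_singleton]
    constructor
    · rintro (⟨u', h1, rfl⟩ | rfl)
      · exact ⟨h, Or.inl ⟨u', h1, rfl⟩⟩
      · exact ⟨h, Or.inr ⟨h2, rfl⟩⟩
    · rintro ⟨_, (⟨u', h1, rfl⟩ | ⟨_, rfl⟩)⟩
      · exact Or.inl ⟨u', h1, rfl⟩
      · exact Or.inr rfl
  · rw [Finset.union_empty, Finset.mem_image]
    constructor
    · rintro ⟨u', h1, rfl⟩
      exact ⟨h, Or.inl ⟨u', h1, rfl⟩⟩
    · rintro ⟨_, (⟨u', h1, rfl⟩ | ⟨h3, _⟩)⟩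
      · exact ⟨u', h1, rfl⟩
      · exact absurd h3 h2
  · simp [h]

theorem nbT_symm (D : ℕ) (u v : List ℕ) (T : List ℕ → ℕ) : u ∈ nbT D v T ↔ v ∈ nbT D u T := by
  induction v generalizing u T with
  | nil =>
    rw [mem_nil]
    constructor
    · rintro ⟨i, hi, rfl⟩
      rw [mem_cons]
      exact ⟨hi, Or.inr ⟨rfl, rfl⟩⟩
    · intro h
      cases u with
      | nil =>
        rw [mem_nil] at h
        obtain ⟨i, _, hi⟩ := h
        simp at hi
      | cons j u' =>
        rw [mem_cons] at h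
        obtain ⟨hj, (⟨w, _, hw⟩ | ⟨hu, _⟩)⟩ := h
        · simp at hw
        · exact ⟨j, hj, by rw [hu]⟩
  | cons i w ih =>
    rw [mem_cons]
    cases u with
    | nil =>
      rw [mem_nil]
      constructor
      · rintro ⟨hi, (⟨u', _, hu'⟩ | ⟨hw, _⟩)⟩
        · simp at hu'
        · exact ⟨i, hi, by rw [hw]⟩
      · rintro ⟨j, hj, hji⟩
        simp only [List.cons.injEq] at hji
        obtain ⟨rfl, rfl⟩ := hji
        exact ⟨hj, Or.inr ⟨rfl, rfl⟩⟩
    | cons j u' =>
      rw [mem_cons]
      constructor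
      · rintro ⟨hi, (⟨u'', hu'', h⟩ | ⟨_, h⟩)⟩
        · simp only [List.cons.injEq] at h
          obtain ⟨rfl, rfl⟩ := h
          exact ⟨hi, Or.inl ⟨w, (ih _ _).mp hu'', rfl⟩⟩
        · simp at h
      · rintro ⟨hj, (⟨w', hw', h⟩ | ⟨_, h⟩)⟩
        · simp only [List.cons.injEq] at h
          obtain ⟨rfl, rfl⟩ := h
          exact ⟨hj, Or.inl ⟨u', (ih _ _).mpr hw', rfl⟩⟩
        · simp at h

theorem nbT_card (D : ℕ) (v : List ℕ) (T : List ℕ → ℕ) : (nbT D v T).card ≤ D + 1 := by
  induction v generalizing T with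
  | nil =>
    rw [nbT_nil]
    refine Finset.card_image_le.trans ?_
    rw [Finset.card_range]
    omega
  | cons i w ih =>
    rw [nbT_cons]
    split_ifs with h h2
    · subst h2
      refine (Finset.card_union_le _ _).trans ?_
      rw [Finset.card_singleton]
      have : ((nbT D [] (br i T)).image (fun u => i :: u)).card ≤ D := by
        refine Finset.card_image_le.trans ?_
        rw [nbT_nil]
        refine Finset.card_image_le.trans ?_
        rw [Finset.card_range]
        omega
      omega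
    · rw [Finset.union_empty]
      exact Finset.card_image_le.trans (ih _)
    · simp

/-- adjacency operator of the tree -/
noncomputable def opT (D : ℕ) (T : List ℕ → ℕ) : EV (List ℕ) →L[ℂ] EV (List ℕ) :=
  opV (fun v => nbT D v T) (D + 1) (fun v => nbT_card D v T) (fun u v => nbT_symm D u v T)

theorem opT_apply (D : ℕ) (T : List ℕ → ℕ) (f : EV (List ℕ)) (v : List ℕ) :
    (opT D T f) v = ∑ u ∈ nbT D v T, f u := rfl

theorem opT_sa (D : ℕ) (T : List ℕ → ℕ) : IsSelfAdjoint (opT D T) := opV_sa _ _ _ _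

theorem opT_norm (D : ℕ) (T : List ℕ → ℕ) : ‖opT D T‖ ≤ D + 1 := by
  have := LinearMap.mkContinuous_norm_le (f := ((opT D T : EV (List ℕ) →L[ℂ] EV (List ℕ)) : EV (List ℕ) →ₗ[ℂ] EV (List ℕ)))
    (C := ((D + 1 : ℕ) : ℝ)) (by positivity) (by
      intro f
      refine lp.norm_le_of_forall_sum_le (by simp) (by positivity) ?_
      intro s
      have := op_bound (fun v => nbT D v T) (D + 1) (fun v => nbT_card D v T)
        (fun u v => nbT_symm D u v T) f s
      simpa [two_toReal, opT_apply] using this)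
  have e : ((D + 1 : ℕ) : ℝ) = (D : ℝ) + 1 := by push_cast; ring
  rw [← e]
  exact this

noncomputable def root : EV (List ℕ) := lp.single 2 ([] : List ℕ) (1 : ℂ)

theorem root_norm : ‖root‖ = 1 := by
  unfold root
  rw [lp.norm_single (by simp)]
  simp

theorem root_apply (v : List ℕ) : root v = if v = [] then 1 else 0 := by
  unfold root
  rw [lp.coeFn_single, Pi.single_apply]

theorem inner_root (ψ : EV (List ℕ)) : ⟪root, ψ⟫_ℂ = ψ [] := by
  unfold root
  rw [lp.inner_single_left]
  simp

/-- spectral measure at the root -/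
noncomputable def mT (D : ℕ) (T : List ℕ → ℕ) : Measure ℝ := smeas root (opT D T)

instance (D : ℕ) (T : List ℕ → ℕ) : IsProbabilityMeasure (mT D T) :=
  smeas_prob _ root_norm _ (opT_sa D T)

theorem mT_supp (D : ℕ) (T : List ℕ → ℕ) : mT D T (Set.Icc (-(D + 1 : ℝ)) (D + 1))ᶜ = 0 := by
  refine measure_mono_null ?_ (smeas_supp root (opT D T))
  apply Set.compl_subset_compl.mpr
  have := opT_norm D T
  exact Set.Icc_subset_Icc (by linarith) this

/-- Schur complement recursion -/
theorem mT_rec (D : ℕ) (T : List ℕ → ℕ) (l t : ℝ) (ht : 0 < t) :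
    (1 + ∑ i : Fin (min (T []) D), bb (mT D (br i T)) l t) /
      ((l + ∑ i : Fin (min (T []) D), cc (mT D (br i T)) l t) ^ 2 +
        t ^ 2 * (1 + ∑ i : Fin (min (T []) D), bb (mT D (br i T)) l t) ^ 2) = bb (mT D T) l t ∧
    -(l + ∑ i : Fin (min (T []) D), cc (mT D (br i T)) l t) /
      ((l + ∑ i : Fin (min (T []) D), cc (mT D (br i T)) l t) ^ 2 +
        t ^ 2 * (1 + ∑ i : Fin (min (T []) D), bb (mT D (br i T)) l t) ^ 2) = cc (mT D T) l t := by
  set z : ℂ := (l : ℂ) + t * Complex.I with hz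
  have hres : ∀ T, ∃ ψ : EV (List ℕ), opT D T ψ - z • ψ = root ∧
      ψ [] = (cc (mT D T) l t : ℂ) + (t * bb (mT D T) l t : ℝ) * Complex.I := by
    intro T
    obtain ⟨ψ, h1, h2⟩ := resolvent root (opT D T) (opT_sa D T) l t ht
    rw [inner_root] at h2
    exact ⟨ψ, h1, h2⟩
  choose ψ hψ1 hψ2 using hres
  set m := min (T []) D with hm
  set S : ℂ := ∑ i : Fin m, ψ (br i T) [] with hS
  set Bs : ℝ := ∑ i : Fin m, bb (mT D (br i T)) l t with hBs
  set Cs : ℝ := ∑ i : Fin m, cc (mT D (br i T)) l t with hCs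
  have hBs0 : 0 ≤ Bs := Finset.sum_nonneg fun i _ => bb_nonneg _ _ _
  have hSval : z + S = ((l + Cs : ℝ) : ℂ) + (t * (1 + Bs) : ℝ) * Complex.I := by
    rw [hS, hz]
    simp_rw [hψ2]
    rw [Finset.sum_add_distrib, ← Finset.sum_mul]
    push_cast [hBs, hCs]
    rw [← Finset.mul_sum]
    ring
  have hden : (l + Cs) ^ 2 + t ^ 2 * (1 + Bs) ^ 2 ≠ 0 := by
    have : 0 < t ^ 2 * (1 + Bs) ^ 2 := by positivity
    positivity
  have hzS : z + S ≠ 0 := by
    intro h0
    rw [hSval] at h0
    have := congrArg Complex.im h0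
    simp at this
    rcases this with h | h
    · exact ht.ne' h
    · linarith
  set g : ℂ := -(z + S)⁻¹ with hg
  -- candidate
  set φf : List ℕ → ℂ := fun v => match v with
    | [] => g
    | i :: w => if i < m then -g * ψ (br i T) w else 0 with hφf
  have hφmem : Memℓp (φf : ∀ _ : List ℕ, ℂ) 2 := by
    refine memℓp_gen' (C := ‖g‖ ^ 2 + ∑ i ∈ Finset.range m, ‖g‖ ^ 2 * ‖ψ (br i T)‖ ^ 2) ?_
    intro s
    have key : ∀ s : Finset (List ℕ), ∑ v ∈ s, ‖φf v‖ ^ 2 ≤
        ‖g‖ ^ 2 + ∑ i ∈ Finset.range m, ‖g‖ ^ 2 * ‖ψ (br i T)‖ ^ 2 := by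
      intro s
      have hsub : ∑ v ∈ s, ‖φf v‖ ^ 2 ≤ ∑ v ∈ ({[]} ∪ (Finset.range m).biUnion
          (fun i => (s.image List.tail).image (fun w => i :: w)) : Finset (List ℕ)), ‖φf v‖ ^ 2 := by
        have h0 : ∀ v ∈ s, v ∉ ({[]} ∪ (Finset.range m).biUnion
          (fun i => (s.image List.tail).image (fun w => i :: w)) : Finset (List ℕ)) → ‖φf v‖ ^ 2 = 0 := by
          intro v hv hv2
          cases v with
          | nil => simp at hv2
          | cons i w =>
            have hi : ¬ i < m := by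
              intro hi
              apply hv2
              rw [Finset.mem_union, Finset.mem_biUnion]
              right
              refine ⟨i, Finset.mem_range.mpr hi, ?_⟩
              rw [Finset.mem_image]
              refine ⟨w, ?_, rfl⟩
              rw [Finset.mem_image]
              exact ⟨i :: w, hv, rfl⟩
            simp only [hφf, if_neg hi]
            simp
        rw [← Finset.sum_filter_add_sum_filter_not s (fun v => v ∈ ({[]} ∪ (Finset.range m).biUnion
          (fun i => (s.image List.tail).image (fun w => i :: w)) : Finset (List ℕ)))]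
        have hz0 : ∑ v ∈ s.filter (fun v => ¬ v ∈ ({[]} ∪ (Finset.range m).biUnion
          (fun i => (s.image List.tail).image (fun w => i :: w)) : Finset (List ℕ))), ‖φf v‖ ^ 2 = 0 :=
          Finset.sum_eq_zero fun v hv => by
            rw [Finset.mem_filter] at hv
            exact h0 v hv.1 hv.2
        rw [hz0, add_zero]
        refine Finset.sum_le_sum_of_subset_of_nonneg ?_ fun _ _ _ => sq_nonneg _
        intro v hv
        rw [Finset.mem_filter] at hv
        exact hv.2
      refine hsub.trans ?_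
      rw [Finset.sum_union (by
        rw [Finset.disjoint_singleton_left, Finset.mem_biUnion]
        rintro ⟨i, _, hi⟩
        rw [Finset.mem_image] at hi
        obtain ⟨w, _, hw⟩ := hi
        simp at hw)]
      refine add_le_add ?_ ?_
      · rw [Finset.sum_singleton]
      · rw [Finset.sum_biUnion (by
          intro i _ j _ hij
          rw [Function.onFun, Finset.disjoint_left]
          intro v hv hv'
          rw [Finset.mem_image] at hv hv'
          obtain ⟨w, _, hw⟩ := hv
          obtain ⟨w', _, hw'⟩ := hv'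
          rw [← hw'] at hw
          simp only [List.cons.injEq] at hw
          exact hij hw.1)]
        refine Finset.sum_le_sum fun i hi => ?_
        rw [Finset.mem_range] at hi
        rw [Finset.sum_image (fun a _ b _ h => by simpa using h)]
        calc ∑ w ∈ s.image List.tail, ‖φf (i :: w)‖ ^ 2 = ∑ w ∈ s.image List.tail, ‖g‖ ^ 2 * ‖ψ (br i T) w‖ ^ 2 := by
              refine Finset.sum_congr rfl fun w _ => ?_
              simp only [hφf, if_pos hi]
              rw [norm_mul, norm_neg, mul_pow]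
          _ ≤ _ := by
              rw [← Finset.mul_sum]
              exact mul_le_mul_of_nonneg_left (sum_sq_le _ _) (sq_nonneg _)
    have := key s
    simpa [two_toReal] using this
  set φ : EV (List ℕ) := ⟨φf, hφmem⟩ with hφ
  have hφ0 : φ [] = g := rfl
  have hφc : ∀ i w, i < m → φ (i :: w) = -g * ψ (br i T) w := by
    intro i w hi
    change φf (i :: w) = _
    simp only [hφf, if_pos hi]
  have hφc' : ∀ i w, ¬ i < m → φ (i :: w) = 0 := by
    intro i w hi
    change φf (i :: w) = _
    simp only [hφf, if_neg hi]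
  have heq : opT D T φ - z • φ = root := by
    ext v
    rw [lp.coeFn_sub, Pi.sub_apply, lp.coeFn_smul, Pi.smul_apply, smul_eq_mul, opT_apply, root_apply]
    cases v with
    | nil =>
      rw [nbT_nil, Finset.sum_image (fun a _ b _ h => by simpa using h), if_pos rfl, hφ0]
      have : ∑ i ∈ Finset.range (min (T []) D), φ [i] = -g * S := by
        rw [hS, Finset.mul_sum, ← hm, Finset.sum_range]
        refine Finset.sum_congr rfl fun i _ => ?_
        exact hφc i [] i.2
      rw [this, hg]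
      field_simp
      ring
    | cons i w =>
      rw [if_neg (by simp), nbT_cons]
      by_cases hi : i < m
      · rw [← hm, if_pos hi, hφc i w hi]
        have hψ := congrArg (fun f : EV (List ℕ) => f w) (hψ1 (br i T))
        simp only [lp.coeFn_sub, Pi.sub_apply, lp.coeFn_smul, Pi.smul_apply, smul_eq_mul] at hψ
        rw [opT_apply, root_apply] at hψ
        have hsum : ∑ u ∈ (nbT D w (br i T)).image (fun u => i :: u) ∪ (if w = [] then {[]} else ∅), φ u =
            -g * ∑ u ∈ nbT D w (br i T), ψ (br i T) u + (if w = [] then g else 0) := by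
          rw [Finset.sum_union, Finset.sum_image (fun a _ b _ h => by simpa using h), Finset.mul_sum]
          · congr 1
            · exact Finset.sum_congr rfl fun u _ => hφc i u hi
            · split_ifs
              · rw [Finset.sum_singleton, hφ0]
              · simp
          · split_ifs
            · rw [Finset.disjoint_singleton_right, Finset.mem_image]
              rintro ⟨u, _, hu⟩
              simp at hu
            · simp
        rw [hsum]
        split_ifs at hψ ⊢ with hw
        · linear_combination (-g) * hψ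
        · linear_combination (-g) * hψ
      · rw [← hm, if_neg hi, hφc' i w hi]
        simp
  have hu := resolvent_unique (opT D T) (opT_sa D T) l t ht φ (ψ T) (by rw [← hz, heq, hψ1])
  have hfin : g = (cc (mT D T) l t : ℂ) + (t * bb (mT D T) l t : ℝ) * Complex.I := by
    rw [← hψ2 T, ← hu, hφ0]
  have hg2 : g = ((-(l + Cs) / ((l + Cs) ^ 2 + t ^ 2 * (1 + Bs) ^ 2) : ℝ) : ℂ) +
      ((t * ((1 + Bs) / ((l + Cs) ^ 2 + t ^ 2 * (1 + Bs) ^ 2)) : ℝ) : ℂ) * Complex.I := by
    have hden' : (((l + Cs) ^ 2 + t ^ 2 * (1 + Bs) ^ 2 : ℝ) : ℂ) ≠ 0 := by exact_mod_cast hden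
    rw [hg, hSval]
    have hne : ((l + Cs : ℝ) : ℂ) + (t * (1 + Bs) : ℝ) * Complex.I ≠ 0 := by rw [← hSval]; exact hzS
    have hI : Complex.I ^ 2 = -1 := Complex.I_sq
    rw [neg_eq_iff_eq_neg]
    refine inv_eq_of_mul_eq_one_right ?_
    push_cast at hden' ⊢
    field_simp
    ring_nf
    rw [hI]
    ring
  rw [hg2] at hfin
  have hre := congrArg Complex.re hfin
  have him := congrArg Complex.im hfin
  simp only [Complex.add_re, Complex.ofReal_re, Complex.mul_re, Complex.I_re, mul_zero,
    Complex.ofReal_im, Complex.I_im, mul_one, sub_self, add_zero, Complex.add_im,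
    Complex.mul_im, zero_add] at hre him
  exact ⟨mul_left_cancel₀ ht.ne' him, hre⟩

end Tree

end Pool.Agent.H27R3.UG
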