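import Mathlib
import Pool.Agent.H27R3.UG.Tree

set_option autoImplicit false
open MeasureTheory Filter Topology ProbabilityTheory Measure
open scoped ENNReal

namespace Pool.Agent.H27R3.UG

abbrev Tr := List ℕ → ℕ

/-- tree with root label `n` and branches `τ i` -/
def glue (n : ℕ) (τ : ℕ → Tr) : Tr := fun w => match w with
  | [] => n
  | i :: v => τ i v

theorem glue_nil (n : ℕ) (τ : ℕ → Tr) : glue n τ [] = n := rfl

theorem br_glue (n i : ℕ) (τ : ℕ → Tr) : br i (glue n τ) = τ i := rfl

theorem glue_br (T : Tr) : glue (T []) (fun i => br i T) = T := by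
  funext w
  cases w <;> rfl

theorem measurable_glue : Measurable (fun p : ℕ × (ℕ → Tr) => glue p.1 p.2) := by
  rw [measurable_pi_iff]
  intro w
  cases w with
  | nil => exact measurable_fst
  | cons i v =>
    change Measurable (fun p : ℕ × (ℕ → Tr) => p.2 i v)
    fun_prop

theorem measurable_glue' (n : ℕ) : Measurable (fun τ : ℕ → Tr => glue n τ) :=
  measurable_glue.comp (measurable_const.prodMk measurable_id)

theorem inf_option {κ X : Type} [MeasurableSpace X] (μ : Option κ → Measure X)
    [∀ o, IsProbabilityMeasure (μ o)] :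
    ((μ none).prod (infinitePi fun k => μ (some k))).map
      (fun p => fun o : Option κ => o.elim p.1 p.2) = infinitePi μ := by
  classical
  have hm : Measurable (fun p : X × (κ → X) => fun o : Option κ => o.elim p.1 p.2) := by
    rw [measurable_pi_iff]
    intro o
    cases o with
    | none => exact measurable_fst
    | some k =>
      change Measurable (fun p : X × (κ → X) => p.2 k)
      fun_prop
  refine Measure.eq_infinitePi _ fun s t ht => ?_
  rw [Measure.map_apply hm (.pi (Set.Finite.countable (Finset.finite_toSet s)) fun _ _ => ht _)]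
  have hpre : (fun p : X × (κ → X) => fun o : Option κ => o.elim p.1 p.2) ⁻¹' (Set.pi s t) =
      (if none ∈ s then t none else Set.univ) ×ˢ
        Set.pi (Finset.eraseNone s : Set κ) (fun k => t (some k)) := by
    ext ⟨x, y⟩
    simp only [Set.mem_preimage, Set.mem_pi, Set.mem_prod, Finset.mem_coe, Finset.mem_eraseNone]
    constructor
    · intro h
      refine ⟨?_, fun k hk => h (some k) hk⟩
      split_ifs with hn
      · exact h none hn
      · trivial
    · rintro ⟨h1, h2⟩ o ho
      cases o with
      | none => rw [if_pos ho] at h1; exact h1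
      | some k => exact h2 k ho
  rw [hpre, Measure.prod_prod, infinitePi_pi _ (fun i _ => ht _)]
  rw [show ∏ k ∈ Finset.eraseNone s, μ (some k) (t (some k)) =
    ∏ o ∈ s.erase none, μ o (t o) by rw [← Finset.map_some_eraseNone, Finset.prod_map]; rfl]
  by_cases hn : none ∈ s
  · rw [if_pos hn, Finset.mul_prod_erase s (fun o => μ o (t o)) hn]
  · rw [if_neg hn, measure_univ, one_mul, Finset.erase_eq_of_notMem hn]

/-- index map for glueing -/
def ixg (w : List ℕ) : Option (ℕ × List ℕ) := match w with
  | [] => none
  | i :: v => some (i, v)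

theorem ixg_inj : Function.Injective ixg := by
  intro a b h
  cases a <;> cases b <;> simp [ixg] at h ⊢
  exact h

theorem glue_law (p h : Measure ℕ) [IsProbabilityMeasure p] [IsProbabilityMeasure h] :
    (p.prod (infinitePi fun _ : ℕ => infinitePi fun _ : List ℕ => h)).map
      (fun q => glue q.1 q.2) = infinitePi (fun w : List ℕ => if w = [] then p else h) := by
  set μ : Option (ℕ × List ℕ) → Measure ℕ := fun o => o.elim p (fun _ => h) with hμ
  have hμp : ∀ o, IsProbabilityMeasure (μ o) := by
    intro o
    cases o with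
    | none => exact inferInstanceAs (IsProbabilityMeasure p)
    | some k => exact inferInstanceAs (IsProbabilityMeasure h)
  have h1 := inf_option μ
  have h2 := map_infinitePi_infinitePi_of_inj (P := μ) ixg_inj
  rw [← h1, Measure.map_map (by fun_prop) (by
    rw [measurable_pi_iff]
    intro o
    cases o with
    | none => exact measurable_fst
    | some k =>
      change Measurable (fun p : ℕ × (ℕ × List ℕ → ℕ) => p.2 k)
      fun_prop)] at h2
  have h3 : (fun i => μ (ixg i)) = fun w : List ℕ => if w = [] then p else h := by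
    funext w
    cases w with
    | nil => rfl
    | cons i v => rfl
  have h4 : infinitePi (fun i => μ (ixg i)) =
      infinitePi (fun w : List ℕ => if w = [] then p else h) := by
    simp only [h3]
  rw [← infinitePi_map_curry (fun _ : ℕ => fun _ : List ℕ => h)]
  have hid : p = p.map id := Measure.map_id.symm
  conv_lhs => rw [hid]
  rw [Measure.map_prod_map _ _ measurable_id (MeasurableEquiv.measurable _),
    Measure.map_map measurable_glue (measurable_id.prodMap (MeasurableEquiv.measurable _))]
  have h5 : (fun q : ℕ × (ℕ → Tr) => glue q.1 q.2) ∘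
      (Prod.map id (MeasurableEquiv.curry ℕ (List ℕ) ℕ)) =
      ((fun (ω : Option (ℕ × List ℕ) → ℕ) i => ω (ixg i)) ∘
        fun p : ℕ × (ℕ × List ℕ → ℕ) => fun o => o.elim p.1 p.2) := by
    funext q w
    cases w <;> rfl
  rw [h5]
  refine Eq.trans ?_ (h2.trans ?_)
  · rfl
  · convert h4

/-- insert `s` at position `i` -/
def ins (i : ℕ) (s : Tr) (τ : ℕ → Tr) : ℕ → Tr := fun j =>
  if j = i then s else if j < i then τ j else τ (j - 1)

/-- skip `i` -/
def sk (i j : ℕ) : ℕ := if j < i then j else j + 1

theorem ins_self (i : ℕ) (s : Tr) (τ : ℕ → Tr) : ins i s τ i = s := by simp [ins]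

theorem ins_sk (i j : ℕ) (s : Tr) (τ : ℕ → Tr) : ins i s τ (sk i j) = τ j := by
  unfold ins sk
  by_cases h : j < i
  · simp [h, h.ne]
  · have h1 : ¬ (j + 1 = i) := by omega
    have h2 : ¬ (j + 1 < i) := by omega
    simp [h, h1, h2]

def ixi (i j : ℕ) : Option ℕ := if j = i then none else if j < i then some j else some (j - 1)

theorem ixi_inj (i : ℕ) : Function.Injective (ixi i) := by
  intro a b h
  unfold ixi at h
  split_ifs at h <;> simp at h <;> omega

theorem measurable_ins (i : ℕ) : Measurable (fun p : Tr × (ℕ → Tr) => ins i p.1 p.2) := by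
  rw [measurable_pi_iff]
  intro j
  unfold ins
  split_ifs
  · exact measurable_fst
  · fun_prop
  · fun_prop

theorem ins_law (γ : Measure Tr) [IsProbabilityMeasure γ] (i : ℕ) :
    (γ.prod (infinitePi fun _ : ℕ => γ)).map (fun p => ins i p.1 p.2) =
      infinitePi fun _ : ℕ => γ := by
  have h1 := inf_option (κ := ℕ) (fun _ : Option ℕ => γ)
  have h2 := map_infinitePi_infinitePi_of_inj (P := fun _ : Option ℕ => γ) (ixi_inj i)
  rw [← h1, Measure.map_map (by fun_prop) (by
    rw [measurable_pi_iff]
    intro o
    cases o with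
    | none => exact measurable_fst
    | some k =>
      change Measurable (fun p : Tr × (ℕ → Tr) => p.2 k)
      fun_prop)] at h2
  refine Eq.trans ?_ h2
  congr 1
  funext q j
  simp only [Function.comp, ins, ixi]
  split_ifs <;> rfl

section Edge

variable (γ : Measure Tr) [IsProbabilityMeasure γ]

theorem lint_ins (i : ℕ) (G : (ℕ → Tr) → ℝ≥0∞) (hG : Measurable G) :
    ∫⁻ τ, G τ ∂(infinitePi fun _ : ℕ => γ) =
      ∫⁻ s, ∫⁻ τ, G (ins i s τ) ∂(infinitePi fun _ : ℕ => γ) ∂γ := by
  conv_lhs => rw [← ins_law γ i]
  rw [lintegral_map hG (measurable_ins i)]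
  exact lintegral_prod (fun p : Tr × (ℕ → Tr) => G (ins i p.1 p.2))
    ((hG.comp (measurable_ins i)).aemeasurable)

theorem edge_one (n i : ℕ) (F : Tr → Tr → ℝ≥0∞) (hF : Measurable (fun p : Tr × Tr => F p.1 p.2)) :
    ∫⁻ τ, F (glue n (fun j => τ (sk i j))) (τ i) ∂(infinitePi fun _ : ℕ => γ) =
      ∫⁻ s, ∫⁻ τ, F (glue n τ) s ∂(infinitePi fun _ : ℕ => γ) ∂γ := by
  rw [lint_ins γ i]
  · simp_rw [ins_self, ins_sk]
  · have : Measurable (fun τ : ℕ → Tr => (glue n (fun j => τ (sk i j)), τ i)) := by
      refine Measurable.prodMk ((measurable_glue' n).comp ?_) (measurable_pi_apply i)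
      rw [measurable_pi_iff]
      intro j
      exact measurable_pi_apply _
    exact hF.comp this

end Edge

end Pool.Agent.H27R3.UG
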