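import Mathlib
import Pool.Agent.H27R3.UG.Law

set_option autoImplicit false
open MeasureTheory Filter Topology ProbabilityTheory Measure
open scoped ENNReal

namespace Pool.Agent.H27R3.UG

/-- truncated degree -/
def dg (D : ℕ) (T : Tr) : ℕ := min (T []) D

theorem dg_glue {D n : ℕ} (h : n ≤ D) (τ : ℕ → Tr) : dg D (glue n τ) = n := by
  unfold dg
  rw [glue_nil]
  exact min_eq_left h

/-- branch data with local recursion -/
structure Sys (D : ℕ) (l : ℝ) where
  a : Tr → ℝ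
  b : Tr → ℝ
  g : Tr → ℝ
  fin : Tr → Prop
  a_nonneg : ∀ T, 0 ≤ a T
  b_pos : ∀ T, fin T → 0 < b T
  af : ∀ T, a T ≠ 0 → ¬ fin T
  F1 : ∀ T, (∃ i < dg D T, a (br i T) ≠ 0) →
    fin T ∧ b T = 1 / ∑ i ∈ Finset.range (dg D T), a (br i T) ∧ g T = 0
  F2 : ∀ T, (∀ i < dg D T, fin (br i T)) → l + ∑ i ∈ Finset.range (dg D T), g (br i T) = 0 →
    a T = 1 / (1 + ∑ i ∈ Finset.range (dg D T), b (br i T))
  F3 : ∀ T, (∀ i < dg D T, fin (br i T)) → l + ∑ i ∈ Finset.range (dg D T), g (br i T) ≠ 0 →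
    fin T ∧ b T = (1 + ∑ i ∈ Finset.range (dg D T), b (br i T)) /
      (l + ∑ i ∈ Finset.range (dg D T), g (br i T)) ^ 2 ∧
      g T = -1 / (l + ∑ i ∈ Finset.range (dg D T), g (br i T))
  F4 : ∀ T, (∀ i < dg D T, a (br i T) = 0) → (∃ i < dg D T, ¬ fin (br i T)) →
    ¬ fin T ∧ a T = 0
  ma : Measurable a
  mb : Measurable b
  mg : Measurable g
  mfin : MeasurableSet {T | fin T}

theorem sk_ne (i j : ℕ) : sk i j ≠ i := by
  unfold sk; split_ifs <;> omega

theorem sk_lt {i j n : ℕ} (hi : i < n) (hj : j < n - 1) : sk i j < n := by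
  unfold sk; split_ifs <;> omega

theorem sk_surj {i j n : ℕ} (hi : i < n) (hj : j < n) (hij : j ≠ i) :
    ∃ k < n - 1, sk i k = j := by
  by_cases h : j < i
  · refine ⟨j, by omega, ?_⟩
    unfold sk; rw [if_pos h]
  · refine ⟨j - 1, by omega, ?_⟩
    unfold sk
    rw [if_neg (by omega)]
    omega

theorem sk_inj (i : ℕ) : Function.Injective (sk i) := by
  intro a b h
  unfold sk at h
  split_ifs at h <;> omega

theorem sum_sk {M : Type} [AddCommMonoid M] {i n : ℕ} (hi : i < n) (f : ℕ → M) :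
    ∑ j ∈ Finset.range (n - 1), f (sk i j) = ∑ j ∈ (Finset.range n).erase i, f j := by
  have : (Finset.range n).erase i = (Finset.range (n - 1)).image (sk i) := by
    ext j
    rw [Finset.mem_erase, Finset.mem_range, Finset.mem_image]
    constructor
    · rintro ⟨h1, h2⟩
      obtain ⟨k, hk, hk2⟩ := sk_surj hi h2 h1
      exact ⟨k, Finset.mem_range.mpr hk, hk2⟩
    · rintro ⟨k, hk, rfl⟩
      exact ⟨sk_ne i k, sk_lt hi (Finset.mem_range.mp hk)⟩
  rw [this, Finset.sum_image (fun a _ b _ h => sk_inj i h)]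

theorem sum_split {M : Type} [AddCommMonoid M] {i n : ℕ} (hi : i < n) (f : ℕ → M) :
    ∑ j ∈ Finset.range n, f j = f i + ∑ j ∈ Finset.range (n - 1), f (sk i j) := by
  rw [sum_sk hi, Finset.add_sum_erase _ _ (Finset.mem_range.mpr hi)]

/-- tree above branch `i` -/
def up (n i : ℕ) (τ : ℕ → Tr) : Tr := glue (n - 1) (fun j => τ (sk i j))

section

variable {D : ℕ} {l : ℝ} (S : Sys D l)

namespace Sys

def Dv (n : ℕ) (τ : ℕ → Tr) : Prop :=
  (∀ i < n, S.fin (τ i)) ∧ l + ∑ i ∈ Finset.range n, S.g (τ i) = 0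

def DD (s' s : Tr) : Prop := S.fin s' ∧ S.fin s ∧ S.g s' * S.g s = 1

def AZ (s' s : Tr) : Prop := S.a s' ≠ 0 ∧ S.fin s ∧ S.g s = 0

theorem DD_symm {s' s : Tr} (h : S.DD s' s) : S.DD s s' := ⟨h.2.1, h.1, by rw [mul_comm]; exact h.2.2⟩

variable {n i : ℕ} (hn : n ≤ D) (hi : i < n) (τ : ℕ → Tr)

include hn hi

theorem up_dg : dg D (up n i τ) = n - 1 := dg_glue (by omega) _

omit hn hi in
theorem up_br_aux (j : ℕ) : br j (up n i τ) = τ (sk i j) := rfl

theorem up_br (j : ℕ) : br j (up n i τ) = τ (sk i j) := rfl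

theorem up_A (h : ∃ j < n, j ≠ i ∧ S.a (τ j) ≠ 0) :
    S.fin (up n i τ) ∧ S.b (up n i τ) = 1 / ∑ j ∈ (Finset.range n).erase i, S.a (τ j) ∧
      S.g (up n i τ) = 0 := by
  obtain ⟨j, hj, hji, hja⟩ := h
  obtain ⟨k, hk, hk2⟩ := sk_surj hi hj hji
  have := S.F1 (up n i τ) (by
    rw [up_dg hn hi]
    exact ⟨k, hk, by rw [up_br hn hi, hk2]; exact hja⟩)
  rw [up_dg hn hi] at this
  simp only [up_br hn hi] at this
  rw [sum_sk hi (fun j => S.a (τ j))] at this
  exact this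

theorem up_0 (hf : ∀ j < n, j ≠ i → S.fin (τ j))
    (h0 : l + ∑ j ∈ (Finset.range n).erase i, S.g (τ j) = 0) :
    S.a (up n i τ) = 1 / (1 + ∑ j ∈ (Finset.range n).erase i, S.b (τ j)) := by
  have := S.F2 (up n i τ) (by
    rw [up_dg hn hi]
    intro j hj
    rw [up_br hn hi]
    exact hf _ (sk_lt hi hj) (sk_ne i j)) (by
    rw [up_dg hn hi]
    simp only [up_br hn hi]
    rw [sum_sk hi (fun j => S.g (τ j))]
    exact h0)
  rw [up_dg hn hi] at this
  simp only [up_br hn hi] at this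
  rw [sum_sk hi (fun j => S.b (τ j))] at this
  exact this

theorem up_1 (hf : ∀ j < n, j ≠ i → S.fin (τ j))
    (h0 : l + ∑ j ∈ (Finset.range n).erase i, S.g (τ j) ≠ 0) :
    S.fin (up n i τ) ∧ S.b (up n i τ) = (1 + ∑ j ∈ (Finset.range n).erase i, S.b (τ j)) /
      (l + ∑ j ∈ (Finset.range n).erase i, S.g (τ j)) ^ 2 ∧
      S.g (up n i τ) = -1 / (l + ∑ j ∈ (Finset.range n).erase i, S.g (τ j)) := by
  have := S.F3 (up n i τ) (by
    rw [up_dg hn hi]
    intro j hj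
    rw [up_br hn hi]
    exact hf _ (sk_lt hi hj) (sk_ne i j)) (by
    rw [up_dg hn hi]
    simp only [up_br hn hi]
    rw [sum_sk hi (fun j => S.g (τ j))]
    exact h0)
  rw [up_dg hn hi] at this
  simp only [up_br hn hi] at this
  rw [sum_sk hi (fun j => S.b (τ j)), sum_sk hi (fun j => S.g (τ j))] at this
  exact this

theorem up_S (hA : ∀ j < n, j ≠ i → S.a (τ j) = 0) (hf : ∃ j < n, j ≠ i ∧ ¬ S.fin (τ j)) :
    ¬ S.fin (up n i τ) ∧ S.a (up n i τ) = 0 := by
  obtain ⟨j, hj, hji, hja⟩ := hf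
  obtain ⟨k, hk, hk2⟩ := sk_surj hi hj hji
  exact S.F4 (up n i τ) (by
    rw [up_dg hn hi]
    intro j hj
    rw [up_br hn hi]
    exact hA _ (sk_lt hi hj) (sk_ne i j)) (by
    rw [up_dg hn hi]
    exact ⟨k, hk, by rw [up_br hn hi, hk2]; exact hja⟩)

omit hn hi in
theorem fin_a0 {T : Tr} (h : S.fin T) : S.a T = 0 := by
  by_contra h1
  exact S.af T h1 h

theorem b_sum_nonneg (hf : ∀ j < n, j ≠ i → S.fin (τ j)) :
    0 ≤ ∑ j ∈ (Finset.range n).erase i, S.b (τ j) :=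
  Finset.sum_nonneg fun j hj => by
    rw [Finset.mem_erase, Finset.mem_range] at hj
    exact (S.b_pos _ (hf j hj.2 hj.1)).le

theorem g_split : ∑ j ∈ Finset.range n, S.g (τ j) =
    S.g (τ i) + ∑ j ∈ (Finset.range n).erase i, S.g (τ j) :=
  (Finset.add_sum_erase _ _ (Finset.mem_range.mpr hi)).symm

theorem DD_iff : S.DD (up n i τ) (τ i) ↔ S.Dv n τ ∧ S.g (τ i) ≠ 0 := by
  by_cases hA : ∃ j < n, j ≠ i ∧ S.a (τ j) ≠ 0
  · obtain ⟨h1, h2, h3⟩ := S.up_A hn hi τ hA
    constructor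
    · rintro ⟨_, _, h⟩
      rw [h3, zero_mul] at h
      exact absurd h zero_ne_one
    · rintro ⟨⟨h, _⟩, _⟩
      obtain ⟨j, hj, hji, hja⟩ := hA
      exact absurd (h j hj) (S.af _ hja)
  · have hA' : ∀ j < n, j ≠ i → S.a (τ j) = 0 := by
      intro j hj hji
      by_contra h
      exact hA ⟨j, hj, hji, h⟩
    by_cases hf : ∃ j < n, j ≠ i ∧ ¬ S.fin (τ j)
    · obtain ⟨h1, h2⟩ := S.up_S hn hi τ hA' hf
      constructor
      · rintro ⟨h, _, _⟩; exact absurd h h1
      · rintro ⟨⟨h, _⟩, _⟩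
        obtain ⟨j, hj, hji, hja⟩ := hf
        exact absurd (h j hj) hja
    · have hf' : ∀ j < n, j ≠ i → S.fin (τ j) := by
        intro j hj hji
        by_contra h
        exact hf ⟨j, hj, hji, h⟩
      by_cases h0 : l + ∑ j ∈ (Finset.range n).erase i, S.g (τ j) = 0
      · have h1 := S.up_0 hn hi τ hf' h0
        have hb := S.b_sum_nonneg hn hi τ hf'
        have h2 : S.a (up n i τ) ≠ 0 := by rw [h1]; positivity
        constructor
        · rintro ⟨h, _, _⟩; exact absurd h (S.af _ h2)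
        · rintro ⟨⟨h, h3⟩, h4⟩
          rw [S.g_split hn hi τ] at h3
          exact absurd (by linarith : S.g (τ i) = 0) h4
      · obtain ⟨h1, h2, h3⟩ := S.up_1 hn hi τ hf' h0
        constructor
        · rintro ⟨_, h5, h6⟩
          rw [h3] at h6
          have h7 : S.g (τ i) = -(l + ∑ j ∈ (Finset.range n).erase i, S.g (τ j)) := by
            field_simp at h6
            linarith
          refine ⟨⟨fun j hj => ?_, ?_⟩, ?_⟩
          · by_cases hji : j = i
            · rw [hji]; exact h5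
            · exact hf' j hj hji
          · rw [S.g_split hn hi τ, h7]; ring
          · rw [h7]; exact neg_ne_zero.mpr h0
        · rintro ⟨⟨h, h5⟩, h4⟩
          refine ⟨h1, h i hi, ?_⟩
          rw [S.g_split hn hi τ] at h5
          have h7 : l + ∑ j ∈ (Finset.range n).erase i, S.g (τ j) = - S.g (τ i) := by linarith
          rw [h3, h7]
          field_simp

theorem AZ_iff : S.AZ (up n i τ) (τ i) ↔ S.Dv n τ ∧ S.g (τ i) = 0 := by
  by_cases hA : ∃ j < n, j ≠ i ∧ S.a (τ j) ≠ 0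
  · obtain ⟨h1, h2, h3⟩ := S.up_A hn hi τ hA
    constructor
    · rintro ⟨h, _, _⟩
      exact absurd h1 (S.af _ h)
    · rintro ⟨⟨h, _⟩, _⟩
      obtain ⟨j, hj, hji, hja⟩ := hA
      exact absurd (h j hj) (S.af _ hja)
  · have hA' : ∀ j < n, j ≠ i → S.a (τ j) = 0 := by
      intro j hj hji
      by_contra h
      exact hA ⟨j, hj, hji, h⟩
    by_cases hf : ∃ j < n, j ≠ i ∧ ¬ S.fin (τ j)
    · obtain ⟨h1, h2⟩ := S.up_S hn hi τ hA' hf
      constructor
      · rintro ⟨h, _, _⟩; exact absurd h2 h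
      · rintro ⟨⟨h, _⟩, _⟩
        obtain ⟨j, hj, hji, hja⟩ := hf
        exact absurd (h j hj) hja
    · have hf' : ∀ j < n, j ≠ i → S.fin (τ j) := by
        intro j hj hji
        by_contra h
        exact hf ⟨j, hj, hji, h⟩
      by_cases h0 : l + ∑ j ∈ (Finset.range n).erase i, S.g (τ j) = 0
      · have h1 := S.up_0 hn hi τ hf' h0
        have hb := S.b_sum_nonneg hn hi τ hf'
        have h2 : S.a (up n i τ) ≠ 0 := by rw [h1]; positivity
        constructor
        · rintro ⟨_, h5, h6⟩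
          refine ⟨⟨fun j hj => ?_, ?_⟩, h6⟩
          · by_cases hji : j = i
            · rw [hji]; exact h5
            · exact hf' j hj hji
          · rw [S.g_split hn hi τ, h6]; linarith
        · rintro ⟨⟨h, h3⟩, h4⟩
          exact ⟨h2, h i hi, h4⟩
      · obtain ⟨h1, h2, h3⟩ := S.up_1 hn hi τ hf' h0
        constructor
        · rintro ⟨h, _, _⟩
          exact absurd h1 (S.af _ h)
        · rintro ⟨⟨h, h5⟩, h4⟩
          rw [S.g_split hn hi τ, h4, zero_add] at h5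
          exact absurd h5 h0

theorem ZA_iff : S.AZ (τ i) (up n i τ) ↔ S.a (τ i) ≠ 0 ∧ ∃ j < n, j ≠ i ∧ S.a (τ j) ≠ 0 := by
  by_cases hA : ∃ j < n, j ≠ i ∧ S.a (τ j) ≠ 0
  · obtain ⟨h1, h2, h3⟩ := S.up_A hn hi τ hA
    exact ⟨fun h => ⟨h.1, hA⟩, fun h => ⟨h.1, h1, h3⟩⟩
  · have hA' : ∀ j < n, j ≠ i → S.a (τ j) = 0 := by
      intro j hj hji
      by_contra h
      exact hA ⟨j, hj, hji, h⟩
    refine ⟨fun h => ?_, fun h => absurd h.2 hA⟩
    exfalso
    by_cases hf : ∃ j < n, j ≠ i ∧ ¬ S.fin (τ j)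
    · obtain ⟨h1, h2⟩ := S.up_S hn hi τ hA' hf
      exact h1 h.2.1
    · have hf' : ∀ j < n, j ≠ i → S.fin (τ j) := by
        intro j hj hji
        by_contra h
        exact hf ⟨j, hj, hji, h⟩
      by_cases h0 : l + ∑ j ∈ (Finset.range n).erase i, S.g (τ j) = 0
      · have h1 := S.up_0 hn hi τ hf' h0
        have hb := S.b_sum_nonneg hn hi τ hf'
        have h2 : S.a (up n i τ) ≠ 0 := by rw [h1]; positivity
        exact S.af _ h2 h.2.1
      · obtain ⟨h1, h2, h3⟩ := S.up_1 hn hi τ hf' h0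
        have := h.2.2
        rw [h3] at this
        rw [div_eq_zero_iff] at this
        rcases this with h | h
        · norm_num at h
        · exact h0 h

omit hi in
/-- the root mass at a `D` vertex, and vanishing otherwise -/
theorem root_a (hd : S.Dv n τ) : S.a (glue n τ) = 1 / (1 + ∑ i ∈ Finset.range n, S.b (τ i)) := by
  have := S.F2 (glue n τ) (by rw [dg_glue hn]; exact hd.1) (by rw [dg_glue hn]; exact hd.2)
  rw [dg_glue hn] at this
  exact this

omit hi in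
theorem root_a0 (hd : ¬ S.Dv n τ) : S.a (glue n τ) = 0 := by
  by_cases hA : ∃ j < n, S.a (τ j) ≠ 0
  · have := S.F1 (glue n τ) (by rw [dg_glue hn]; exact hA)
    by_contra h
    exact S.af _ h this.1
  · have hA' : ∀ j < n, S.a (τ j) = 0 := by
      intro j hj
      by_contra h
      exact hA ⟨j, hj, h⟩
    by_cases hf : ∃ j < n, ¬ S.fin (τ j)
    · exact (S.F4 (glue n τ) (by rw [dg_glue hn]; exact hA') (by rw [dg_glue hn]; exact hf)).2
    · have hf' : ∀ j < n, S.fin (τ j) := by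
        intro j hj
        by_contra h
        exact hf ⟨j, hj, h⟩
      have := S.F3 (glue n τ) (by rw [dg_glue hn]; exact hf') (by
        rw [dg_glue hn]
        intro h
        exact hd ⟨hf', h⟩)
      by_contra h
      exact S.af _ h this.1

/-- edge mass -/
noncomputable def _root_.Pool.Agent.H27R3.UG.Sys.rr {D : ℕ} {l : ℝ} (S : Sys D l) (s' s : Tr) : ℝ :=
  open Classical in
  if S.DD s' s then S.b s / (S.b s' * S.g s ^ 2 + S.b s) else
    if S.AZ s' s then S.b s / ((S.a s')⁻¹ + S.b s) else 0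

theorem rr_Dv (hd : S.Dv n τ) :
    S.rr (up n i τ) (τ i) = S.b (τ i) / (1 + ∑ j ∈ Finset.range n, S.b (τ j)) := by
  classical
  have hf' : ∀ j < n, j ≠ i → S.fin (τ j) := fun j hj _ => hd.1 j hj
  have hb := S.b_sum_nonneg hn hi τ hf'
  have hbs : ∑ j ∈ Finset.range n, S.b (τ j) = S.b (τ i) + ∑ j ∈ (Finset.range n).erase i, S.b (τ j) :=
    (Finset.add_sum_erase _ _ (Finset.mem_range.mpr hi)).symm
  have hgs := hd.2
  rw [S.g_split hn hi τ] at hgs
  unfold rr
  by_cases hg : S.g (τ i) = 0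
  · rw [if_neg (by
      rw [S.DD_iff hn hi]
      exact fun h => h.2 hg), if_pos ((S.AZ_iff hn hi τ).mpr ⟨hd, hg⟩)]
    have h1 := S.up_0 hn hi τ hf' (by rw [hg] at hgs; linarith)
    rw [h1, hbs]
    congr 1
    rw [one_div, inv_inv]
    ring
  · rw [if_pos ((S.DD_iff hn hi τ).mpr ⟨hd, hg⟩)]
    have hS : l + ∑ j ∈ (Finset.range n).erase i, S.g (τ j) = - S.g (τ i) := by linarith
    obtain ⟨h1, h2, h3⟩ := S.up_1 hn hi τ hf' (by rw [hS]; exact neg_ne_zero.mpr hg)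
    rw [h2, hS, hbs]
    congr 1
    rw [neg_sq, div_mul_cancel₀ _ (pow_ne_zero 2 hg)]
    ring

omit hi in
theorem mass_Dv (hd : S.Dv n τ) :
    S.a (glue n τ) + ∑ i ∈ Finset.range n, S.rr (up n i τ) (τ i) = 1 := by
  rw [S.root_a hn τ hd, Finset.sum_congr rfl (fun i hi =>
    S.rr_Dv hn (Finset.mem_range.mp hi) τ hd), ← Finset.sum_div, ← add_div]
  have : 0 ≤ ∑ i ∈ Finset.range n, S.b (τ i) := Finset.sum_nonneg fun i hi =>
    (S.b_pos _ (hd.1 i (Finset.mem_range.mp hi))).le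
  exact div_self (by positivity)

omit hn hi in
theorem rr_swap {s' s : Tr} (h : S.DD s' s) : S.rr s' s + S.rr s s' = 1 := by
  unfold rr
  rw [if_pos h, if_pos (S.DD_symm h)]
  obtain ⟨h1, h2, h3⟩ := h
  have hb1 := S.b_pos _ h1
  have hb2 := S.b_pos _ h2
  have hg : S.g s ≠ 0 := by
    intro h
    rw [h, mul_zero] at h3
    exact zero_ne_one h3
  have hg' : S.g s' = (S.g s)⁻¹ := by field_simp; exact h3
  rw [hg']
  have : 0 < S.g s ^ 2 := by positivity
  field_simp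
  ring

omit hn hi in
theorem rr_nonneg (s' s : Tr) : 0 ≤ S.rr s' s := by
  unfold rr
  split_ifs with h1 h2
  · have hb1 := S.b_pos _ h1.1
    have hb2 := S.b_pos _ h1.2.1
    positivity
  · have hb2 := S.b_pos _ h2.2.1
    have := S.a_nonneg s'
    positivity
  · exact le_rfl

omit hn hi in
theorem AZ_not_DD {s' s : Tr} (h : S.AZ s' s) : ¬ S.DD s' s := fun h2 => S.af _ h.1 h2.1

theorem rr_B (ha : S.a (τ i) ≠ 0) (hA : ∃ j < n, j ≠ i ∧ S.a (τ j) ≠ 0) :
    S.rr (τ i) (up n i τ) = S.a (τ i) / ∑ j ∈ Finset.range n, S.a (τ j) := by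
  have h := (S.ZA_iff hn hi τ).mpr ⟨ha, hA⟩
  unfold rr
  rw [if_neg (S.AZ_not_DD h), if_pos h]
  obtain ⟨h1, h2, h3⟩ := S.up_A hn hi τ hA
  have hs : 0 < ∑ j ∈ (Finset.range n).erase i, S.a (τ j) := by
    obtain ⟨j, hj, hji, hja⟩ := hA
    refine Finset.sum_pos' (fun _ _ => S.a_nonneg _) ⟨j, ?_, lt_of_le_of_ne (S.a_nonneg _) (Ne.symm hja)⟩
    rw [Finset.mem_erase, Finset.mem_range]
    exact ⟨hji, hj⟩
  have ha' : 0 < S.a (τ i) := lt_of_le_of_ne (S.a_nonneg _) (Ne.symm ha)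
  rw [h2, ← Finset.add_sum_erase _ (fun j => S.a (τ j)) (Finset.mem_range.mpr hi)]
  field_simp
  ring

end Sys

end

end Pool.Agent.H27R3.UG
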