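import Mathlib
import Pool.Agent.H27R3.UG.Comb

set_option autoImplicit false
open MeasureTheory Filter Topology ProbabilityTheory Measure
open scoped ENNReal

namespace Pool.Agent.H27R3.UG

theorem measurable_br (i : ℕ) : Measurable (br i) := by
  rw [measurable_pi_iff]
  intro v
  exact measurable_pi_apply _

theorem measurable_dg (D : ℕ) : Measurable (dg D) :=
  (measurable_pi_apply ([] : List ℕ)).min measurable_const

theorem meas_dep {X Y : Type} [MeasurableSpace X] [MeasurableSpace Y] (f : X → ℕ) (hf : Measurable f)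
    (g : ℕ → X → Y) (hg : ∀ n, Measurable (g n)) : Measurable (fun x => g (f x) x) := by
  have : Measurable (fun p : ℕ × X => g p.1 p.2) := measurable_from_prod_countable_right hg
  exact this.comp (hf.prodMk measurable_id)

theorem meas_up (n i : ℕ) : Measurable (fun τ : ℕ → Tr => up n i τ) := by
  unfold up
  refine (measurable_glue' _).comp ?_
  rw [measurable_pi_iff]
  intro j
  exact measurable_pi_apply _

section
variable {D : ℕ} {l : ℝ} (S : Sys D l)

namespace Sys

def Rt (T : Tr) : Prop := S.fin T ∧ S.g T ≠ 0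

open Classical in
/-- truncated cluster sizes -/
noncomputable def kap : ℕ → Tr → ℝ≥0∞
  | 0, _ => 0
  | d + 1, T => if S.Rt T then 1 + ∑ i ∈ Finset.range (dg D T), kap d (br i T) else 0

noncomputable def ka (T : Tr) : ℝ≥0∞ := ⨆ d, S.kap d T

theorem kap_succ (d : ℕ) (T : Tr) : S.kap (d + 1) T =
    open Classical in if S.Rt T then 1 + ∑ i ∈ Finset.range (dg D T), S.kap d (br i T) else 0 := rfl

theorem kap_le_succ (d : ℕ) : ∀ T, S.kap d T ≤ S.kap (d + 1) T := by
  induction d with
  | zero => intro T; exact zero_le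
  | succ d ih =>
    intro T
    rw [kap_succ S (d + 1), kap_succ S d]
    split_ifs
    · gcongr with i _
      exact ih _
    · exact le_rfl

theorem kap_mono (T : Tr) : Monotone (fun d => S.kap d T) :=
  monotone_nat_of_le_succ fun d => S.kap_le_succ d T

theorem ka_rec (T : Tr) : S.ka T =
    open Classical in if S.Rt T then 1 + ∑ i ∈ Finset.range (dg D T), S.ka (br i T) else 0 := by
  classical
  unfold ka
  rw [← (S.kap_mono T).iSup_nat_add 1]
  simp_rw [kap_succ]
  split_ifs
  · rw [ENNReal.finsetSum_iSup_of_monotone (fun i => S.kap_mono _), ENNReal.add_iSup]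
  · simp

theorem measRt : MeasurableSet {T | S.Rt T} := by
  have : {T | S.Rt T} = {T | S.fin T} ∩ (S.g ⁻¹' {0})ᶜ := by
    ext T; rfl
  rw [this]
  exact S.mfin.inter (S.mg (measurableSet_singleton 0)).compl

theorem meas_kap (d : ℕ) : Measurable (S.kap d) := by
  classical
  induction d with
  | zero => exact measurable_const
  | succ d ih =>
    have : S.kap (d + 1) = fun T => if S.Rt T then 1 + ∑ i ∈ Finset.range (dg D T), S.kap d (br i T)
        else 0 := by
      funext T
      rw [kap_succ]
    rw [this]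
    have h1 : Measurable (fun T => ∑ i ∈ Finset.range (dg D T), S.kap d (br i T)) :=
      meas_dep (dg D) (measurable_dg D) (fun n T => ∑ i ∈ Finset.range n, S.kap d (br i T))
        (fun n => Finset.measurable_fun_sum _ fun i _ => ih.comp (measurable_br i))
    exact Measurable.ite S.measRt (h1.const_add 1) measurable_const

theorem meas_ka : Measurable S.ka := Measurable.iSup fun d => S.meas_kap d

theorem ka_ge_one {T : Tr} (h : S.Rt T) : 1 ≤ S.ka T := by
  rw [ka_rec, if_pos h]
  exact le_self_add

theorem ka_zero {T : Tr} (h : ¬ S.Rt T) : S.ka T = 0 := by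
  rw [ka_rec, if_neg h]

/-- size-balanced edge mass -/
noncomputable def kr (s' s : Tr) : ℝ≥0∞ :=
  open Classical in
  if S.ka s = ∞ then (if S.ka s' = ∞ then 2⁻¹ else 1) else S.ka s / (S.ka s + S.ka s')

theorem kr_swap {s' s : Tr} (h : S.DD s' s) : S.kr s' s + S.kr s s' = 1 := by
  obtain ⟨h1, h2, h3⟩ := h
  have hg : S.g s ≠ 0 := by
    intro h
    rw [h, mul_zero] at h3
    exact zero_ne_one h3
  have hg' : S.g s' ≠ 0 := by
    intro h
    rw [h, zero_mul] at h3
    exact zero_ne_one h3
  have k1 := S.ka_ge_one (T := s) ⟨h2, hg⟩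
  have k2 := S.ka_ge_one (T := s') ⟨h1, hg'⟩
  unfold kr
  by_cases e1 : S.ka s = ∞ <;> by_cases e2 : S.ka s' = ∞
  · simp only [e1, e2, if_true]
    exact ENNReal.inv_two_add_inv_two
  · rw [if_pos e1, if_neg e2, if_neg e2, e1]
    simp
  · rw [if_neg e1, if_pos e2, if_neg e1, e2]
    simp
  · rw [if_neg e1, if_neg e2, add_comm (S.ka s') (S.ka s), ENNReal.div_add_div_same]
    refine ENNReal.div_self ?_ (ENNReal.add_ne_top.mpr ⟨e1, e2⟩)
    intro h
    rw [add_eq_zero] at h
    rw [h.1] at k1
    simp at k1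

theorem meas_kr : Measurable (fun p : Tr × Tr => S.kr p.1 p.2) := by
  unfold kr
  have m1 : Measurable (fun p : Tr × Tr => S.ka p.1) := S.meas_ka.comp measurable_fst
  have m2 : Measurable (fun p : Tr × Tr => S.ka p.2) := S.meas_ka.comp measurable_snd
  refine Measurable.ite (m2 (measurableSet_singleton _)) ?_ ?_
  · exact Measurable.ite (m1 (measurableSet_singleton _)) measurable_const measurable_const
  · exact m2.div (m2.add m1)

variable {n : ℕ} (hn : n ≤ D) (τ : ℕ → Tr)

include hn

theorem ka_up {i : ℕ} (hi : i < n) (hd : S.Dv n τ) (hg : S.g (τ i) ≠ 0) :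
    S.ka (up n i τ) = 1 + ∑ j ∈ (Finset.range n).erase i, S.ka (τ j) := by
  have hD := (S.DD_iff hn hi τ).mpr ⟨hd, hg⟩
  have hR : S.Rt (up n i τ) := by
    refine ⟨hD.1, ?_⟩
    intro h
    have := hD.2.2
    rw [h, zero_mul] at this
    exact zero_ne_one this
  rw [ka_rec, if_pos hR, up_dg hn hi]
  simp only [up_br hn hi]
  rw [sum_sk hi (fun j => S.ka (τ j))]

/-- pointwise size inequality -/
theorem kr_sum (hd : S.Dv n τ) (N : ℕ) (hN : 0 < N)
    (hK : (N : ℝ≥0∞) ≤ 1 + ∑ i ∈ Finset.range n, S.ka (τ i)) :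
    1 ≤ (∑ i ∈ Finset.range n, open Classical in
      if S.DD (up n i τ) (τ i) then S.kr (up n i τ) (τ i) else 0) + (N : ℝ≥0∞)⁻¹ := by
  classical
  have hk0 : ∀ i, S.g (τ i) = 0 → S.ka (τ i) = 0 := fun i h => S.ka_zero fun h2 => h2.2 h
  have hsplit : ∀ i < n, ∑ j ∈ Finset.range n, S.ka (τ j) =
      S.ka (τ i) + ∑ j ∈ (Finset.range n).erase i, S.ka (τ j) := fun i hi =>
    (Finset.add_sum_erase _ _ (Finset.mem_range.mpr hi)).symm
  set K : ℝ≥0∞ := 1 + ∑ i ∈ Finset.range n, S.ka (τ i) with hKd
  by_cases hKt : K = ∞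
  · -- infinite cluster
    have : ∃ i ∈ Finset.range n, S.ka (τ i) = ∞ := by
      rw [hKd, ENNReal.add_eq_top] at hKt
      rcases hKt with h | h
      · exact absurd h ENNReal.one_ne_top
      · rwa [ENNReal.sum_eq_top] at h
    obtain ⟨i, hi, hki⟩ := this
    have hi' := Finset.mem_range.mp hi
    have hgi : S.g (τ i) ≠ 0 := by
      intro h
      rw [hk0 i h] at hki
      exact ENNReal.zero_ne_top hki
    have hDi := (S.DD_iff hn hi' τ).mpr ⟨hd, hgi⟩
    have hupi := S.ka_up hn τ hi' hd hgi
    refine le_trans ?_ le_self_add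
    by_cases hu : S.ka (up n i τ) = ∞
    · rw [hupi, ENNReal.add_eq_top] at hu
      rcases hu with h | h
      · exact absurd h ENNReal.one_ne_top
      · rw [ENNReal.sum_eq_top] at h
        obtain ⟨j, hj, hkj⟩ := h
        rw [Finset.mem_erase] at hj
        have hj' := Finset.mem_range.mp hj.2
        have hgj : S.g (τ j) ≠ 0 := by
          intro h
          rw [hk0 j h] at hkj
          exact ENNReal.zero_ne_top hkj
        have hDj := (S.DD_iff hn hj' τ).mpr ⟨hd, hgj⟩
        have hupj := S.ka_up hn τ hj' hd hgj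
        have hui : S.ka (up n i τ) = ∞ := by
          rw [hupi, ENNReal.add_eq_top]
          right
          rw [ENNReal.sum_eq_top]
          exact ⟨j, Finset.mem_erase.mpr hj, hkj⟩
        have huj : S.ka (up n j τ) = ∞ := by
          rw [hupj, ENNReal.add_eq_top]
          right
          rw [ENNReal.sum_eq_top]
          exact ⟨i, Finset.mem_erase.mpr ⟨hj.1.symm, hi⟩, hki⟩
        calc (1 : ℝ≥0∞) = 2⁻¹ + 2⁻¹ := ENNReal.inv_two_add_inv_two.symm
          _ = ∑ x ∈ ({i, j} : Finset ℕ), (if S.DD (up n x τ) (τ x) then S.kr (up n x τ) (τ x) else 0) := by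
            rw [Finset.sum_pair hj.1.symm, if_pos hDi, if_pos hDj]
            unfold kr
            rw [if_pos hki, if_pos hui, if_pos hkj, if_pos huj]
          _ ≤ _ := by
            refine Finset.sum_le_sum_of_subset ?_
            intro x hx
            rw [Finset.mem_insert, Finset.mem_singleton] at hx
            rcases hx with rfl | rfl
            · exact hi
            · exact hj.2
    · calc (1 : ℝ≥0∞) = (if S.DD (up n i τ) (τ i) then S.kr (up n i τ) (τ i) else 0) := by
            rw [if_pos hDi]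
            unfold kr
            rw [if_pos hki, if_neg hu]
        _ ≤ _ := Finset.single_le_sum (f := fun i => if S.DD (up n i τ) (τ i) then S.kr (up n i τ) (τ i) else 0)
            (fun _ _ => zero_le) hi
  · have hK0 : K ≠ 0 := by
      rw [hKd]
      intro h
      rw [add_eq_zero] at h
      exact one_ne_zero h.1
    have hterm : ∀ i ∈ Finset.range n, (if S.DD (up n i τ) (τ i) then S.kr (up n i τ) (τ i) else 0) =
        S.ka (τ i) / K := by
      intro i hi
      have hi' := Finset.mem_range.mp hi
      by_cases hg : S.g (τ i) = 0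
      · rw [if_neg (by rw [S.DD_iff hn hi']; exact fun h => h.2 hg), hk0 i hg]
        simp
      · rw [if_pos ((S.DD_iff hn hi' τ).mpr ⟨hd, hg⟩)]
        have hupi := S.ka_up hn τ hi' hd hg
        have hki : S.ka (τ i) ≠ ∞ := by
          intro h
          apply hKt
          rw [hKd, hsplit i hi', h]
          simp
        unfold kr
        rw [if_neg hki, hupi, hKd, hsplit i hi']
        congr 1
        ring
    rw [Finset.sum_congr rfl hterm]
    have h1 : ∑ i ∈ Finset.range n, S.ka (τ i) / K = (∑ i ∈ Finset.range n, S.ka (τ i)) / K := by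
      simp_rw [div_eq_mul_inv]
      rw [Finset.sum_mul]
    rw [h1]
    calc (1 : ℝ≥0∞) = K / K := (ENNReal.div_self hK0 hKt).symm
      _ = (∑ i ∈ Finset.range n, S.ka (τ i)) / K + K⁻¹ := by
        conv_lhs => rw [hKd]
        rw [← hKd, ENNReal.add_div, add_comm, one_div]
      _ ≤ _ := by
        gcongr

end Sys

end

/-- minimum over an initial segment -/
def minW (f : ℕ → ℕ) : ℕ → ℕ
  | 0 => 0
  | 1 => f 0
  | n + 2 => min (minW f (n + 1)) (f (n + 1))

theorem minW_le (f : ℕ → ℕ) {n j : ℕ} (hj : j < n) : minW f n ≤ f j := by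
  induction n with
  | zero => omega
  | succ n ih =>
    cases n with
    | zero =>
      have : j = 0 := by omega
      subst this
      exact le_rfl
    | succ n =>
      by_cases h : j < n + 1
      · exact (min_le_left _ _).trans (ih h)
      · have : j = n + 1 := by omega
        subst this
        exact min_le_right _ _

theorem minW_mem (f : ℕ → ℕ) {n : ℕ} (hn : 0 < n) : ∃ j < n, minW f n = f j := by
  induction n with
  | zero => omega
  | succ n ih =>
    cases n with
    | zero => exact ⟨0, by omega, rfl⟩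
    | succ n =>
      obtain ⟨j, hj, h⟩ := ih (by omega)
      change ∃ j < n + 2, min (minW f (n + 1)) (f (n + 1)) = f j
      rcases min_choice (minW f (n + 1)) (f (n + 1)) with h1 | h1
      · exact ⟨j, by omega, by rw [h1, h]⟩
      · exact ⟨n + 1, by omega, h1⟩

theorem meas_minW {X : Type} [MeasurableSpace X] (f : ℕ → X → ℕ) (hf : ∀ i, Measurable (f i)) (n : ℕ) :
    Measurable (fun x => minW (fun i => f i x) n) := by
  induction n with
  | zero => exact measurable_const
  | succ n ih =>
    cases n with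
    | zero => exact hf 0
    | succ n => exact ih.min (hf _)

/-- number of branching vertices on the cheapest path -/
def WW : ℕ → Tr → ℕ
  | 0, _ => 0
  | k + 1, T => (if 2 ≤ T [] then 1 else 0) + minW (fun i => WW k (br i T)) (T [])

theorem WW_succ (k : ℕ) (T : Tr) : WW (k + 1) T =
    (if 2 ≤ T [] then 1 else 0) + minW (fun i => WW k (br i T)) (T []) := rfl

theorem meas_WW (k : ℕ) : Measurable (WW k) := by
  induction k with
  | zero => exact measurable_const
  | succ k ih =>
    have e : WW (k + 1) = fun T => (if 2 ≤ T [] then 1 else 0) + minW (fun i => WW k (br i T)) (T []) := by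
      funext T; rfl
    rw [e]
    refine Measurable.add ?_ ?_
    · exact Measurable.ite (measurableSet_le measurable_const (measurable_pi_apply _)) measurable_const
        measurable_const
    · exact meas_dep (fun T : Tr => T []) (measurable_pi_apply _)
        (fun n T => minW (fun i => WW k (br i T)) n)
        (fun n => meas_minW (fun i T => WW k (br i T)) (fun i => ih.comp (measurable_br i)) n)

theorem WW_up (k n i : ℕ) (τ : ℕ → Tr) : WW (k + 1) (up n i τ) =
    (if 2 ≤ n - 1 then 1 else 0) + minW (fun j => WW k (τ (sk i j))) (n - 1) := rfl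

/-- combinatorial inequality for minima -/
theorem sum_min_le (E : Finset ℕ) (hE : 2 ≤ E.card) (m f : ℕ → ℕ)
    (h : ∀ i ∈ E, ∀ j ∈ E, j ≠ i → m i ≤ f j) : ∑ i ∈ E, m i ≤ ∑ i ∈ E, f i := by
  obtain ⟨i0, hi0, hmin⟩ := E.exists_min_image f (Finset.card_pos.mp (by omega))
  obtain ⟨i1, hi1, h10⟩ : ∃ i1 ∈ E, i1 ≠ i0 := Finset.exists_mem_ne (by omega) i0
  have hi1' : i1 ∈ E.erase i0 := Finset.mem_erase.mpr ⟨h10, hi1⟩
  rw [← Finset.add_sum_erase E m hi0, ← Finset.add_sum_erase E f hi0,
    ← Finset.add_sum_erase _ m hi1', ← Finset.add_sum_erase _ f hi1']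
  have a1 := h i0 hi0 i1 hi1 h10
  have a2 := h i1 hi1 i0 hi0 h10.symm
  have a3 : ∑ i ∈ (E.erase i0).erase i1, m i ≤ ∑ i ∈ (E.erase i0).erase i1, f i := by
    refine Finset.sum_le_sum fun i hi => ?_
    rw [Finset.mem_erase, Finset.mem_erase] at hi
    exact (h i hi.2.2 i0 hi0 (Ne.symm hi.2.1)).trans (hmin i hi.2.2)
  omega

end Pool.Agent.H27R3.UG
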