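import Mathlib
import Pool.Agent.H27R3.UG.Kap

set_option autoImplicit false
open MeasureTheory Filter Topology ProbabilityTheory Measure
open scoped ENNReal

namespace Pool.Agent.H27R3.UG

/-- the laws -/
structure Env (D : ℕ) where
  P : ℕ → ℝ≥0∞
  h : ℕ → ℝ≥0∞
  m : ℝ≥0∞
  γ : Measure Tr
  prob : IsProbabilityMeasure γ
  P0 : P 0 = 0
  P1 : P 1 = 0
  Psum : ∑ n ∈ Finset.range (D + 1), P n = 1
  m0 : m ≠ 0
  mtop : m ≠ ∞
  hPh : ∀ n < D, ((n : ℝ≥0∞) + 1) * P (n + 1) = m * h n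
  hsum : ∑ n ∈ Finset.range D, h n = 1
  rde : ∀ F : Tr → ℝ≥0∞, Measurable F → ∫⁻ T, F T ∂γ =
    ∑ k ∈ Finset.range D, h k * ∫⁻ τ, F (glue k τ) ∂(infinitePi fun _ : ℕ => γ)

namespace Env

variable {D : ℕ} (E : Env D)

instance : IsProbabilityMeasure E.γ := E.prob

noncomputable def γN : Measure (ℕ → Tr) := infinitePi fun _ : ℕ => E.γ

instance : IsProbabilityMeasure E.γN := by unfold γN; infer_instance

noncomputable def EE (f : ℕ → (ℕ → Tr) → ℝ≥0∞) : ℝ≥0∞ :=
  ∑ n ∈ Finset.range (D + 1), E.P n * ∫⁻ τ, f n τ ∂E.γN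

noncomputable def JJ (F : Tr → Tr → ℝ≥0∞) : ℝ≥0∞ := ∫⁻ s, ∫⁻ s', F s' s ∂E.γ ∂E.γ

theorem EE_add (f g : ℕ → (ℕ → Tr) → ℝ≥0∞) (hf : ∀ n, Measurable (f n)) :
    E.EE (fun n τ => f n τ + g n τ) = E.EE f + E.EE g := by
  unfold EE
  rw [← Finset.sum_add_distrib]
  refine Finset.sum_congr rfl fun n _ => ?_
  rw [lintegral_add_left (hf n), mul_add]

theorem P_small {n : ℕ} (hn : n < 2) : E.P n = 0 := by
  interval_cases n
  · exact E.P0
  · exact E.P1

theorem EE_mono {f g : ℕ → (ℕ → Tr) → ℝ≥0∞} (h : ∀ n ≤ D, 2 ≤ n → ∀ τ, f n τ ≤ g n τ) :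
    E.EE f ≤ E.EE g := by
  unfold EE
  refine Finset.sum_le_sum fun n hn => ?_
  by_cases h2 : n < 2
  · rw [E.P_small h2]; simp
  · rw [Finset.mem_range] at hn
    gcongr with τ
    exact h n (by omega) (by omega) τ

theorem EE_congr {f g : ℕ → (ℕ → Tr) → ℝ≥0∞} (h : ∀ n ≤ D, 2 ≤ n → ∀ τ, f n τ = g n τ) :
    E.EE f = E.EE g :=
  le_antisymm (E.EE_mono fun n a b τ => (h n a b τ).le) (E.EE_mono fun n a b τ => (h n a b τ).ge)

theorem EE_const_mul (c : ℝ≥0∞) (f : ℕ → (ℕ → Tr) → ℝ≥0∞) (hf : ∀ n, Measurable (f n)) :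
    E.EE (fun n τ => c * f n τ) = c * E.EE f := by
  unfold EE
  rw [Finset.mul_sum]
  refine Finset.sum_congr rfl fun n _ => ?_
  rw [lintegral_const_mul _ (hf n)]
  ring

theorem EE_one : E.EE (fun _ _ => 1) = 1 := by
  unfold EE
  simp [E.Psum]

theorem edge (F : Tr → Tr → ℝ≥0∞) (hF : Measurable (fun p : Tr × Tr => F p.1 p.2)) :
    E.EE (fun n τ => ∑ i ∈ Finset.range n, F (up n i τ) (τ i)) = E.m * E.JJ F := by
  unfold EE JJ
  rw [Finset.sum_range_succ', E.P0, zero_mul, add_zero]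
  have h1 : ∀ s, ∫⁻ s', F s' s ∂E.γ = ∑ k ∈ Finset.range D, E.h k * ∫⁻ τ, F (glue k τ) s ∂E.γN := by
    intro s
    exact E.rde (fun s' => F s' s) (hF.comp (measurable_id.prodMk measurable_const))
  simp_rw [h1]
  have hm : ∀ k, Measurable (fun s => ∫⁻ τ, F (glue k τ) s ∂E.γN) := by
    intro k
    have : Measurable (fun p : Tr × (ℕ → Tr) => F (glue k p.2) p.1) :=
      hF.comp (((measurable_glue' k).comp measurable_snd).prodMk measurable_fst)
    exact this.lintegral_prod_right'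
  rw [lintegral_finsetSum _ (fun k _ => (hm k).const_mul _), Finset.mul_sum]
  refine Finset.sum_congr rfl fun k hk => ?_
  rw [Finset.mem_range] at hk
  rw [lintegral_const_mul _ (hm k), ← mul_assoc, ← E.hPh k hk]
  have hmi : ∀ i, Measurable (fun τ : ℕ → Tr => F (up (k + 1) i τ) (τ i)) := fun i =>
    hF.comp ((meas_up _ i).prodMk (measurable_pi_apply i))
  rw [lintegral_finsetSum _ (fun i _ => hmi i)]
  have h2 : ∀ i ∈ Finset.range (k + 1), ∫⁻ τ, F (up (k + 1) i τ) (τ i) ∂E.γN =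
      ∫⁻ s, ∫⁻ τ, F (glue k τ) s ∂E.γN ∂E.γ := by
    intro i _
    exact edge_one E.γ k i F hF
  rw [Finset.sum_congr rfl h2, Finset.sum_const, Finset.card_range, nsmul_eq_mul]
  push_cast
  ring

theorem JJ_swap (F : Tr → Tr → ℝ≥0∞) (hF : Measurable (fun p : Tr × Tr => F p.1 p.2)) :
    E.JJ F = E.JJ (fun s' s => F s s') := by
  unfold JJ
  exact lintegral_lintegral_swap (hF.comp measurable_swap).aemeasurable

theorem JJ_add (F G : Tr → Tr → ℝ≥0∞) (hF : Measurable (fun p : Tr × Tr => F p.1 p.2)) :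
    E.JJ (fun s' s => F s' s + G s' s) = E.JJ F + E.JJ G := by
  unfold JJ
  have h1 : ∀ s, ∫⁻ s', (F s' s + G s' s) ∂E.γ = ∫⁻ s', F s' s ∂E.γ + ∫⁻ s', G s' s ∂E.γ := by
    intro s
    exact lintegral_add_left (hF.comp (measurable_id.prodMk measurable_const)) _
  simp_rw [h1]
  rw [lintegral_add_left]
  exact (hF.comp measurable_swap).lintegral_prod_right'

theorem JJ_mono {F G : Tr → Tr → ℝ≥0∞} (h : ∀ s' s, F s' s ≤ G s' s) : E.JJ F ≤ E.JJ G :=
  lintegral_mono fun s => lintegral_mono fun s' => h s' s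

theorem JJ_one : E.JJ (fun _ _ => 1) = 1 := by simp [JJ]

theorem JJ_const_mul (c : ℝ≥0∞) (F : Tr → Tr → ℝ≥0∞) (hF : Measurable (fun p : Tr × Tr => F p.1 p.2)) :
    E.JJ (fun s' s => c * F s' s) = c * E.JJ F := by
  unfold JJ
  have h1 : ∀ s, ∫⁻ s', (c * F s' s) ∂E.γ = c * ∫⁻ s', F s' s ∂E.γ := by
    intro s
    exact lintegral_const_mul _ (hF.comp (measurable_id.prodMk measurable_const))
  simp_rw [h1]
  rw [lintegral_const_mul]
  exact (hF.comp measurable_swap).lintegral_prod_right'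

end Env

section
variable {D : ℕ} {l : ℝ} (S : Sys D l)

namespace Sys

open Classical in
noncomputable def iD (n : ℕ) (τ : ℕ → Tr) : ℝ≥0∞ := if S.Dv n τ then 1 else 0

def Bv (n : ℕ) (τ : ℕ → Tr) : Prop := ∃ i < n, ∃ j < n, j ≠ i ∧ S.a (τ i) ≠ 0 ∧ S.a (τ j) ≠ 0

open Classical in
noncomputable def iB (n : ℕ) (τ : ℕ → Tr) : ℝ≥0∞ := if S.Bv n τ then 1 else 0

open Classical in
noncomputable def iDD (s' s : Tr) : ℝ≥0∞ := if S.DD s' s then 1 else 0

open Classical in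
noncomputable def iAZ (s' s : Tr) : ℝ≥0∞ := if S.AZ s' s then 1 else 0

noncomputable def FD (s' s : Tr) : ℝ≥0∞ := S.iDD s' s * ENNReal.ofReal (S.rr s' s)

noncomputable def FA (s' s : Tr) : ℝ≥0∞ := S.iAZ s' s * ENNReal.ofReal (S.rr s' s)

theorem msDD : MeasurableSet {p : Tr × Tr | S.DD p.1 p.2} := by
  have e : {p : Tr × Tr | S.DD p.1 p.2} = (Prod.fst ⁻¹' {T | S.fin T}) ∩ ((Prod.snd ⁻¹' {T | S.fin T}) ∩
      ((fun p : Tr × Tr => S.g p.1 * S.g p.2) ⁻¹' {1})) := by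
    ext p; rfl
  rw [e]
  exact (measurable_fst S.mfin).inter ((measurable_snd S.mfin).inter
    (((S.mg.comp measurable_fst).mul (S.mg.comp measurable_snd)) (measurableSet_singleton _)))

theorem msAZ : MeasurableSet {p : Tr × Tr | S.AZ p.1 p.2} := by
  have e : {p : Tr × Tr | S.AZ p.1 p.2} = (Prod.fst ⁻¹' (S.a ⁻¹' {0})ᶜ) ∩ ((Prod.snd ⁻¹' {T | S.fin T}) ∩
      ((fun p : Tr × Tr => S.g p.2) ⁻¹' {0})) := by
    ext p; rfl
  rw [e]
  exact (measurable_fst (S.ma (measurableSet_singleton 0)).compl).inter ((measurable_snd S.mfin).inter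
    ((S.mg.comp measurable_snd) (measurableSet_singleton _)))

theorem miDD : Measurable (fun p : Tr × Tr => S.iDD p.1 p.2) :=
  Measurable.ite S.msDD measurable_const measurable_const

theorem miAZ : Measurable (fun p : Tr × Tr => S.iAZ p.1 p.2) :=
  Measurable.ite S.msAZ measurable_const measurable_const

theorem mrr : Measurable (fun p : Tr × Tr => S.rr p.1 p.2) := by
  have a1 : Measurable (fun p : Tr × Tr => S.a p.1) := S.ma.comp measurable_fst
  have b1 : Measurable (fun p : Tr × Tr => S.b p.1) := S.mb.comp measurable_fst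
  have b2 : Measurable (fun p : Tr × Tr => S.b p.2) := S.mb.comp measurable_snd
  have g2 : Measurable (fun p : Tr × Tr => S.g p.2) := S.mg.comp measurable_snd
  refine Measurable.ite S.msDD ?_ (Measurable.ite S.msAZ ?_ measurable_const)
  · exact b2.div ((b1.mul (g2.pow_const 2)).add b2)
  · exact b2.div (a1.inv.add b2)

theorem mFD : Measurable (fun p : Tr × Tr => S.FD p.1 p.2) :=
  S.miDD.mul S.mrr.ennreal_ofReal

theorem mFA : Measurable (fun p : Tr × Tr => S.FA p.1 p.2) :=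
  S.miAZ.mul S.mrr.ennreal_ofReal

theorem miD (n : ℕ) : Measurable (S.iD n) := by
  have e : MeasurableSet {τ : ℕ → Tr | S.Dv n τ} := by
    have e2 : {τ : ℕ → Tr | S.Dv n τ} = (⋂ i ∈ Finset.range n, {τ : ℕ → Tr | S.fin (τ i)}) ∩
        ((fun τ : ℕ → Tr => l + ∑ i ∈ Finset.range n, S.g (τ i)) ⁻¹' {0}) := by
      ext τ
      simp only [Set.mem_setOf_eq, Set.mem_inter_iff, Set.mem_iInter, Finset.mem_range,
        Set.mem_preimage, Set.mem_singleton_iff]
      rfl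
    rw [e2]
    refine MeasurableSet.inter ?_ ?_
    · exact Finset.measurableSet_biInter _ fun i _ => (measurable_pi_apply i) S.mfin
    · refine Measurable.const_add ?_ l (measurableSet_singleton _)
      exact Finset.measurable_fun_sum _ fun i _ => S.mg.comp (measurable_pi_apply i)
  exact Measurable.ite e measurable_const measurable_const

theorem msB (n : ℕ) : MeasurableSet {τ : ℕ → Tr | S.Bv n τ} := by
  have e2 : {τ : ℕ → Tr | S.Bv n τ} = ⋃ i ∈ Finset.range n, ⋃ j ∈ (Finset.range n).erase i,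
      ({τ : ℕ → Tr | S.a (τ i) ≠ 0} ∩ {τ : ℕ → Tr | S.a (τ j) ≠ 0}) := by
    ext τ
    simp only [Set.mem_setOf_eq, Set.mem_iUnion, Finset.mem_range, Finset.mem_erase,
      Set.mem_inter_iff, Bv]
    constructor
    · rintro ⟨i, hi, j, hj, hji, h⟩
      exact ⟨i, hi, j, ⟨hji, hj⟩, h⟩
    · rintro ⟨i, hi, j, ⟨hji, hj⟩, h⟩
      exact ⟨i, hi, j, hj, hji, h⟩
  rw [e2]
  have h1 : ∀ i, MeasurableSet {τ : ℕ → Tr | S.a (τ i) ≠ 0} := fun i =>
    (S.ma.comp (measurable_pi_apply i)) (measurableSet_singleton 0).compl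
  exact Finset.measurableSet_biUnion _ fun i _ => Finset.measurableSet_biUnion _ fun j _ =>
    (h1 i).inter (h1 j)

theorem miB (n : ℕ) : Measurable (S.iB n) :=
  Measurable.ite (S.msB n) measurable_const measurable_const

variable {n : ℕ} (hn : n ≤ D) (τ : ℕ → Tr)

include hn

/-- pointwise mass identity -/
theorem pt_mass : S.iD n τ = ENNReal.ofReal (S.a (glue n τ)) +
    (∑ i ∈ Finset.range n, S.FD (up n i τ) (τ i) + ∑ i ∈ Finset.range n, S.FA (up n i τ) (τ i)) := by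
  classical
  rw [← Finset.sum_add_distrib]
  unfold iD FD FA iDD iAZ
  by_cases hd : S.Dv n τ
  · rw [if_pos hd]
    have h1 : ∀ i ∈ Finset.range n, (if S.DD (up n i τ) (τ i) then (1 : ℝ≥0∞) else 0) *
        ENNReal.ofReal (S.rr (up n i τ) (τ i)) + (if S.AZ (up n i τ) (τ i) then (1 : ℝ≥0∞) else 0) *
        ENNReal.ofReal (S.rr (up n i τ) (τ i)) = ENNReal.ofReal (S.rr (up n i τ) (τ i)) := by
      intro i hi
      rw [Finset.mem_range] at hi
      by_cases hg : S.g (τ i) = 0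
      · rw [if_neg (by rw [S.DD_iff hn hi]; exact fun h => h.2 hg),
          if_pos ((S.AZ_iff hn hi τ).mpr ⟨hd, hg⟩)]
        simp
      · rw [if_pos ((S.DD_iff hn hi τ).mpr ⟨hd, hg⟩),
          if_neg (by rw [S.AZ_iff hn hi]; exact fun h => hg h.2)]
        simp
    rw [Finset.sum_congr rfl h1, ← ENNReal.ofReal_sum_of_nonneg (fun i _ => S.rr_nonneg _ _),
      ← ENNReal.ofReal_add (S.a_nonneg _) (Finset.sum_nonneg fun i _ => S.rr_nonneg _ _),
      S.mass_Dv hn τ hd, ENNReal.ofReal_one]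
  · rw [if_neg hd, S.root_a0 hn τ hd, ENNReal.ofReal_zero, zero_add]
    symm
    refine Finset.sum_eq_zero fun i hi => ?_
    rw [Finset.mem_range] at hi
    rw [if_neg (by rw [S.DD_iff hn hi]; exact fun h => hd h.1),
      if_neg (by rw [S.AZ_iff hn hi]; exact fun h => hd h.1)]
    simp

/-- pointwise degree identity -/
theorem pt_deg : (n : ℝ≥0∞) * S.iD n τ =
    ∑ i ∈ Finset.range n, S.iDD (up n i τ) (τ i) + ∑ i ∈ Finset.range n, S.iAZ (up n i τ) (τ i) := by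
  classical
  rw [← Finset.sum_add_distrib]
  unfold iD iDD iAZ
  by_cases hd : S.Dv n τ
  · rw [if_pos hd]
    have h1 : ∀ i ∈ Finset.range n, (if S.DD (up n i τ) (τ i) then (1 : ℝ≥0∞) else 0) +
        (if S.AZ (up n i τ) (τ i) then (1 : ℝ≥0∞) else 0) = 1 := by
      intro i hi
      rw [Finset.mem_range] at hi
      by_cases hg : S.g (τ i) = 0
      · rw [if_neg (by rw [S.DD_iff hn hi]; exact fun h => h.2 hg),
          if_pos ((S.AZ_iff hn hi τ).mpr ⟨hd, hg⟩)]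
        simp
      · rw [if_pos ((S.DD_iff hn hi τ).mpr ⟨hd, hg⟩),
          if_neg (by rw [S.AZ_iff hn hi]; exact fun h => hg h.2)]
        simp
    rw [Finset.sum_congr rfl h1]
    simp
  · rw [if_neg hd, mul_zero]
    symm
    refine Finset.sum_eq_zero fun i hi => ?_
    rw [Finset.mem_range] at hi
    rw [if_neg (by rw [S.DD_iff hn hi]; exact fun h => hd h.1),
      if_neg (by rw [S.AZ_iff hn hi]; exact fun h => hd h.1)]
    simp

theorem ZA_iff_B {i : ℕ} (hi : i < n) :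
    S.AZ (τ i) (up n i τ) ↔ S.Bv n τ ∧ S.a (τ i) ≠ 0 := by
  rw [S.ZA_iff hn hi]
  constructor
  · rintro ⟨h1, j, hj, hji, h2⟩
    exact ⟨⟨i, hi, j, hj, hji, h1, h2⟩, h1⟩
  · rintro ⟨⟨i', hi', j', hj', hji, h1, h2⟩, h3⟩
    refine ⟨h3, ?_⟩
    by_cases h : i' = i
    · subst h
      exact ⟨j', hj', hji, h2⟩
    · exact ⟨i', hi', h, h1⟩

theorem pt_B : ∑ i ∈ Finset.range n, S.FA (τ i) (up n i τ) = S.iB n τ := by
  classical
  unfold FA iAZ iB
  by_cases hB : S.Bv n τ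
  · rw [if_pos hB]
    have h1 : ∀ i ∈ Finset.range n, (if S.AZ (τ i) (up n i τ) then (1 : ℝ≥0∞) else 0) *
        ENNReal.ofReal (S.rr (τ i) (up n i τ)) =
        ENNReal.ofReal (S.a (τ i) / ∑ j ∈ Finset.range n, S.a (τ j)) := by
      intro i hi
      rw [Finset.mem_range] at hi
      by_cases ha : S.a (τ i) = 0
      · rw [if_neg (by rw [S.ZA_iff_B hn τ hi]; exact fun h => h.2 ha), ha]
        simp
      · have hz := (S.ZA_iff_B hn τ hi).mpr ⟨hB, ha⟩
        rw [if_pos hz, one_mul, S.rr_B hn hi τ ha ((S.ZA_iff hn hi τ).mp hz).2]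
    rw [Finset.sum_congr rfl h1, ← ENNReal.ofReal_sum_of_nonneg (fun i _ =>
      div_nonneg (S.a_nonneg _) (Finset.sum_nonneg fun _ _ => S.a_nonneg _)), ← Finset.sum_div,
      div_self, ENNReal.ofReal_one]
    obtain ⟨i, hi, j, hj, hji, h1, h2⟩ := hB
    refine (Finset.sum_pos' (fun _ _ => S.a_nonneg _) ⟨i, Finset.mem_range.mpr hi, ?_⟩).ne'
    exact lt_of_le_of_ne (S.a_nonneg _) (Ne.symm h1)
  · rw [if_neg hB]
    refine Finset.sum_eq_zero fun i hi => ?_
    rw [Finset.mem_range] at hi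
    rw [if_neg (by rw [S.ZA_iff_B hn τ hi]; exact fun h => hB h.1)]
    simp

/-- number of atom neighbours at a `B` vertex -/
theorem pt_cA_ge : 2 * S.iB n τ ≤ ∑ i ∈ Finset.range n, S.iAZ (τ i) (up n i τ) := by
  classical
  unfold iB iAZ
  by_cases hB : S.Bv n τ
  · rw [if_pos hB]
    obtain ⟨i, hi, j, hj, hji, h1, h2⟩ := hB
    have hB : S.Bv n τ := ⟨i, hi, j, hj, hji, h1, h2⟩
    calc (2 : ℝ≥0∞) * 1 = ∑ x ∈ ({j, i} : Finset ℕ), (if S.AZ (τ x) (up n x τ) then (1 : ℝ≥0∞) else 0) := by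
          rw [Finset.sum_pair hji, if_pos ((S.ZA_iff_B hn τ hj).mpr ⟨hB, h2⟩),
            if_pos ((S.ZA_iff_B hn τ hi).mpr ⟨hB, h1⟩)]
          norm_num
      _ ≤ _ := by
        refine Finset.sum_le_sum_of_subset ?_
        intro x hx
        rw [Finset.mem_insert, Finset.mem_singleton] at hx
        rcases hx with rfl | rfl
        · exact Finset.mem_range.mpr hj
        · exact Finset.mem_range.mpr hi
  · rw [if_neg hB, mul_zero]
    exact zero_le

theorem pt_cA_le : ∑ i ∈ Finset.range n, S.iAZ (τ i) (up n i τ) ≤ n * S.iB n τ := by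
  classical
  unfold iB iAZ
  by_cases hB : S.Bv n τ
  · rw [if_pos hB]
    calc _ ≤ ∑ i ∈ Finset.range n, (1 : ℝ≥0∞) := by
          refine Finset.sum_le_sum fun i _ => ?_
          split_ifs <;> simp
      _ = _ := by simp
  · rw [if_neg hB, mul_zero]
    refine le_of_eq (Finset.sum_eq_zero fun i hi => ?_)
    rw [Finset.mem_range] at hi
    rw [if_neg (by rw [S.ZA_iff_B hn τ hi]; exact fun h => hB h.1)]

end Sys

end

end Pool.Agent.H27R3.UG
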