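import Mathlib
import Pool.Agent.H27R3.UG.Env

set_option autoImplicit false
open MeasureTheory Filter Topology ProbabilityTheory Measure
open scoped ENNReal

namespace Pool.Agent.H27R3.UG

section
variable {D : ℕ} {l : ℝ} (E : Env D) (S : Sys D l)

namespace Sys

theorem FD_swap (s' s : Tr) : S.FD s' s + S.FD s s' = S.iDD s' s := by
  classical
  unfold FD iDD
  by_cases h : S.DD s' s
  · rw [if_pos h, if_pos (S.DD_symm h), one_mul, one_mul,
      ← ENNReal.ofReal_add (S.rr_nonneg _ _) (S.rr_nonneg _ _), S.rr_swap h, ENNReal.ofReal_one]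
  · rw [if_neg h, if_neg (fun h2 => h (S.DD_symm h2))]
    simp

noncomputable def FK (s' s : Tr) : ℝ≥0∞ := S.iDD s' s * S.kr s' s

theorem mFK : Measurable (fun p : Tr × Tr => S.FK p.1 p.2) := S.miDD.mul S.meas_kr

theorem FK_swap (s' s : Tr) : S.FK s' s + S.FK s s' = S.iDD s' s := by
  classical
  unfold FK iDD
  by_cases h : S.DD s' s
  · rw [if_pos h, if_pos (S.DD_symm h), one_mul, one_mul, S.kr_swap h]
  · rw [if_neg h, if_neg (fun h2 => h (S.DD_symm h2))]
    simp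

theorem iDD_symm (s' s : Tr) : S.iDD s' s = S.iDD s s' := by
  unfold iDD
  by_cases h : S.DD s' s
  · rw [if_pos h, if_pos (S.DD_symm h)]
  · rw [if_neg h, if_neg (fun h2 => h (S.DD_symm h2))]

theorem iDD_le (s' s : Tr) : S.iDD s' s ≤ 1 := by unfold iDD; split_ifs <;> simp

theorem iAZ_le (s' s : Tr) : S.iAZ s' s ≤ 1 := by unfold iAZ; split_ifs <;> simp

end Sys

noncomputable def pD : ℝ≥0∞ := E.EE S.iD
noncomputable def eA : ℝ≥0∞ := E.EE (fun n τ => ENNReal.ofReal (S.a (glue n τ)))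
noncomputable def pB : ℝ≥0∞ := E.EE S.iB
noncomputable def rho : ℝ≥0∞ := E.m * E.JJ S.iDD
noncomputable def cA : ℝ≥0∞ := E.EE (fun n τ => ∑ i ∈ Finset.range n, S.iAZ (τ i) (up n i τ))
noncomputable def dD : ℝ≥0∞ := E.EE (fun n τ => ((n - 2 : ℕ) : ℝ≥0∞) * S.iD n τ)

theorem meas_edge (F : Tr → Tr → ℝ≥0∞) (hF : Measurable (fun p : Tr × Tr => F p.1 p.2)) (n : ℕ) :
    Measurable (fun τ : ℕ → Tr => ∑ i ∈ Finset.range n, F (up n i τ) (τ i)) :=
  Finset.measurable_fun_sum _ fun i _ => hF.comp ((meas_up n i).prodMk (measurable_pi_apply i))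

theorem pD_le : pD E S ≤ 1 := by
  rw [← E.EE_one]
  refine E.EE_mono fun n _ _ τ => ?_
  unfold Sys.iD
  split_ifs <;> simp

theorem pB_le : pB E S ≤ 1 := by
  rw [← E.EE_one]
  refine E.EE_mono fun n _ _ τ => ?_
  unfold Sys.iB
  split_ifs <;> simp

theorem rho_ne_top : rho E S ≠ ∞ := by
  unfold rho
  refine ENNReal.mul_ne_top E.mtop ?_
  refine ne_top_of_le_ne_top ENNReal.one_ne_top ?_
  rw [← E.JJ_one]
  exact E.JJ_mono fun s' s => S.iDD_le s' s

theorem T1 : pD E S = eA E S + (E.m * E.JJ S.FD + E.m * E.JJ S.FA) := by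
  unfold pD eA
  rw [← E.edge S.FD S.mFD, ← E.edge S.FA S.mFA, ← E.EE_add _ _ (meas_edge S.FD S.mFD),
    ← E.EE_add]
  · exact E.EE_congr fun n hn _ τ => S.pt_mass hn τ
  · exact fun n => (S.ma.comp (measurable_glue' n)).ennreal_ofReal

theorem T2 : E.m * E.JJ S.FD + E.m * E.JJ S.FD = rho E S := by
  unfold rho
  rw [← mul_add]
  congr 1
  conv_lhs => rw [E.JJ_swap S.FD S.mFD]
  have h1 : E.JJ (fun s' s => S.FD s s') + E.JJ (fun s' s => S.FD s s') =
      E.JJ S.FD + E.JJ (fun s' s => S.FD s s') := by rw [← E.JJ_swap S.FD S.mFD]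
  rw [h1, ← E.JJ_add S.FD _ S.mFD]
  congr 1
  funext s' s
  exact S.FD_swap s' s

theorem T2' : E.m * E.JJ S.FK + E.m * E.JJ S.FK = rho E S := by
  unfold rho
  rw [← mul_add]
  congr 1
  conv_lhs => rw [E.JJ_swap S.FK S.mFK]
  have h1 : E.JJ (fun s' s => S.FK s s') + E.JJ (fun s' s => S.FK s s') =
      E.JJ S.FK + E.JJ (fun s' s => S.FK s s') := by rw [← E.JJ_swap S.FK S.mFK]
  rw [h1, ← E.JJ_add S.FK _ S.mFK]
  congr 1
  funext s' s
  exact S.FK_swap s' s

theorem T3 : E.m * E.JJ S.FA = pB E S := by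
  rw [E.JJ_swap S.FA S.mFA, ← E.edge (fun s' s => S.FA s s') (S.mFA.comp measurable_swap)]
  exact E.EE_congr fun n hn _ τ => S.pt_B hn τ

theorem T5 : E.m * E.JJ S.iAZ = cA E S := by
  rw [E.JJ_swap S.iAZ S.miAZ, ← E.edge (fun s' s => S.iAZ s s') (S.miAZ.comp measurable_swap)]
  rfl

theorem T4 : E.EE (fun n τ => (n : ℝ≥0∞) * S.iD n τ) = rho E S + cA E S := by
  rw [← T5]
  unfold rho
  rw [← E.edge S.iDD S.miDD, ← E.edge S.iAZ S.miAZ, ← E.EE_add _ _ (meas_edge S.iDD S.miDD)]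
  exact E.EE_congr fun n hn _ τ => S.pt_deg hn τ

theorem T4' : E.EE (fun n τ => (n : ℝ≥0∞) * S.iD n τ) = dD E S + 2 * pD E S := by
  unfold dD pD
  rw [← E.EE_const_mul 2 _ S.miD, ← E.EE_add _ _ (fun n => (S.miD n).const_mul _)]
  refine E.EE_congr fun n _ h2 τ => ?_
  rw [← add_mul]
  congr 1
  have : n = (n - 2) + 2 := by omega
  conv_lhs => rw [this]
  push_cast
  rfl

/-- main linear identity -/
theorem T6 : dD E S + 2 * eA E S + 2 * pB E S = cA E S := by
  have h1 := T4 E S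
  rw [T4'] at h1
  have h2 := T1 E S
  rw [T3] at h2
  have h3 : 2 * pD E S = 2 * eA E S + 2 * pB E S + rho E S := by
    rw [h2, ← T2]
    ring
  rw [h3] at h1
  have h4 : rho E S + (dD E S + 2 * eA E S + 2 * pB E S) = rho E S + cA E S := by
    rw [← h1]; ring
  exact (ENNReal.add_right_inj (rho_ne_top E S)).mp h4

theorem cA_le : cA E S ≤ D * pB E S := by
  unfold cA pB
  rw [← E.EE_const_mul _ _ S.miB]
  refine E.EE_mono fun n hn _ τ => (S.pt_cA_le hn τ).trans ?_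
  gcongr

theorem dD_le : dD E S ≤ D * pB E S := by
  refine le_trans ?_ (cA_le E S)
  rw [← T6]
  rw [add_assoc]
  exact le_self_add

/-- the case where all degrees are 2 -/
theorem eA_zero_of_two (h : ∀ n ≤ D, n ≠ 2 → E.P n = 0) : eA E S = 0 := by
  have h1 : cA E S ≤ 2 * pB E S := by
    unfold cA pB
    rw [← E.EE_const_mul _ _ S.miB]
    unfold Env.EE
    refine Finset.sum_le_sum fun n hn => ?_
    by_cases h2 : n = 2
    · subst h2
      rw [Finset.mem_range] at hn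
      gcongr with τ
      have := S.pt_cA_le (n := 2) (by omega) τ
      simpa using this
    · rw [Finset.mem_range] at hn
      rw [h n (by omega) h2]; simp
  rw [← T6] at h1
  have hB : 2 * pB E S ≠ ∞ := ENNReal.mul_ne_top (by simp)
    (ne_top_of_le_ne_top ENNReal.one_ne_top (pB_le E S))
  have h2 : dD E S + 2 * eA E S + 2 * pB E S ≤ 0 + 2 * pB E S := by rw [zero_add]; exact h1
  have h3 := (ENNReal.add_le_add_iff_right hB).mp h2
  have h4 : 2 * eA E S ≤ 0 := le_trans le_add_self h3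
  simpa using h4

/-- size inequality -/
theorem T7 (N : ℕ) (hN : 0 < N) (hK : ∀ n ≤ D, ∀ τ, S.Dv n τ →
    (N : ℝ≥0∞) ≤ 1 + ∑ i ∈ Finset.range n, S.ka (τ i)) :
    pB E S ≤ (N : ℝ≥0∞)⁻¹ * pD E S := by
  classical
  have h1 : pD E S ≤ E.m * E.JJ S.FK + (N : ℝ≥0∞)⁻¹ * pD E S := by
    unfold pD
    rw [← E.edge S.FK S.mFK, ← E.EE_const_mul _ _ S.miD, ← E.EE_add _ _ (meas_edge S.FK S.mFK)]
    refine E.EE_mono fun n hn _ τ => ?_
    by_cases hd : S.Dv n τ
    · have := S.kr_sum hn τ hd N hN (hK n hn τ hd)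
      unfold Sys.FK Sys.iDD
      simp only [Sys.iD, if_pos hd, mul_one]
      refine this.trans (add_le_add (le_of_eq (Finset.sum_congr rfl fun i _ => ?_)) le_rfl)
      split_ifs <;> simp
    · simp only [Sys.iD, if_neg hd]
      exact zero_le
  have h2 := T1 E S
  rw [T3] at h2
  have h3 := T2 E S
  have h4 := T2' E S
  have hx : E.m * E.JJ S.FD = E.m * E.JJ S.FK := by
    have : 2 * (E.m * E.JJ S.FD) = 2 * (E.m * E.JJ S.FK) := by
      rw [two_mul, two_mul, h3, h4]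
    exact (ENNReal.mul_right_inj (by simp) (by simp)).mp this
  have hxt : E.m * E.JJ S.FK ≠ ∞ := by
    intro h
    rw [h] at h4
    exact rho_ne_top E S (by rw [← h4]; simp)
  rw [h2, hx] at h1
  conv_rhs at h1 => rw [← hx, ← h2, hx]
  have h5 : E.m * E.JJ S.FK + (eA E S + pB E S) ≤ E.m * E.JJ S.FK + (N : ℝ≥0∞)⁻¹ * pD E S := by
    refine le_trans (le_of_eq ?_) h1
    ring
  have h6 := (ENNReal.add_le_add_iff_left hxt).mp h5
  exact le_trans le_add_self h6

end

end Pool.Agent.H27R3.UG
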