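import Mathlib
import Pool.Agent.H27R3.UG.Final

set_option autoImplicit false
open MeasureTheory Filter Topology ProbabilityTheory Measure
open scoped ENNReal

namespace Pool.Agent.H27R3.UG

section
variable {D : ℕ} {l : ℝ} (E : Env D) (S : Sys D l)

namespace Sys

/-- all the relevant edges -/
noncomputable def iE (s' s : Tr) : ℝ≥0∞ := S.iDD s' s + (S.iAZ s' s + S.iAZ s s')

theorem miE : Measurable (fun p : Tr × Tr => S.iE p.1 p.2) :=
  S.miDD.add (S.miAZ.add (S.miAZ.comp measurable_swap))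

theorem iE_symm (s' s : Tr) : S.iE s' s = S.iE s s' := by
  unfold iE
  rw [S.iDD_symm s' s, add_comm (S.iAZ s' s)]

theorem iE_le (s' s : Tr) : S.iE s' s ≤ 3 := by
  unfold iE
  calc _ ≤ (1 : ℝ≥0∞) + (1 + 1) := add_le_add (S.iDD_le _ _) (add_le_add (S.iAZ_le _ _) (S.iAZ_le _ _))
    _ = 3 := by norm_num

open Classical in
/-- indices of relevant edges -/
noncomputable def Es (n : ℕ) (τ : ℕ → Tr) : Finset ℕ :=
  (Finset.range n).filter (fun i => S.Dv n τ ∨ (S.Bv n τ ∧ S.a (τ i) ≠ 0))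

variable {n : ℕ} (hn : n ≤ D) (τ : ℕ → Tr)

theorem Dv_not_Bv (hd : S.Dv n τ) : ¬ S.Bv n τ := by
  rintro ⟨i, hi, _, _, _, h1, _⟩
  exact S.af _ h1 (hd.1 i hi)

include hn

theorem iE_val {i : ℕ} (hi : i < n) : S.iE (up n i τ) (τ i) =
    open Classical in if S.Dv n τ ∨ (S.Bv n τ ∧ S.a (τ i) ≠ 0) then 1 else 0 := by
  classical
  unfold iE iDD iAZ
  by_cases hd : S.Dv n τ
  · rw [if_pos (Or.inl hd : S.Dv n τ ∨ (S.Bv n τ ∧ S.a (τ i) ≠ 0))]
    have h3 : ¬ S.AZ (τ i) (up n i τ) := by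
      rw [S.ZA_iff_B hn τ hi]
      exact fun h => S.Dv_not_Bv τ hd h.1
    by_cases hg : S.g (τ i) = 0
    · rw [if_neg (by rw [S.DD_iff hn hi]; exact fun h => h.2 hg),
        if_pos ((S.AZ_iff hn hi τ).mpr ⟨hd, hg⟩), if_neg h3]
      simp
    · rw [if_pos ((S.DD_iff hn hi τ).mpr ⟨hd, hg⟩),
        if_neg (by rw [S.AZ_iff hn hi]; exact fun h => hg h.2), if_neg h3]
      simp
  · rw [if_neg (by rw [S.DD_iff hn hi]; exact fun h => hd h.1),
      if_neg (by rw [S.AZ_iff hn hi]; exact fun h => hd h.1)]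
    simp only [S.ZA_iff_B hn τ hi, hd, false_or, zero_add]

theorem sum_iE (c : ℕ → ℝ≥0∞) : ∑ i ∈ Finset.range n, S.iE (up n i τ) (τ i) * c i =
    ∑ i ∈ S.Es n τ, c i := by
  classical
  unfold Es
  rw [Finset.sum_filter]
  refine Finset.sum_congr rfl fun i hi => ?_
  rw [S.iE_val hn τ (Finset.mem_range.mp hi)]
  split_ifs <;> simp

omit hn in
theorem Es_card (h2 : 2 ≤ n) : (S.Es n τ) = ∅ ∨ 2 ≤ (S.Es n τ).card := by
  classical
  by_cases hd : S.Dv n τ
  · right
    have : S.Es n τ = Finset.range n := by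
      unfold Es
      exact Finset.filter_true_of_mem fun i _ => Or.inl hd
    rw [this, Finset.card_range]
    exact h2
  · by_cases hB : S.Bv n τ
    · right
      obtain ⟨i, hi, j, hj, hji, h1, h2⟩ := hB
      have hB : S.Bv n τ := ⟨i, hi, j, hj, hji, h1, h2⟩
      have : ({j, i} : Finset ℕ) ⊆ S.Es n τ := by
        intro x hx
        rw [Finset.mem_insert, Finset.mem_singleton] at hx
        unfold Es
        rw [Finset.mem_filter, Finset.mem_range]
        rcases hx with rfl | rfl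
        · exact ⟨hj, Or.inr ⟨hB, h2⟩⟩
        · exact ⟨hi, Or.inr ⟨hB, h1⟩⟩
      have := Finset.card_le_card this
      rwa [Finset.card_pair hji] at this
    · left
      unfold Es
      refine Finset.filter_false_of_mem fun i _ => ?_
      rintro (h | h)
      · exact hd h
      · exact hB h.1

omit hn in
theorem Es_lt {i : ℕ} (hi : i ∈ S.Es n τ) : i < n := by
  classical
  unfold Es at hi
  rw [Finset.mem_filter, Finset.mem_range] at hi
  exact hi.1

omit hn in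
/-- transport inequality, natural number version -/
theorem pt_W_nat (h2 : 2 ≤ n) (k : ℕ) : ∑ i ∈ S.Es n τ, WW (k + 1) (up n i τ) ≤
    ∑ i ∈ S.Es n τ, ((if 3 ≤ n then 1 else 0) + WW k (τ i)) := by
  rcases S.Es_card τ h2 with h | h
  · rw [h]; simp
  · rw [Finset.sum_add_distrib]
    have e : ∀ i ∈ S.Es n τ, WW (k + 1) (up n i τ) =
        (if 3 ≤ n then 1 else 0) + minW (fun j => WW k (τ (sk i j))) (n - 1) := by
      intro i _
      rw [WW_up]
      congr 1
      by_cases h3 : 3 ≤ n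
      · rw [if_pos h3, if_pos (by omega)]
      · rw [if_neg h3, if_neg (by omega)]
    rw [Finset.sum_congr rfl e, Finset.sum_add_distrib]
    refine Nat.add_le_add_left ?_ _
    refine sum_min_le _ h (fun i => minW (fun j => WW k (τ (sk i j))) (n - 1)) (fun i => WW k (τ i)) ?_
    intro i hi j hj hji
    obtain ⟨k', hk', hk2⟩ := sk_surj (S.Es_lt τ hi) (S.Es_lt τ hj) hji
    have := minW_le (fun j => WW k (τ (sk i j))) hk'
    simp only [hk2] at this
    exact this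

theorem pt_W (h2 : 2 ≤ n) (k : ℕ) :
    ∑ i ∈ Finset.range n, S.iE (up n i τ) (τ i) * (WW (k + 1) (up n i τ) : ℝ≥0∞) ≤
    ∑ i ∈ Finset.range n, S.iE (up n i τ) (τ i) * (if 3 ≤ n then 1 else 0) +
    ∑ i ∈ Finset.range n, S.iE (up n i τ) (τ i) * (WW k (τ i) : ℝ≥0∞) := by
  rw [S.sum_iE hn τ, S.sum_iE hn τ, S.sum_iE hn τ, ← Finset.sum_add_distrib]
  have := S.pt_W_nat τ h2 k
  calc ∑ i ∈ S.Es n τ, (WW (k + 1) (up n i τ) : ℝ≥0∞) =
        ((∑ i ∈ S.Es n τ, WW (k + 1) (up n i τ) : ℕ) : ℝ≥0∞) := by push_cast; rfl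
    _ ≤ ((∑ i ∈ S.Es n τ, ((if 3 ≤ n then 1 else 0) + WW k (τ i)) : ℕ) : ℝ≥0∞) := by
      exact_mod_cast this
    _ = _ := by push_cast; rfl

theorem pt_mc : ∑ i ∈ Finset.range n, S.iE (up n i τ) (τ i) * (if 3 ≤ n then 1 else 0) ≤
    (D : ℝ≥0∞) * (((n - 2 : ℕ) : ℝ≥0∞) * S.iD n τ) + (D : ℝ≥0∞) * S.iB n τ := by
  classical
  by_cases h3 : 3 ≤ n
  · rw [if_pos h3]
    have h1 : ∀ i ∈ Finset.range n, S.iE (up n i τ) (τ i) * 1 ≤ S.iD n τ + S.iB n τ := by
      intro i hi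
      rw [S.iE_val hn τ (Finset.mem_range.mp hi), mul_one]
      unfold iD iB
      by_cases hd : S.Dv n τ
      · rw [if_pos (Or.inl hd : S.Dv n τ ∨ (S.Bv n τ ∧ S.a (τ i) ≠ 0)), if_pos hd]
        exact le_self_add
      · by_cases hB : S.Bv n τ
        · rw [if_neg hd, if_pos hB]
          split_ifs <;> simp
        · rw [if_neg (fun h => h.elim hd fun h => hB h.1)]
          exact zero_le
    refine (Finset.sum_le_sum h1).trans ?_
    rw [Finset.sum_const, Finset.card_range, nsmul_eq_mul, mul_add, ← mul_assoc]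
    have h4 : n ≤ D * (n - 2) := by
      calc n ≤ D * 1 := by omega
        _ ≤ D * (n - 2) := Nat.mul_le_mul_left _ (by omega)
    gcongr
    exact_mod_cast h4
  · rw [if_neg h3]
    simp

omit hn in
theorem WW_zero (T : Tr) : WW 0 T = 0 := rfl

end Sys

noncomputable def ak (k : ℕ) : ℝ≥0∞ := E.m * E.JJ (fun s' s => S.iE s' s * (WW k s : ℝ≥0∞))

noncomputable def mc : ℝ≥0∞ := E.EE (fun n τ =>
  ∑ i ∈ Finset.range n, S.iE (up n i τ) (τ i) * (if 3 ≤ n then 1 else 0))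

theorem meas_WW' (k : ℕ) : Measurable (fun T => (WW k T : ℝ≥0∞)) :=
  measurable_from_top.comp (meas_WW k)

theorem mc_le : mc E S ≤ (D * D + D : ℝ≥0∞) * pB E S := by
  have h1 : mc E S ≤ D * dD E S + D * pB E S := by
    unfold mc dD pB
    rw [← E.EE_const_mul _ _ S.miB, ← E.EE_const_mul _ _ (fun n => (S.miD n).const_mul _),
      ← E.EE_add _ _ (fun n => ((S.miD n).const_mul _).const_mul _)]
    exact E.EE_mono fun n hn _ τ => S.pt_mc hn τ
  refine h1.trans ?_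
  rw [add_mul, mul_assoc]
  gcongr
  exact dD_le E S

theorem ak_zero : ak E S 0 = 0 := by
  unfold ak Env.JJ
  simp [Sys.WW_zero]

theorem m1 (k : ℕ) : Measurable (fun p : Tr × Tr => S.iE p.1 p.2 * (WW k p.2 : ℝ≥0∞)) :=
  S.miE.mul ((meas_WW' k).comp measurable_snd)

theorem m2 (k : ℕ) : Measurable (fun p : Tr × Tr => S.iE p.1 p.2 * (WW k p.1 : ℝ≥0∞)) :=
  S.miE.mul ((meas_WW' k).comp measurable_fst)

theorem ak_succ (k : ℕ) : ak E S (k + 1) ≤ mc E S + ak E S k := by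
  have h1 : ak E S (k + 1) = E.m * E.JJ (fun s' s => S.iE s' s * (WW (k + 1) s' : ℝ≥0∞)) := by
    unfold ak
    rw [E.JJ_swap _ (m1 S (k + 1))]
    congr 2
    funext s' s
    rw [S.iE_symm]
  rw [h1, ← E.edge (fun s' s => S.iE s' s * (WW (k + 1) s' : ℝ≥0∞)) (m2 S (k + 1))]
  unfold mc ak
  rw [← E.edge (fun s' s => S.iE s' s * (WW k s : ℝ≥0∞)) (m1 S k), ← E.EE_add]
  · exact E.EE_mono fun n hn h2 τ => S.pt_W hn τ h2 k
  · intro n
    exact Finset.measurable_fun_sum _ fun i _ =>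
      (S.miE.comp ((meas_up n i).prodMk (measurable_pi_apply i))).mul_const _

theorem ak_le (k : ℕ) : ak E S k ≤ k * mc E S := by
  induction k with
  | zero => rw [ak_zero]; simp
  | succ k ih =>
    refine (ak_succ E S k).trans ?_
    push_cast
    rw [add_mul, one_mul, add_comm]
    gcongr

theorem JE_ge : 2 * pD E S ≤ E.m * E.JJ S.iE := by
  classical
  rw [← E.edge S.iE S.miE]
  unfold pD
  rw [← E.EE_const_mul 2 _ S.miD]
  refine E.EE_mono fun n hn h2 τ => ?_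
  by_cases hd : S.Dv n τ
  · have h1 : ∀ i ∈ Finset.range n, S.iE (up n i τ) (τ i) = 1 := by
      intro i hi
      rw [S.iE_val hn τ (Finset.mem_range.mp hi), if_pos (Or.inl hd)]
    rw [Finset.sum_congr rfl h1]
    simp only [Sys.iD, if_pos hd, Finset.sum_const, Finset.card_range, nsmul_eq_mul, mul_one]
    exact_mod_cast h2
  · simp only [Sys.iD, if_neg hd, mul_zero]
    exact zero_le

end

section Gen

variable {D : ℕ} (E : Env D) (q : ℝ≥0∞)

noncomputable def Gk (k : ℕ) : ℝ≥0∞ := ∫⁻ T, q ^ (WW k T) ∂E.γ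

noncomputable def theta : ℝ≥0∞ := ∑ j ∈ Finset.range D, E.h j * (if 2 ≤ j then q * j else 1)

theorem h0 (hD : 0 < D) : E.h 0 = 0 := by
  have := E.hPh 0 hD
  rw [zero_add, E.P1, mul_zero] at this
  have h := this.symm
  rw [mul_eq_zero] at h
  exact h.resolve_left E.m0

theorem meas_qW (k : ℕ) : Measurable (fun T => q ^ (WW k T)) :=
  (measurable_from_top (f := fun n : ℕ => q ^ n)).comp (meas_WW k)

theorem lint_eval (F : Tr → ℝ≥0∞) (hF : Measurable F) (i : ℕ) :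
    ∫⁻ τ, F (τ i) ∂E.γN = ∫⁻ T, F T ∂E.γ := by
  have := (measurePreserving_eval_infinitePi (fun _ : ℕ => E.γ) i).lintegral_comp hF
  exact this

theorem Gk_succ (k : ℕ) : Gk E q (k + 1) ≤ theta E q * Gk E q k := by
  unfold Gk
  rw [E.rde _ (meas_qW q (k + 1))]
  unfold theta
  rw [Finset.sum_mul]
  refine Finset.sum_le_sum fun j hj => ?_
  rw [Finset.mem_range] at hj
  rcases Nat.eq_zero_or_pos j with hj0 | hj0
  · subst hj0
    rw [h0 E hj]; simp
  rw [mul_assoc]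
  gcongr
  have hpt : ∀ τ, q ^ (WW (k + 1) (glue j τ)) ≤
      (if 2 ≤ j then q else 1) * ∑ i ∈ Finset.range j, q ^ (WW k (τ i)) := by
    intro τ
    have e : WW (k + 1) (glue j τ) = (if 2 ≤ j then 1 else 0) + minW (fun i => WW k (τ i)) j := rfl
    rw [e, pow_add]
    have h1 : q ^ (if 2 ≤ j then 1 else 0) = (if 2 ≤ j then q else 1) := by split_ifs <;> simp
    rw [h1]
    gcongr
    obtain ⟨i, hi, hi2⟩ := minW_mem (fun i => WW k (τ i)) hj0
    rw [hi2]
    exact Finset.single_le_sum (f := fun i => q ^ WW k (τ i)) (fun _ _ => zero_le)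
      (Finset.mem_range.mpr hi)
  change ∫⁻ τ, q ^ (WW (k + 1) (glue j τ)) ∂E.γN ≤ _
  refine (lintegral_mono hpt).trans ?_
  have hm : ∀ i, Measurable (fun τ : ℕ → Tr => q ^ (WW k (τ i))) := fun i =>
    (meas_qW q k).comp (measurable_pi_apply i)
  rw [lintegral_const_mul _ (Finset.measurable_fun_sum _ fun i _ => hm i),
    lintegral_finsetSum _ (fun i _ => hm i)]
  have h2 : ∀ i ∈ Finset.range j, ∫⁻ τ, q ^ (WW k (τ i)) ∂E.γN = ∫⁻ T, q ^ (WW k T) ∂E.γ :=
    fun i _ => lint_eval E (fun T => q ^ (WW k T)) (meas_qW q k) i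
  rw [Finset.sum_congr rfl h2, Finset.sum_const, Finset.card_range, nsmul_eq_mul, ← mul_assoc]
  gcongr
  split_ifs with h3
  · exact le_rfl
  · have : j = 1 := by omega
    subst this
    simp

theorem Gk_le (k : ℕ) : Gk E q k ≤ theta E q ^ k := by
  induction k with
  | zero =>
    unfold Gk
    simp [Sys.WW_zero]
  | succ k ih =>
    refine (Gk_succ E q k).trans ?_
    rw [pow_succ']
    gcongr

theorem markov (hq0 : q ≠ 0) (hq1 : q ≤ 1) (k j : ℕ) :
    E.γ {T | WW k T ≤ j} ≤ theta E q ^ k / q ^ j := by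
  have hqt : q ≠ ∞ := ne_top_of_le_ne_top ENNReal.one_ne_top hq1
  rw [ENNReal.le_div_iff_mul_le (Or.inl (pow_ne_zero _ hq0)) (Or.inl (ENNReal.pow_ne_top hqt))]
  refine le_trans ?_ (Gk_le E q k)
  unfold Gk
  have hs : MeasurableSet {T : Tr | WW k T ≤ j} := measurableSet_le (meas_WW k) measurable_const
  calc E.γ {T | WW k T ≤ j} * q ^ j = ∫⁻ T in {T | WW k T ≤ j}, q ^ j ∂E.γ := by
        rw [setLIntegral_const, mul_comm]
    _ ≤ ∫⁻ T in {T | WW k T ≤ j}, q ^ (WW k T) ∂E.γ := by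
        refine setLIntegral_mono_ae' hs (Eventually.of_forall fun T hT => ?_)
        exact pow_le_pow_right_of_le_one' hq1 hT
    _ ≤ _ := setLIntegral_le_lintegral _ _

end Gen

section Last
variable {D : ℕ} {l : ℝ} (E : Env D) (S : Sys D l)

theorem JE_le (q : ℝ≥0∞) (hq0 : q ≠ 0) (hq1 : q ≤ 1) (L j : ℕ) (hj : 0 < j) :
    E.m * E.JJ S.iE ≤ L * mc E S + 3 * E.m * (theta E q ^ L / q) ^ j := by
  classical
  set k := L * j with hk
  set A : Set Tr := {T | WW k T ≤ j} with hA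
  have hsA : MeasurableSet A := measurableSet_le (meas_WW k) measurable_const
  have hj0 : (j : ℝ≥0∞) ≠ 0 := by exact_mod_cast hj.ne'
  have hjt : (j : ℝ≥0∞) ≠ ∞ := ENNReal.natCast_ne_top j
  have h1 : E.JJ S.iE ≤ (j : ℝ≥0∞)⁻¹ * E.JJ (fun s' s => S.iE s' s * (WW k s : ℝ≥0∞)) +
      3 * E.γ A := by
    have e1 : E.JJ (fun s' s => 3 * A.indicator (fun _ => (1 : ℝ≥0∞)) s) = 3 * E.γ A := by
      unfold Env.JJ
      simp only [lintegral_const, measure_univ, mul_one]
      rw [lintegral_const_mul _ (measurable_const.indicator hsA), lintegral_indicator_const hsA, one_mul]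
    rw [← e1, ← E.JJ_const_mul _ _ (m1 S k), ← E.JJ_add]
    · refine E.JJ_mono fun s' s => ?_
      by_cases hs : s ∈ A
      · rw [Set.indicator_of_mem hs, mul_one]
        exact le_trans (S.iE_le s' s) le_add_self
      · refine le_trans ?_ le_self_add
        have hs' : j ≤ WW k s := by
          simp only [hA, Set.mem_ofPred_eq, not_le] at hs
          exact hs.le
        calc S.iE s' s = (j : ℝ≥0∞)⁻¹ * (S.iE s' s * j) := by
              rw [mul_comm (S.iE s' s), ← mul_assoc, ENNReal.inv_mul_cancel hj0 hjt, one_mul]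
          _ ≤ _ := by
            gcongr
    · exact (m1 S k).const_mul _
  calc E.m * E.JJ S.iE ≤ E.m * ((j : ℝ≥0∞)⁻¹ * E.JJ (fun s' s => S.iE s' s * (WW k s : ℝ≥0∞)) +
      3 * E.γ A) := by gcongr
    _ = (j : ℝ≥0∞)⁻¹ * ak E S k + 3 * E.m * E.γ A := by
      unfold ak; ring
    _ ≤ (j : ℝ≥0∞)⁻¹ * (k * mc E S) + 3 * E.m * (theta E q ^ k / q ^ j) := by
      gcongr
      · exact ak_le E S k
      · exact markov E q hq0 hq1 k j
    _ = _ := by
      congr 1
      · rw [hk]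
        push_cast
        rw [show (L : ℝ≥0∞) * j * mc E S = j * (L * mc E S) by ring, ← mul_assoc,
          ENNReal.inv_mul_cancel hj0 hjt, one_mul]
      · rw [hk, pow_mul, div_eq_mul_inv, div_eq_mul_inv, mul_pow, ENNReal.inv_pow]

theorem JE_lim (q : ℝ≥0∞) (hq0 : q ≠ 0) (hq1 : q ≤ 1) (L : ℕ) (hL : theta E q ^ L < q) :
    E.m * E.JJ S.iE ≤ L * mc E S := by
  have hqt : q ≠ ∞ := ne_top_of_le_ne_top ENNReal.one_ne_top hq1
  have hr : theta E q ^ L / q < 1 := by
    rw [ENNReal.div_lt_iff (Or.inl hq0) (Or.inl hqt), one_mul]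
    exact hL
  have h1 : Tendsto (fun j : ℕ => L * mc E S + 3 * E.m * (theta E q ^ L / q) ^ j) atTop
      (𝓝 (L * mc E S + 3 * E.m * 0)) := by
    refine Tendsto.const_add _ ?_
    exact ENNReal.Tendsto.const_mul (ENNReal.tendsto_pow_atTop_nhds_zero_of_lt_one hr)
      (Or.inr (ENNReal.mul_ne_top (by simp) E.mtop))
  rw [mul_zero, add_zero] at h1
  refine ge_of_tendsto h1 ?_
  filter_upwards [eventually_gt_atTop 0] with j hj
  exact JE_le E S q hq0 hq1 L j hj

/-- the final contradiction -/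
theorem pD_zero (q : ℝ≥0∞) (hq0 : q ≠ 0) (hq1 : q ≤ 1) (L : ℕ) (hL : theta E q ^ L < q)
    (N : ℕ) (hN : L * (D * D + D) < N)
    (hK : ∀ n ≤ D, ∀ τ, S.Dv n τ → (N : ℝ≥0∞) ≤ 1 + ∑ i ∈ Finset.range n, S.ka (τ i)) :
    pD E S = 0 := by
  have h1 := T7 E S N (by omega) hK
  have h2 : 2 * pD E S ≤ pD E S := by
    calc 2 * pD E S ≤ E.m * E.JJ S.iE := JE_ge E S
      _ ≤ L * mc E S := JE_lim E S q hq0 hq1 L hL
      _ ≤ L * ((D * D + D : ℝ≥0∞) * pB E S) := by gcongr; exact mc_le E S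
      _ ≤ L * ((D * D + D : ℝ≥0∞) * ((N : ℝ≥0∞)⁻¹ * pD E S)) := by gcongr
      _ = ((L * (D * D + D) : ℕ) : ℝ≥0∞) * (N : ℝ≥0∞)⁻¹ * pD E S := by push_cast; ring
      _ ≤ (N : ℝ≥0∞) * (N : ℝ≥0∞)⁻¹ * pD E S := by gcongr
      _ ≤ 1 * pD E S := by
        gcongr
        exact ENNReal.mul_inv_le_one _
      _ = pD E S := one_mul _
  have hfin : pD E S ≠ ∞ := ne_top_of_le_ne_top ENNReal.one_ne_top (pD_le E S)
  rw [two_mul] at h2
  have h3 : pD E S + pD E S ≤ pD E S + 0 := by rw [add_zero]; exact h2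
  have h4 := (ENNReal.add_le_add_iff_left hfin).mp h3
  simpa using h4

theorem eA_le_pD : eA E S ≤ pD E S := by
  rw [T1]
  exact le_self_add

end Last

end Pool.Agent.H27R3.UG
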