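import Mathlib
import Pool.Agent.H27R3.UG.Fin2

set_option autoImplicit false
open MeasureTheory Filter Topology ProbabilityTheory Measure
open scoped ENNReal Polynomial

namespace Pool.Agent.H27R3.UG

section Param

variable {D : ℕ}

theorem D_ge (E : Env D) : 2 ≤ D := by
  by_contra h
  have := E.Psum
  have h0 : ∑ n ∈ Finset.range (D + 1), E.P n = 0 := by
    refine Finset.sum_eq_zero fun n hn => ?_
    rw [Finset.mem_range] at hn
    exact E.P_small (by omega)
  rw [h0] at this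
  exact zero_ne_one this

variable (E : Env D)

theorem h1_ne (h2 : E.P 2 ≠ 1) : E.h 1 ≠ 1 := by
  intro h
  have hD := D_ge E
  have hall : ∀ n ∈ Finset.range D, n ≠ 1 → E.h n = 0 := by
    intro n hn hn1
    have h3 : E.h 1 + E.h n ≤ 1 := by
      rw [← E.hsum]
      calc E.h 1 + E.h n = ∑ x ∈ ({1, n} : Finset ℕ), E.h x := (Finset.sum_pair (Ne.symm hn1)).symm
        _ ≤ _ := by
          refine Finset.sum_le_sum_of_subset ?_
          intro x hx
          rw [Finset.mem_insert, Finset.mem_singleton] at hx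
          rcases hx with rfl | rfl
          · exact Finset.mem_range.mpr (by omega)
          · exact hn
    rw [h] at h3
    have h4 : (1 : ℝ≥0∞) + E.h n ≤ 1 + 0 := by rw [add_zero]; exact h3
    have := (ENNReal.add_le_add_iff_left ENNReal.one_ne_top).mp h4
    simpa using this
  apply h2
  rw [← E.Psum]
  symm
  refine Finset.sum_eq_single_of_mem 2 (Finset.mem_range.mpr (by omega)) ?_
  intro n hn hn2
  rw [Finset.mem_range] at hn
  by_cases h5 : n < 2
  · exact E.P_small h5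
  · have h6 := E.hPh (n - 1) (by omega)
    rw [hall (n - 1) (Finset.mem_range.mpr (by omega)) (by omega), mul_zero] at h6
    rw [show n - 1 + 1 = n by omega] at h6
    rw [mul_eq_zero] at h6
    rcases h6 with h6 | h6
    · exfalso
      rw [add_eq_zero] at h6
      exact one_ne_zero h6.2
    · exact h6

theorem h1_le : E.h 1 ≤ 1 := by
  have hD := D_ge E
  rw [← E.hsum]
  exact Finset.single_le_sum (f := E.h) (fun _ _ => zero_le) (Finset.mem_range.mpr (by omega))

theorem theta_le (q : ℝ≥0∞) : theta E q ≤ E.h 1 + q * D := by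
  have hD := D_ge E
  unfold theta
  have h1 : ∀ j ∈ Finset.range D, E.h j * (if 2 ≤ j then q * j else 1) ≤
      (if j = 1 then E.h 1 else 0) + E.h j * (q * D) := by
    intro j hj
    rw [Finset.mem_range] at hj
    by_cases h2 : 2 ≤ j
    · rw [if_pos h2]
      refine le_trans ?_ le_add_self
      gcongr
    · rw [if_neg h2]
      by_cases h3 : j = 1
      · rw [if_pos h3, h3, mul_one]
        exact le_self_add
      · have : j = 0 := by omega
        subst this
        rw [h0 E (by omega)]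
        simp
  refine (Finset.sum_le_sum h1).trans ?_
  rw [Finset.sum_add_distrib, ← Finset.sum_mul, E.hsum, one_mul]
  rw [Finset.sum_ite_eq' (Finset.range D) 1, if_pos (Finset.mem_range.mpr (by omega))]

theorem exists_q (h2 : E.P 2 ≠ 1) : ∃ q : ℝ≥0∞, q ≠ 0 ∧ q ≤ 1 ∧ ∃ L : ℕ, theta E q ^ L < q := by
  have hlt : E.h 1 < 1 := lt_of_le_of_ne (h1_le E) (h1_ne E h2)
  set u : ℝ≥0∞ := 1 - E.h 1 with hu
  have hu0 : u ≠ 0 := (tsub_pos_of_lt hlt).ne'
  have hu1 : u ≤ 1 := tsub_le_self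
  have hut : u ≠ ∞ := ne_top_of_le_ne_top ENNReal.one_ne_top hu1
  have hsum : E.h 1 + u = 1 := add_tsub_cancel_of_le hlt.le
  set q : ℝ≥0∞ := u / (2 * (D + 1)) with hq
  have hden0 : (2 * ((D : ℝ≥0∞) + 1)) ≠ 0 := by simp
  have hdent : (2 * ((D : ℝ≥0∞) + 1)) ≠ ∞ := ENNReal.mul_ne_top (by simp) (by simp)
  have hq0 : q ≠ 0 := by
    rw [hq, ne_eq, ENNReal.div_eq_zero_iff, not_or]
    exact ⟨hu0, hdent⟩
  have hq1 : q ≤ 1 := by
    rw [hq]
    refine ENNReal.div_le_of_le_mul ?_
    calc u ≤ 1 := hu1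
      _ ≤ 1 * (2 * ((D : ℝ≥0∞) + 1)) := by
        rw [one_mul]
        calc (1 : ℝ≥0∞) = 1 * (0 + 1) := by simp
          _ ≤ 2 * ((D : ℝ≥0∞) + 1) := by
            gcongr
            · exact one_le_two
            · exact zero_le
  have hqD : q * D ≤ u / 2 := by
    rw [ENNReal.le_div_iff_mul_le (Or.inl (by simp)) (Or.inl (by simp))]
    calc q * D * 2 ≤ q * (2 * ((D : ℝ≥0∞) + 1)) := by
          rw [mul_assoc, mul_comm (D : ℝ≥0∞) 2]
          gcongr
          exact le_self_add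
      _ = u := ENNReal.div_mul_cancel hden0 hdent
  have hth : theta E q < 1 := by
    refine lt_of_le_of_lt (theta_le E q) ?_
    calc E.h 1 + q * D ≤ E.h 1 + u / 2 := by gcongr
      _ < E.h 1 + u := by
        refine ENNReal.add_lt_add_left (ne_top_of_lt hlt) ?_
        exact ENNReal.half_lt_self hu0 hut
      _ = 1 := hsum
  refine ⟨q, hq0, hq1, ?_⟩
  have := ENNReal.tendsto_pow_atTop_nhds_zero_of_lt_one hth
  exact (this.eventually_lt_const (pos_iff_ne_zero.mpr hq0)).exists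

end Param

section Poly

noncomputable def stp (x y : ℝ[X] × ℝ[X]) : ℝ[X] × ℝ[X] := (x.1 * y.1 - x.2 * y.2, x.2 * y.1)

def Qs (B : Set (ℝ[X] × ℝ[X])) : ℕ → Set (ℝ[X] × ℝ[X])
  | 0 => {(Polynomial.X, 1)}
  | j + 1 => Qs B j ∪ Set.image2 stp (Qs B j) B

def PP (D : ℕ) : ℕ → Set (ℝ[X] × ℝ[X])
  | 0 => ∅
  | d + 1 => Qs (PP D d) D

theorem Qs_finite (B : Set (ℝ[X] × ℝ[X])) (hB : B.Finite) (j : ℕ) : (Qs B j).Finite := by
  induction j with
  | zero => exact Set.finite_singleton _
  | succ j ih => exact ih.union (ih.image2 _ hB)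

theorem PP_finite (D d : ℕ) : (PP D d).Finite := by
  induction d with
  | zero => exact Set.finite_empty
  | succ d ih => exact Qs_finite _ ih _

def Good (x : ℝ[X] × ℝ[X]) : Prop := x.1.Monic ∧ x.2.Monic ∧ x.2.natDegree < x.1.natDegree

theorem good_stp {x y : ℝ[X] × ℝ[X]} (hx : Good x) (hy : Good y) : Good (stp x y) := by
  obtain ⟨a1, a2, a3⟩ := hx
  obtain ⟨b1, b2, b3⟩ := hy
  have e1 : (x.1 * y.1).natDegree = x.1.natDegree + y.1.natDegree := a1.natDegree_mul b1
  have e2 : (x.2 * y.2).natDegree = x.2.natDegree + y.2.natDegree := a2.natDegree_mul b2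
  have e3 : (x.2 * y.1).natDegree = x.2.natDegree + y.1.natDegree := a2.natDegree_mul b1
  have hlt : (x.2 * y.2).natDegree < (x.1 * y.1).natDegree := by omega
  refine ⟨?_, a2.mul b1, ?_⟩
  · exact (a1.mul b1).sub_of_left (Polynomial.degree_lt_degree hlt)
  · change (x.2 * y.1).natDegree < (x.1 * y.1 - x.2 * y.2).natDegree
    rw [Polynomial.natDegree_sub_eq_left_of_natDegree_lt hlt]
    omega

theorem good_Qs (B : Set (ℝ[X] × ℝ[X])) (hB : ∀ y ∈ B, Good y) (j : ℕ) : ∀ x ∈ Qs B j, Good x := by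
  induction j with
  | zero =>
    rintro x rfl
    refine ⟨Polynomial.monic_X, Polynomial.monic_one, ?_⟩
    simp
  | succ j ih =>
    rintro x (hx | ⟨a, ha, b, hb, rfl⟩)
    · exact ih x hx
    · exact good_stp (ih a ha) (hB b hb)

theorem good_PP (D d : ℕ) : ∀ x ∈ PP D d, Good x := by
  induction d with
  | zero => intro x hx; exact absurd hx (Set.notMem_empty _)
  | succ d ih => exact good_Qs _ ih _

theorem Qs_mono (B : Set (ℝ[X] × ℝ[X])) {i j : ℕ} (h : i ≤ j) : Qs B i ⊆ Qs B j := by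
  induction h with
  | refl => exact subset_rfl
  | step _ ih => exact ih.trans Set.subset_union_left

theorem claimA (B : Set (ℝ[X] × ℝ[X])) (l : ℝ) (j : ℕ) (c : ℕ → ℝ)
    (hc : ∀ i < j, c i = 0 ∨ ∃ y ∈ B, y.1.eval l ≠ 0 ∧ c i = - y.2.eval l / y.1.eval l) :
    ∃ x ∈ Qs B j, x.2.eval l ≠ 0 ∧ x.1.eval l / x.2.eval l = l + ∑ i ∈ Finset.range j, c i := by
  induction j with
  | zero =>
    refine ⟨(Polynomial.X, 1), rfl, ?_, ?_⟩
    · simp
    · simp
  | succ j ih =>
    obtain ⟨x, hx, hx2, hx3⟩ := ih (fun i hi => hc i (by omega))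
    rw [Finset.sum_range_succ]
    rcases hc j (by omega) with h | ⟨y, hy, hy1, hy2⟩
    · exact ⟨x, Or.inl hx, hx2, by rw [h, add_zero]; exact hx3⟩
    · refine ⟨stp x y, Or.inr ⟨x, hx, y, hy, rfl⟩, ?_, ?_⟩
      · unfold stp
        simp only [Polynomial.eval_mul]
        exact mul_ne_zero hx2 hy1
      · unfold stp
        simp only [Polynomial.eval_mul, Polynomial.eval_sub]
        rw [← add_assoc, ← hx3, hy2]
        field_simp
        ring

variable {D : ℕ} {l : ℝ} (S : Sys D l)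

theorem Rt_struct {T : Tr} (h : S.Rt T) :
    (∀ i < dg D T, S.fin (br i T)) ∧ l + ∑ i ∈ Finset.range (dg D T), S.g (br i T) ≠ 0 ∧
      S.g T = -1 / (l + ∑ i ∈ Finset.range (dg D T), S.g (br i T)) := by
  have hA : ∀ i < dg D T, S.a (br i T) = 0 := by
    by_contra hc
    push Not at hc
    exact h.2 (S.F1 T hc).2.2
  have hf : ∀ i < dg D T, S.fin (br i T) := by
    by_contra hc
    push Not at hc
    exact (S.F4 T hA hc).1 h.1
  have hs : l + ∑ i ∈ Finset.range (dg D T), S.g (br i T) ≠ 0 := by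
    intro h0
    have h1 := S.F2 T hf h0
    have hb : 0 ≤ ∑ i ∈ Finset.range (dg D T), S.b (br i T) :=
      Finset.sum_nonneg fun i hi => (S.b_pos _ (hf i (Finset.mem_range.mp hi))).le
    refine S.af T ?_ h.1
    rw [h1]
    positivity
  exact ⟨hf, hs, (S.F3 T hf hs).2.2⟩

theorem claimB (d : ℕ) : ∀ T, S.Rt T → S.ka T ≤ d →
    ∃ x ∈ PP D d, x.1.eval l ≠ 0 ∧ S.g T = - x.2.eval l / x.1.eval l := by
  induction d with
  | zero =>
    intro T h1 h2
    have := S.ka_ge_one h1
    have h3 := this.trans h2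
    simp at h3
  | succ d ih =>
    intro T h1 h2
    obtain ⟨hf, hs, hg⟩ := Rt_struct S h1
    rw [S.ka_rec, if_pos h1] at h2
    have h3 : ∑ i ∈ Finset.range (dg D T), S.ka (br i T) ≤ d := by
      have h4 : (1 : ℝ≥0∞) + ∑ i ∈ Finset.range (dg D T), S.ka (br i T) ≤ 1 + d := by
        refine h2.trans (le_of_eq ?_)
        push_cast
        ring
      exact (ENNReal.add_le_add_iff_left ENNReal.one_ne_top).mp h4
    obtain ⟨x, hx, hx2, hx3⟩ := claimA (PP D d) l (dg D T) (fun i => S.g (br i T)) (by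
      intro i hi
      by_cases h0 : S.g (br i T) = 0
      · exact Or.inl h0
      · right
        exact ih (br i T) ⟨hf i hi, h0⟩ (le_trans (Finset.single_le_sum
          (f := fun i => S.ka (br i T)) (fun _ _ => zero_le) (Finset.mem_range.mpr hi)) h3))
    refine ⟨x, Qs_mono _ (min_le_right _ _) hx, ?_, ?_⟩
    · intro h0
      rw [h0, zero_div] at hx3
      exact hs hx3.symm
    · rw [hg, ← hx3]
      rw [neg_div, one_div_div, neg_div]

theorem claimC (N : ℕ) {n : ℕ} (hn : n ≤ D) (τ : ℕ → Tr) (hd : S.Dv n τ)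
    (hs : ¬ (N : ℝ≥0∞) ≤ 1 + ∑ i ∈ Finset.range n, S.ka (τ i)) :
    ∃ x ∈ PP D (N + 1), x.1.eval l = 0 := by
  rw [not_le] at hs
  obtain ⟨x, hx, hx2, hx3⟩ := claimA (PP D N) l n (fun i => S.g (τ i)) (by
    intro i hi
    by_cases h0 : S.g (τ i) = 0
    · exact Or.inl h0
    · right
      refine claimB S N (τ i) ⟨hd.1 i hi, h0⟩ ?_
      refine le_trans (Finset.single_le_sum
          (f := fun i => S.ka (τ i)) (fun _ _ => zero_le) (Finset.mem_range.mpr hi)) ?_
      exact le_trans le_add_self hs.le)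
  refine ⟨x, Qs_mono _ hn hx, ?_⟩
  rw [hd.2] at hx3
  rcases div_eq_zero_iff.mp hx3 with h | h
  · exact h
  · exact absurd h hx2

/-- exceptional set of energies -/
def Lam (D N : ℕ) : Set ℝ := ⋃ x ∈ PP D (N + 1), {l : ℝ | x.1.eval l = 0}

theorem Lam_finite (D N : ℕ) : (Lam D N).Finite := by
  refine Set.Finite.biUnion (PP_finite D (N + 1)) fun x hx => ?_
  exact Polynomial.finite_setOf_isRoot (good_PP D (N + 1) x hx).1.ne_zero

theorem Lam_spec (N : ℕ) (hl : l ∉ Lam D N) : ∀ n ≤ D, ∀ τ, S.Dv n τ →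
    (N : ℝ≥0∞) ≤ 1 + ∑ i ∈ Finset.range n, S.ka (τ i) := by
  intro n hn τ hd
  by_contra hs
  obtain ⟨x, hx, hx2⟩ := claimC S N hn τ hd hs
  apply hl
  unfold Lam
  rw [Set.mem_iUnion₂]
  exact ⟨x, hx, hx2⟩

end Poly

/-- main abstract theorem -/
theorem abstract_main {D : ℕ} (E : Env D) : ∃ Λ : Set ℝ, Λ.Finite ∧ ∀ l ∉ Λ, ∀ S : Sys D l,
    eA E S = 0 := by
  by_cases h2 : E.P 2 = 1
  · refine ⟨∅, Set.finite_empty, fun l _ S => eA_zero_of_two E S fun n hn hn2 => ?_⟩
    have hD := D_ge E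
    have h3 : E.P 2 + E.P n ≤ 1 := by
      rw [← E.Psum]
      calc E.P 2 + E.P n = ∑ x ∈ ({2, n} : Finset ℕ), E.P x := (Finset.sum_pair (Ne.symm hn2)).symm
        _ ≤ _ := by
          refine Finset.sum_le_sum_of_subset ?_
          intro x hx
          rw [Finset.mem_insert, Finset.mem_singleton] at hx
          rcases hx with rfl | rfl
          · exact Finset.mem_range.mpr (by omega)
          · exact Finset.mem_range.mpr (by omega)
    rw [h2] at h3
    have h4 : (1 : ℝ≥0∞) + E.P n ≤ 1 + 0 := by rw [add_zero]; exact h3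
    have := (ENNReal.add_le_add_iff_left ENNReal.one_ne_top).mp h4
    simpa using this
  · obtain ⟨q, hq0, hq1, L, hL⟩ := exists_q E h2
    refine ⟨Lam D (L * (D * D + D) + 1), Lam_finite _ _, fun l hl S => ?_⟩
    have := pD_zero E S q hq0 hq1 L hL (L * (D * D + D) + 1) (by omega) (Lam_spec S _ hl)
    have h3 := eA_le_pD E S
    rw [this] at h3
    simpa using h3

end Pool.Agent.H27R3.UG
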