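import Mathlib
import Pool.Agent.H27R3.UG.Poly

set_option autoImplicit false
open MeasureTheory Filter Topology ProbabilityTheory Measure
open scoped ENNReal

namespace Pool.Agent.H27R3.UG

local instance instMSFin : MeasurableSpace (Finset (List ℕ)) := ⊤

theorem meas_nbT (D : ℕ) (v : List ℕ) : Measurable (nbT D v : Tr → Finset (List ℕ)) := by
  induction v with
  | nil =>
    have : (nbT D [] : Tr → Finset (List ℕ)) = (fun n : ℕ =>
        (Finset.range (min n D)).image (fun i => [i])) ∘ (fun T : Tr => T []) := by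
      funext T; rfl
    rw [this]
    exact measurable_from_top.comp (measurable_pi_apply _)
  | cons i w ih =>
    have : (nbT D (i :: w) : Tr → Finset (List ℕ)) = fun T => if i < min (T []) D then
      ((nbT D w (br i T)).image (fun u => i :: u)) ∪ (if w = [] then {[]} else ∅) else ∅ := by
      funext T; exact nbT_cons D i w T
    rw [this]
    refine Measurable.ite ?_ ?_ measurable_const
    · exact measurableSet_lt measurable_const ((measurable_pi_apply _).min measurable_const)
    · exact (measurable_from_top (f := fun s : Finset (List ℕ) => (s.image (fun u => i :: u)) ∪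
        (if w = [] then {[]} else ∅))).comp (ih.comp (measurable_br i))

theorem meas_dep2 {X Y ι : Type} [MeasurableSpace X] [MeasurableSpace Y] [MeasurableSpace ι]
    [Countable ι] [MeasurableSingletonClass ι] (f : X → ι) (hf : Measurable f)
    (g : ι → X → Y) (hg : ∀ n, Measurable (g n)) : Measurable (fun x => g (f x) x) := by
  have : Measurable (fun p : ι × X => g p.1 p.2) := measurable_from_prod_countable_right hg
  exact this.comp (hf.prodMk measurable_id)

/-- number of walks of length `k` from `v` to the root -/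
def wc (D : ℕ) : ℕ → List ℕ → Tr → ℕ
  | 0, v, _ => if v = [] then 1 else 0
  | k + 1, v, T => ∑ u ∈ nbT D v T, wc D k u T

theorem meas_wc (D k : ℕ) : ∀ v, Measurable (wc D k v) := by
  induction k with
  | zero => intro v; exact measurable_const
  | succ k ih =>
    intro v
    have e : wc D (k + 1) v = fun T => ∑ u ∈ nbT D v T, wc D k u T := by funext T; rfl
    rw [e]
    haveI : MeasurableSingletonClass (Finset (List ℕ)) := ⟨fun _ => trivial⟩
    exact meas_dep2 (nbT D v) (meas_nbT D v) (fun s T => ∑ u ∈ s, wc D k u T)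
      (fun s => Finset.measurable_fun_sum _ fun u _ => ih u)

theorem opT_pow (D : ℕ) (T : Tr) (k : ℕ) : ∀ v, (((opT D T) ^ k) root) v = (wc D k v T : ℂ) := by
  induction k with
  | zero =>
    intro v
    rw [pow_zero, ContinuousLinearMap.one_apply, root_apply]
    unfold wc
    push_cast
    rfl
  | succ k ih =>
    intro v
    rw [pow_succ', ContinuousLinearMap.mul_apply, opT_apply]
    unfold wc
    rw [Nat.cast_sum]
    exact Finset.sum_congr rfl fun u _ => ih u

theorem mT_pow (D : ℕ) (T : Tr) (k : ℕ) : ∫ x, x ^ k ∂(mT D T) = (wc D k [] T : ℝ) := by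
  unfold mT
  rw [smeas_pow root (opT D T) (opT_sa D T) k, inner_root, opT_pow]
  simp

section Cpt

variable (μ : Measure ℝ) [IsProbabilityMeasure μ] (R : ℝ) (hR : μ (Set.Icc (-R) R)ᶜ = 0)

include hR

theorem ae_Icc : ∀ᵐ x ∂μ, x ∈ Set.Icc (-R) R := hR

theorem int_cont (f : ℝ → ℝ) (hf : Continuous f) : Integrable f μ := by
  obtain ⟨C, hC⟩ := (isCompact_Icc (a := -R) (b := R)).exists_bound_of_continuousOn hf.continuousOn
  refine Integrable.of_bound hf.aestronglyMeasurable C ?_
  filter_upwards [ae_Icc μ R hR] with x hx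
  exact hC x hx

theorem int_close (f g : ℝ → ℝ) (hf : Continuous f) (hg : Continuous g) (ε : ℝ)
    (h : ∀ x ∈ Set.Icc (-R) R, |f x - g x| ≤ ε) : |∫ x, f x ∂μ - ∫ x, g x ∂μ| ≤ ε := by
  rw [← integral_sub (int_cont μ R hR f hf) (int_cont μ R hR g hg)]
  have := norm_integral_le_of_norm_le_const (μ := μ) (f := fun x => f x - g x) (C := ε) (by
    filter_upwards [ae_Icc μ R hR] with x hx
    exact h x hx)
  simpa using this

theorem int_poly (p : Polynomial ℝ) : ∫ x, p.eval x ∂μ = ∑ k ∈ p.support, p.coeff k * ∫ x, x ^ k ∂μ := by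
  have : ∀ x, p.eval x = ∑ k ∈ p.support, p.coeff k * x ^ k := fun x => by
    rw [Polynomial.eval_eq_sum, Polynomial.sum]
  simp_rw [this]
  rw [integral_finsetSum _ (fun k _ => (int_cont μ R hR (fun x => x ^ k) (by fun_prop)).const_mul _)]
  exact Finset.sum_congr rfl fun k _ => integral_const_mul _ _

end Cpt

theorem exists_polys (R : ℝ) (f : ℝ → ℝ) (hf : Continuous f) :
    ∃ p : ℕ → Polynomial ℝ, ∀ n, ∀ x ∈ Set.Icc (-R) R, |(p n).eval x - f x| ≤ 1 / ((n : ℝ) + 1) := by
  have : ∀ n : ℕ, ∃ p : Polynomial ℝ, ∀ x ∈ Set.Icc (-R) R, |p.eval x - f x| < 1 / ((n : ℝ) + 1) := by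
    intro n
    exact exists_polynomial_near_of_continuousOn (-R) R f hf.continuousOn _ (by positivity)
  choose p hp using this
  exact ⟨p, fun n x hx => (hp n x hx).le⟩

/-- `T ↦ ∫ f d(mT D T)` is measurable -/
theorem meas_int (D : ℕ) (f : ℝ → ℝ) (hf : Continuous f) : Measurable (fun T : Tr => ∫ x, f x ∂(mT D T)) := by
  obtain ⟨p, hp⟩ := exists_polys (D + 1) f hf
  refine measurable_of_tendsto_metrizable (f := fun n (T : Tr) => ∫ x, (p n).eval x ∂(mT D T)) ?_ ?_
  · intro n
    have : (fun T : Tr => ∫ x, (p n).eval x ∂(mT D T)) = fun T : Tr =>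
        ∑ k ∈ (p n).support, (p n).coeff k * (wc D k [] T : ℝ) := by
      funext T
      rw [int_poly (mT D T) (D + 1) (mT_supp D T)]
      refine Finset.sum_congr rfl fun k _ => ?_
      rw [mT_pow]
    rw [this]
    exact Finset.measurable_fun_sum _ fun k _ =>
      (measurable_from_top.comp (meas_wc D k [])).const_mul _
  · rw [tendsto_pi_nhds]
    intro T
    rw [tendsto_iff_dist_tendsto_zero]
    refine squeeze_zero (fun _ => dist_nonneg) (fun n => ?_) tendsto_one_div_add_atTop_nhds_zero_nat
    rw [Real.dist_eq]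
    exact int_close (mT D T) (D + 1) (mT_supp D T) _ _ ((p n).continuous) hf _ (hp n)

theorem meas_bb (D : ℕ) (l : ℝ) {t : ℝ} (ht : 0 < t) : Measurable (fun T : Tr => bb (mT D T) l t) := by
  unfold bb
  refine meas_int D _ ?_
  refine continuous_const.div (by fun_prop) fun x => ?_
  positivity

theorem meas_cc (D : ℕ) (l : ℝ) {t : ℝ} (ht : 0 < t) : Measurable (fun T : Tr => cc (mT D T) l t) := by
  unfold cc
  refine meas_int D _ ?_
  refine Continuous.div (by fun_prop) (by fun_prop) fun x => ?_
  positivity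

theorem meas_al (D : ℕ) (l : ℝ) : Measurable (fun T : Tr => (mT D T).real {l}) := by
  refine measurable_of_tendsto_metrizable (f := fun n (T : Tr) => tn n ^ 2 * bb (mT D T) l (tn n)) ?_ ?_
  · exact fun n => (meas_bb D l (tn_pos n)).const_mul _
  · rw [tendsto_pi_nhds]
    exact fun T => lim_al (mT D T) l

theorem meas_be (D : ℕ) (l : ℝ) : Measurable (fun T : Tr => be (mT D T) l) := by
  refine measurable_of_tendsto_metrizable (f := fun n (T : Tr) => ENNReal.ofReal (bb (mT D T) l (tn n))) ?_ ?_
  · exact fun n => (meas_bb D l (tn_pos n)).ennreal_ofReal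
  · rw [tendsto_pi_nhds]
    exact fun T => lim_be (mT D T) l

theorem meas_fin (D : ℕ) (l : ℝ) : MeasurableSet {T : Tr | be (mT D T) l ≠ ∞} :=
  (meas_be D l) (measurableSet_singleton ∞).compl

open Classical in
theorem meas_ge (D : ℕ) (l : ℝ) : Measurable (fun T : Tr => if be (mT D T) l ≠ ∞ then ge (mT D T) l else 0) := by
  refine measurable_of_tendsto_metrizable (f := fun n (T : Tr) =>
    if be (mT D T) l ≠ ∞ then cc (mT D T) l (tn n) else 0) ?_ ?_
  · exact fun n => Measurable.ite (meas_fin D l) (meas_cc D l (tn_pos n)) measurable_const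
  · rw [tendsto_pi_nhds]
    intro T
    by_cases h : be (mT D T) l ≠ ∞
    · simp only [if_pos h]
      exact lim_c (mT D T) l h
    · simp only [if_neg h]
      exact tendsto_const_nhds

theorem mT_Rec (D : ℕ) (T : Tr) (l : ℝ) :
    Rec (mT D T) l (fun i : Fin (dg D T) => mT D (br i T)) := by
  intro n
  obtain ⟨h1, h2⟩ := mT_rec D T l (tn n) (tn_pos n)
  exact ⟨h1.symm, h2.symm⟩

open Classical in
/-- the concrete system -/
noncomputable def theSys (D : ℕ) (l : ℝ) : Sys D l where
  a := fun T => (mT D T).real {l}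
  b := fun T => (be (mT D T) l).toReal
  g := fun T => if be (mT D T) l ≠ ∞ then ge (mT D T) l else 0
  fin := fun T => be (mT D T) l ≠ ∞
  a_nonneg := fun T => measureReal_nonneg
  b_pos := fun T h => ENNReal.toReal_pos (be_ne_zero _ _) h
  af := fun T h hf => by
    apply h
    rw [measureReal_def, al_of_be _ _ hf]
    simp
  F1 := fun T h => by
    obtain ⟨i, hi, hia⟩ := h
    have h1 := V3 (mT_Rec D T l) ⟨⟨i, hi⟩, by
      intro h0
      apply hia
      rw [measureReal_def]
      change ((mT D (br i T)) {l}).toReal = 0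
      have h0' : (mT D (br i T)) {l} = 0 := h0
      rw [h0']
      simp⟩
    have hs : ∑ j : Fin (dg D T), (mT D (br j T)) {l} ≠ 0 := by
      intro h0
      rw [Finset.sum_eq_zero_iff] at h0
      apply hia
      have := h0 ⟨i, hi⟩ (Finset.mem_univ _)
      rw [measureReal_def]
      have h0' : (mT D (br i T)) {l} = 0 := this
      rw [h0']
      simp
    have hf : be (mT D T) l ≠ ∞ := by
      rw [h1.1]
      exact ENNReal.inv_ne_top.mpr hs
    refine ⟨hf, ?_, ?_⟩
    · rw [h1.1, ENNReal.toReal_inv, ENNReal.toReal_sum (fun _ _ => measure_ne_top _ _), one_div,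
        Finset.sum_range (fun i => (mT D (br i T)).real {l})]
      rfl
    · rw [if_pos hf]
      exact h1.2
  F2 := fun T hf hg => by
    have hf' : ∀ i : Fin (dg D T), be (mT D (br i T)) l ≠ ∞ := fun i => hf i i.2
    have h2 : l + ∑ i : Fin (dg D T), ge (mT D (br i T)) l = 0 := by
      rw [← hg, Finset.sum_range]
      congr 1
      exact Finset.sum_congr rfl fun i _ => (if_pos (hf' i)).symm
    have := V1 (mT_Rec D T l) hf' h2
    rw [this, Finset.sum_range]
  F3 := fun T hf hg => by
    have hf' : ∀ i : Fin (dg D T), be (mT D (br i T)) l ≠ ∞ := fun i => hf i i.2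
    have e2 : ∑ i : Fin (dg D T), ge (mT D (br i T)) l = ∑ i ∈ Finset.range (dg D T),
        (if be (mT D (br i T)) l ≠ ∞ then ge (mT D (br i T)) l else 0) := by
      rw [Finset.sum_range]
      exact Finset.sum_congr rfl fun i _ => (if_pos (hf' i)).symm
    have h2 : l + ∑ i : Fin (dg D T), ge (mT D (br i T)) l ≠ 0 := by
      rw [e2]
      exact hg
    have h3 := V2 (mT_Rec D T l) hf' h2
    have hfin : be (mT D T) l ≠ ∞ := by
      rw [h3.1]
      exact ENNReal.ofReal_ne_top
    refine ⟨hfin, ?_, ?_⟩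
    · rw [h3.1, ENNReal.toReal_ofReal, e2]
      · rw [Finset.sum_range (fun i => (be (mT D (br i T)) l).toReal)]
      · have : 0 ≤ ∑ i : Fin (dg D T), (be (mT D (br i T)) l).toReal :=
          Finset.sum_nonneg fun i _ => ENNReal.toReal_nonneg
        positivity
    · rw [if_pos hfin, h3.2, e2]
  F4 := fun T hA hS => by
    have hA' : ∀ i : Fin (dg D T), (mT D (br i T)) {l} = 0 := by
      intro i
      have := hA i i.2
      rw [measureReal_def, ENNReal.toReal_eq_zero_iff] at this
      exact this.resolve_right (measure_ne_top _ _)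
    obtain ⟨i, hi, hfi⟩ := hS
    have h := V4 (mT_Rec D T l) hA' ⟨⟨i, hi⟩, not_not.mp hfi⟩
    refine ⟨fun h2 => h2 h.1, ?_⟩
    rw [measureReal_def, h.2]
    simp
  ma := meas_al D l
  mb := (meas_be D l).ennreal_toReal
  mg := meas_ge D l
  mfin := meas_fin D l

end Pool.Agent.H27R3.UG
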