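import Mathlib
import Pool.Agent.H27R3.UG.Meas

set_option autoImplicit false
open MeasureTheory Filter Topology ProbabilityTheory Measure
open scoped ENNReal

namespace Pool.Agent.H27R3.UG

def inT (T : Tr) (w : List ℕ) : Prop := ∀ j < w.length, w.getD j 0 < T (w.take j)

def adj (u v : List ℕ) : Prop := (∃ a : ℕ, v = u ++ [a]) ∨ (∃ a : ℕ, u = v ++ [a])

theorem inT_nil (T : Tr) : inT T [] := by
  intro j hj
  simp at hj

theorem inT_cons (T : Tr) (i : ℕ) (w : List ℕ) : inT T (i :: w) ↔ i < T [] ∧ inT (br i T) w := by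
  unfold inT br
  constructor
  · intro h
    refine ⟨?_, fun j hj => ?_⟩
    · have := h 0 (by simp)
      simpa using this
    · have := h (j + 1) (by simpa using hj)
      simpa using this
  · rintro ⟨h1, h2⟩ j hj
    cases j with
    | zero => simpa using h1
    | succ j =>
      have := h2 j (by simpa using hj)
      simpa using this

theorem adj_cc (i j : ℕ) (w u : List ℕ) : adj (i :: w) (j :: u) ↔ i = j ∧ adj w u := by
  unfold adj
  simp only [List.cons_append, List.cons.injEq]
  constructor
  · rintro (⟨a, h1, h2⟩ | ⟨a, h1, h2⟩)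
    · exact ⟨h1.symm, Or.inl ⟨a, h2⟩⟩
    · exact ⟨h1, Or.inr ⟨a, h2⟩⟩
  · rintro ⟨h1, (⟨a, h2⟩ | ⟨a, h2⟩)⟩
    · exact Or.inl ⟨a, h1.symm, h2⟩
    · exact Or.inr ⟨a, h1, h2⟩

theorem adj_nc (j : ℕ) (u : List ℕ) : adj [] (j :: u) ↔ u = [] := by
  unfold adj
  simp

theorem adj_cn (j : ℕ) (u : List ℕ) : adj (j :: u) [] ↔ u = [] := by
  unfold adj
  simp

theorem adj_nn : ¬ adj [] [] := by
  unfold adj
  simp

theorem nb_iff (D : ℕ) (v : List ℕ) : ∀ (T : Tr), (∀ w, T w ≤ D) → inT T v → ∀ u,
    (u ∈ nbT D v T ↔ inT T u ∧ adj v u) := by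
  induction v with
  | nil =>
    intro T hT _ u
    rw [mem_nil, min_eq_left (hT [])]
    cases u with
    | nil =>
      constructor
      · rintro ⟨i, _, h⟩; simp at h
      · rintro ⟨_, h⟩; exact absurd h adj_nn
    | cons j u =>
      rw [inT_cons, adj_nc]
      constructor
      · rintro ⟨i, hi, h⟩
        simp only [List.cons.injEq] at h
        obtain ⟨rfl, rfl⟩ := h
        exact ⟨⟨hi, inT_nil _⟩, rfl⟩
      · rintro ⟨⟨hi, _⟩, rfl⟩
        exact ⟨j, hi, rfl⟩
  | cons i w ih =>
    intro T hT hv u
    rw [inT_cons] at hv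
    obtain ⟨hi, hw⟩ := hv
    have hb : ∀ w', br i T w' ≤ D := fun w' => hT _
    rw [mem_cons, min_eq_left (hT [])]
    cases u with
    | nil =>
      rw [adj_cn]
      constructor
      · rintro ⟨_, (⟨u', _, h⟩ | ⟨h, _⟩)⟩
        · simp at h
        · exact ⟨inT_nil _, h⟩
      · rintro ⟨_, h⟩
        exact ⟨hi, Or.inr ⟨h, rfl⟩⟩
    | cons j u =>
      rw [adj_cc, inT_cons]
      constructor
      · rintro ⟨_, (⟨u', h1, h⟩ | ⟨_, h⟩)⟩
        · simp only [List.cons.injEq] at h
          obtain ⟨rfl, rfl⟩ := h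
          have := (ih _ hb hw u).mp h1
          exact ⟨⟨hi, this.1⟩, rfl, this.2⟩
        · simp at h
      · rintro ⟨⟨_, h1⟩, rfl, h2⟩
        exact ⟨hi, Or.inl ⟨u, (ih _ hb hw u).mpr ⟨h1, h2⟩, rfl⟩⟩

/-- set of walks from `v` to the root -/
def WS (T : Tr) (k : ℕ) (v : List ℕ) : Set (Fin (k + 1) → List ℕ) :=
  {f | f 0 = v ∧ f (Fin.last k) = [] ∧ (∀ i, inT T (f i)) ∧
    ∀ i : Fin k, adj (f i.castSucc) (f i.succ)}

def FS (D : ℕ) (T : Tr) : (k : ℕ) → List ℕ → Finset (Fin (k + 1) → List ℕ)
  | 0, v => if v = [] then {fun _ => []} else ∅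
  | k + 1, v => (nbT D v T).biUnion (fun u => (FS D T k u).image
      (fun g => (Fin.cons v g : Fin (k + 1 + 1) → List ℕ)))

theorem cons_inj (k : ℕ) (v : List ℕ) :
    Function.Injective (fun g : Fin (k + 1) → List ℕ => (Fin.cons v g : Fin (k + 1 + 1) → List ℕ)) := by
  intro g g' h
  funext i
  have := congrFun h i.succ
  simpa using this

theorem FS_spec (D : ℕ) (T : Tr) (hT : ∀ w, T w ≤ D) (k : ℕ) : ∀ v, inT T v →
    (∀ f, f ∈ FS D T k v ↔ f ∈ WS T k v) ∧ (FS D T k v).card = wc D k v T := by
  induction k with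
  | zero =>
    intro v hv
    constructor
    · intro f
      unfold FS WS
      simp only [Set.mem_ofPred_eq]
      by_cases h : v = []
      · rw [if_pos h, Finset.mem_singleton]
        constructor
        · rintro rfl
          exact ⟨h.symm, rfl, fun _ => inT_nil _, fun i => i.elim0⟩
        · rintro ⟨h1, _⟩
          funext i
          have hi : i = 0 := Fin.eq_zero i
          rw [hi, h1, h]
      · rw [if_neg h]
        constructor
        · intro h'; simp at h'
        · rintro ⟨h1, h2, _⟩
          exfalso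
          apply h
          rw [← h1, ← h2]
          rfl
    · unfold FS wc
      split_ifs <;> simp
  | succ k ih =>
    intro v hv
    have hin : ∀ u ∈ nbT D v T, inT T u := fun u hu => ((nb_iff D v T hT hv u).mp hu).1
    constructor
    · intro f
      change f ∈ (nbT D v T).biUnion (fun u => (FS D T k u).image
        (fun g => (Fin.cons v g : Fin (k + 1 + 1) → List ℕ))) ↔ _
      rw [Finset.mem_biUnion]
      constructor
      · rintro ⟨u, hu, hf⟩
        rw [Finset.mem_image] at hf
        obtain ⟨g, hg, rfl⟩ := hf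
        rw [(ih u (hin u hu)).1] at hg
        obtain ⟨g1, g2, g3, g4⟩ := hg
        refine ⟨rfl, ?_, ?_, ?_⟩
        · rw [← Fin.succ_last, Fin.cons_succ]
          exact g2
        · intro i
          refine Fin.cases ?_ (fun i => ?_) i
          · exact hv
          · rw [Fin.cons_succ]
            exact g3 i
        · intro i
          refine Fin.cases ?_ (fun i => ?_) i
          · rw [Fin.castSucc_zero, Fin.cons_succ, Fin.cons_zero, g1]
            exact ((nb_iff D v T hT hv u).mp hu).2
          · rw [Fin.cons_succ, ← Fin.succ_castSucc, Fin.cons_succ]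
            exact g4 i
      · rintro ⟨f1, f2, f3, f4⟩
        refine ⟨f 1, ?_, ?_⟩
        · rw [nb_iff D v T hT hv]
          refine ⟨f3 1, ?_⟩
          have := f4 0
          rw [Fin.castSucc_zero, f1] at this
          exact this
        · rw [Finset.mem_image]
          refine ⟨Fin.tail f, ?_, ?_⟩
          · rw [(ih (f 1) (f3 1)).1]
            refine ⟨rfl, ?_, fun i => f3 _, fun i => ?_⟩
            · unfold Fin.tail
              rw [Fin.succ_last]
              exact f2
            · unfold Fin.tail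
              have := f4 i.succ
              rw [← Fin.succ_castSucc] at this
              exact this
          · rw [← f1]
            exact Fin.cons_self_tail f
    · change ((nbT D v T).biUnion (fun u => (FS D T k u).image
        (fun g => (Fin.cons v g : Fin (k + 1 + 1) → List ℕ)))).card = ∑ u ∈ nbT D v T, wc D k u T
      rw [Finset.card_biUnion]
      · refine Finset.sum_congr rfl fun u hu => ?_
        rw [Finset.card_image_of_injective _ (cons_inj k v), (ih u (hin u hu)).2]
      · intro u hu u' hu' huu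
        rw [Function.onFun, Finset.disjoint_left]
        intro f hf hf'
        rw [Finset.mem_image] at hf hf'
        obtain ⟨g, hg, rfl⟩ := hf
        obtain ⟨g', hg', h⟩ := hf'
        have hgg := cons_inj k v h
        subst hgg
        rw [(ih u (hin u hu)).1] at hg
        rw [(ih u' (hin u' hu')).1] at hg'
        exact huu (hg.1.symm.trans hg'.1)

theorem ncard_walks (D : ℕ) (T : Tr) (hT : ∀ w, T w ≤ D) (k : ℕ) :
    Set.ncard {f : Fin (k + 1) → List ℕ |
            f 0 = [] ∧ f (Fin.last k) = [] ∧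
            (∀ i, ∀ j < (f i).length, (f i).getD j 0 < T ((f i).take j)) ∧
            ∀ i : Fin k, (∃ a : ℕ, f i.succ = f i.castSucc ++ [a]) ∨
                         (∃ a : ℕ, f i.castSucc = f i.succ ++ [a])} = wc D k [] T := by
  obtain ⟨h1, h2⟩ := FS_spec D T hT k [] (inT_nil T)
  rw [← h2, ← Set.ncard_coe_finset]
  congr 1
  ext f
  rw [Finset.mem_coe, h1]
  rfl

end Pool.Agent.H27R3.UG
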