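import Mathlib
import Pool.Agent.H27R3.UG.Walk

set_option autoImplicit false
open MeasureTheory Filter Topology ProbabilityTheory Measure
open scoped ENNReal

namespace Pool.Agent.H27R3.UG

section Law2

theorem nat_ext (μ ν : Measure ℕ) (h : ∀ k, μ {k} = ν {k}) : μ = ν := by
  exact Measure.ext_of_singleton h

theorem lint_glue (p h : Measure ℕ) [IsProbabilityMeasure p] [IsProbabilityMeasure h]
    (F : Tr → ℝ≥0∞) (hF : Measurable F) (K : ℕ) (hK : ∀ k, K ≤ k → p {k} = 0) :
    ∫⁻ T, F T ∂(infinitePi (fun w : List ℕ => if w = [] then p else h)) =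
      ∑ k ∈ Finset.range K, p {k} * ∫⁻ τ, F (glue k τ)
        ∂(infinitePi fun _ : ℕ => infinitePi fun _ : List ℕ => h) := by
  rw [← glue_law p h, lintegral_map hF measurable_glue]
  rw [lintegral_prod (fun q : ℕ × (ℕ → Tr) => F (glue q.1 q.2)) (hF.comp measurable_glue).aemeasurable]
  rw [lintegral_countable']
  rw [tsum_eq_sum (s := Finset.range K)]
  · refine Finset.sum_congr rfl fun k _ => ?_
    rw [mul_comm]
  · intro k hk
    rw [Finset.mem_range, not_lt] at hk
    rw [hK k hk, mul_zero]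

end Law2

section Mix

variable {Ω : Type} [MeasureSpace Ω] [IsProbabilityMeasure (volume : Measure Ω)]
  (X : Ω → Tr) (hX : Measurable X) (D : ℕ)

include hX

theorem mix_meas (f : ℝ → ℝ) (hf : Continuous f) :
    Measurable (fun ω => ∫ x, f x ∂(mT D (X ω))) := (meas_int D f hf).comp hX

theorem mix_int (f : ℝ → ℝ) (hf : Continuous f) :
    Integrable (fun ω => ∫ x, f x ∂(mT D (X ω))) := by
  obtain ⟨C, hC⟩ := (isCompact_Icc (a := -((D : ℝ) + 1)) (b := (D : ℝ) + 1)).exists_bound_of_continuousOn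
    hf.continuousOn
  refine Integrable.of_bound (mix_meas X hX D f hf).aestronglyMeasurable C ?_
  refine Eventually.of_forall fun ω => ?_
  have := norm_integral_le_of_norm_le_const (μ := mT D (X ω)) (f := f) (C := C) (by
    filter_upwards [ae_Icc (mT D (X ω)) _ (mT_supp D (X ω))] with x hx
    exact hC x hx)
  simpa using this

variable (ν : Measure ℝ) [IsProbabilityMeasure ν] (R : ℝ) (hR : ν (Set.Icc (-R) R)ᶜ = 0)
  (hm : ∀ k : ℕ, ∫ x, x ^ k ∂ν = ∫ ω, ∫ x, x ^ k ∂(mT D (X ω)))

include hR hm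

theorem mix_poly (p : Polynomial ℝ) :
    ∫ x, p.eval x ∂ν = ∫ ω, ∫ x, p.eval x ∂(mT D (X ω)) := by
  rw [int_poly ν R hR]
  have h1 : ∀ ω, ∫ x, p.eval x ∂(mT D (X ω)) = ∑ k ∈ p.support, p.coeff k * ∫ x, x ^ k ∂(mT D (X ω)) :=
    fun ω => int_poly (mT D (X ω)) (D + 1) (mT_supp D (X ω)) p
  simp_rw [h1]
  rw [integral_finsetSum _ (fun k _ => (mix_int X hX D (fun x => x ^ k) (by fun_prop)).const_mul _)]
  refine Finset.sum_congr rfl fun k _ => ?_
  rw [integral_const_mul, hm k]

theorem mix_cont (f : ℝ → ℝ) (hf : Continuous f) :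
    ∫ x, f x ∂ν = ∫ ω, ∫ x, f x ∂(mT D (X ω)) := by
  set R' := max R ((D : ℝ) + 1) with hR'
  obtain ⟨p, hp⟩ := exists_polys R' f hf
  have hν : ν (Set.Icc (-R') R')ᶜ = 0 := by
    refine measure_mono_null ?_ hR
    apply Set.compl_subset_compl.mpr
    have := le_max_left R ((D : ℝ) + 1)
    exact Set.Icc_subset_Icc (by linarith) this
  have hmT : ∀ ω, (mT D (X ω)) (Set.Icc (-R') R')ᶜ = 0 := by
    intro ω
    refine measure_mono_null ?_ (mT_supp D (X ω))
    apply Set.compl_subset_compl.mpr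
    have := le_max_right R ((D : ℝ) + 1)
    exact Set.Icc_subset_Icc (by linarith) this
  have key : ∀ n : ℕ, |∫ x, f x ∂ν - ∫ ω, ∫ x, f x ∂(mT D (X ω))| ≤ 2 * (1 / ((n : ℝ) + 1)) := by
    intro n
    have a1 := int_close ν R' hν _ _ (p n).continuous hf _ (hp n)
    have a2 : |(∫ ω, ∫ x, (p n).eval x ∂(mT D (X ω))) - (∫ ω, ∫ x, f x ∂(mT D (X ω)))| ≤
        1 / ((n : ℝ) + 1) := by
      rw [← integral_sub (mix_int X hX D _ (p n).continuous) (mix_int X hX D f hf)]
      have := norm_integral_le_of_norm_le_const (μ := (volume : Measure Ω))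
        (f := fun ω => ∫ x, (p n).eval x ∂(mT D (X ω)) - ∫ x, f x ∂(mT D (X ω)))
        (C := 1 / ((n : ℝ) + 1)) (Eventually.of_forall fun ω =>
          int_close (mT D (X ω)) R' (hmT ω) _ _ (p n).continuous hf _ (hp n))
      simpa using this
    rw [mix_poly X hX D ν R hR hm (p n)] at a1
    have a1' := abs_le.mp a1
    have a2' := abs_le.mp a2
    rw [abs_le]
    constructor <;> linarith [a1'.1, a1'.2, a2'.1, a2'.2]
  have hlim : Tendsto (fun n : ℕ => 2 * (1 / ((n : ℝ) + 1))) atTop (𝓝 (2 * 0)) :=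
    tendsto_one_div_add_atTop_nhds_zero_nat.const_mul 2
  rw [mul_zero] at hlim
  have := ge_of_tendsto' hlim key
  have h0 := le_antisymm this (abs_nonneg _)
  rw [abs_eq_zero, sub_eq_zero] at h0
  exact h0

theorem mix_atom (l : ℝ) : ν.real {l} = ∫ ω, (mT D (X ω)).real {l} := by
  have h1 := lim_al ν l
  have h2 : ∀ n, tn n ^ 2 * bb ν l (tn n) = ∫ ω, tn n ^ 2 * bb (mT D (X ω)) l (tn n) := by
    intro n
    have ht := tn_pos n
    rw [integral_const_mul]
    congr 1
    unfold bb
    refine mix_cont X hX D ν R hR hm _ ?_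
    refine continuous_const.div (by fun_prop) fun x => ?_
    positivity
  simp_rw [h2] at h1
  refine tendsto_nhds_unique h1 ?_
  refine tendsto_integral_of_dominated_convergence (fun _ => 1) ?_ (integrable_const _) ?_ ?_
  · intro n
    exact (((meas_bb D l (tn_pos n)).comp hX).const_mul _).aestronglyMeasurable
  · intro n
    refine Eventually.of_forall fun ω => ?_
    have ht := tn_pos n
    have hb := bb_nonneg (mT D (X ω)) l (tn n)
    rw [Real.norm_of_nonneg (by positivity)]
    have h3 : bb (mT D (X ω)) l (tn n) ≤ 1 / tn n ^ 2 := by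
      unfold bb
      have : ∫ x, 1 / ((x - l) ^ 2 + tn n ^ 2) ∂(mT D (X ω)) ≤ ∫ _x, 1 / tn n ^ 2 ∂(mT D (X ω)) := by
        refine integral_mono (int_b _ l ht) (integrable_const _) fun x => ?_
        apply one_div_le_one_div_of_le (by positivity)
        nlinarith [sq_nonneg (x - l)]
      simpa using this
    calc tn n ^ 2 * bb (mT D (X ω)) l (tn n) ≤ tn n ^ 2 * (1 / tn n ^ 2) := by gcongr
      _ = 1 := by field_simp
  · exact Eventually.of_forall fun ω => lim_al (mT D (X ω)) l

end Mix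

end Pool.Agent.H27R3.UG
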