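import Mathlib
import Pool.Agent.H27R3.UG.Link

set_option autoImplicit false
open MeasureTheory ProbabilityTheory

namespace Pool.Agent.H27R3.UG

open Measure Filter Topology
open scoped ENNReal

theorem asm (P : PMF ℕ) (hfin : P.support.Finite) (hP0 : P 0 = 0) (hP1 : P 1 = 0)
    (Ω : Type) [MeasureSpace Ω] [IsProbabilityMeasure (volume : Measure Ω)]
    (N : List ℕ → Ω → ℕ)
    (hN : ∀ w, Measurable (N w)) (hind : iIndepFun N (volume : Measure Ω))
    (hroot : ∀ k : ℕ, (volume : Measure Ω) {ω | N [] ω = k} = P k)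
    (hch : ∀ w : List ℕ, w ≠ [] → ∀ k : ℕ,
      (volume : Measure Ω) {ω | N w ω = k}
        = ((k : ENNReal) + 1) * P (k + 1) / ∑' j : ℕ, (j : ENNReal) * P j)
    (ν : Measure ℝ) (hν : IsProbabilityMeasure ν)
    (hcpt : ∃ R : ℝ, ν (Set.Icc (-R) R)ᶜ = 0)
    (hmom : ∀ k : ℕ, ∫ x, x ^ k ∂ν =
        ∫ ω, ((Set.ncard {f : Fin (k + 1) → List ℕ |
            f 0 = [] ∧ f (Fin.last k) = [] ∧
            (∀ i, ∀ j < (f i).length, (f i).getD j 0 < N ((f i).take j) ω) ∧
            ∀ i : Fin k, (∃ a : ℕ, f i.succ = f i.castSucc ++ [a]) ∨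
                         (∃ a : ℕ, f i.castSucc = f i.succ ++ [a])} : ℕ) : ℝ)
          ∂(volume : Measure Ω)) :
    {x : ℝ | ν {x} ≠ 0}.Finite := by
  classical
  -- degree bound
  obtain ⟨D, hD⟩ : ∃ D : ℕ, ∀ k, D < k → P k = 0 := by
    refine ⟨hfin.toFinset.sup id, fun k hk => ?_⟩
    by_contra h
    have h1 : k ∈ hfin.toFinset := by
      rw [Set.Finite.mem_toFinset]
      exact (PMF.mem_support_iff _ _).mpr h
    have := Finset.le_sup (f := id) h1
    simp only [id] at this
    omega
  -- mean
  set m : ℝ≥0∞ := ∑' j : ℕ, (j : ENNReal) * P j with hm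
  have hm1 : m = ∑ j ∈ Finset.range (D + 1), (j : ℝ≥0∞) * P j := by
    rw [hm]
    refine tsum_eq_sum fun j hj => ?_
    rw [Finset.mem_range] at hj
    rw [hD j (by omega), mul_zero]
  have hPsum : ∑ n ∈ Finset.range (D + 1), P n = 1 := by
    rw [← P.tsum_coe]
    symm
    refine tsum_eq_sum fun j hj => ?_
    rw [Finset.mem_range] at hj
    exact hD j (by omega)
  have hPle : ∀ n, P n ≤ 1 := P.coe_le_one
  have hmtop : m ≠ ∞ := by
    rw [hm1]
    refine ENNReal.sum_ne_top.mpr fun j _ => ?_
    exact ENNReal.mul_ne_top (ENNReal.natCast_ne_top j) (ne_top_of_le_ne_top ENNReal.one_ne_top (hPle j))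
  have hm2 : m = ∑ n ∈ Finset.range D, ((n : ℝ≥0∞) + 1) * P (n + 1) := by
    rw [hm1, Finset.sum_range_succ']
    push_cast
    rw [zero_mul, add_zero]
  have hm0 : m ≠ 0 := by
    intro h0
    rw [hm2, Finset.sum_eq_zero_iff] at h0
    rw [Finset.sum_range_succ', hP0, add_zero] at hPsum
    have : ∑ k ∈ Finset.range D, P (k + 1) = 0 := by
      refine Finset.sum_eq_zero fun k hk => ?_
      have := h0 k hk
      rw [mul_eq_zero] at this
      rcases this with h | h
      · rw [add_eq_zero] at h
        exact absurd h.2 one_ne_zero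
      · exact h
    rw [this] at hPsum
    exact zero_ne_one hPsum
  -- laws
  set pM : Measure ℕ := (volume : Measure Ω).map (N []) with hpM
  set hM : Measure ℕ := (volume : Measure Ω).map (N [0]) with hhM
  have : IsProbabilityMeasure pM := isProbabilityMeasure_map (hN []).aemeasurable
  have : IsProbabilityMeasure hM := isProbabilityMeasure_map (hN [0]).aemeasurable
  have hpk : ∀ k, pM {k} = P k := by
    intro k
    rw [hpM, Measure.map_apply (hN []) (measurableSet_singleton k), ← hroot k]
    rfl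
  have hhk' : ∀ w : List ℕ, w ≠ [] → ∀ k, (volume : Measure Ω).map (N w) {k} =
      ((k : ℝ≥0∞) + 1) * P (k + 1) / m := by
    intro w hw k
    rw [Measure.map_apply (hN w) (measurableSet_singleton k), ← hch w hw k]
    rfl
  have hhk : ∀ k, hM {k} = ((k : ℝ≥0∞) + 1) * P (k + 1) / m := hhk' [0] (by simp)
  have hlaws : ∀ w : List ℕ, (volume : Measure Ω).map (N w) = if w = [] then pM else hM := by
    intro w
    by_cases hw : w = []
    · rw [if_pos hw, hw]
    · rw [if_neg hw]
      refine nat_ext _ _ fun k => ?_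
      rw [hhk' w hw, hhk]
  set X : Ω → Tr := fun ω w => N w ω with hX
  have hXm : Measurable X := measurable_pi_iff.mpr hN
  have hlaw : (volume : Measure Ω).map X = infinitePi (fun w : List ℕ => if w = [] then pM else hM) := by
    rw [hX, hind.map_fun_eq_infinitePi_map hN]
    congr 1
    funext w
    exact hlaws w
  -- the environment
  let E : Env D :=
    { P := fun n => P n
      h := fun n => hM {n}
      m := m
      γ := infinitePi fun _ : List ℕ => hM
      prob := inferInstance
      P0 := hP0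
      P1 := hP1
      Psum := hPsum
      m0 := hm0
      mtop := hmtop
      hPh := fun n _ => by
        rw [hhk, ENNReal.mul_div_cancel hm0 hmtop]
      hsum := by
        simp_rw [hhk, div_eq_mul_inv]
        rw [← Finset.sum_mul, ← hm2, ENNReal.mul_inv_cancel hm0 hmtop]
      rde := fun F hF => by
        have h1 := lint_glue hM hM F hF D (fun k hk => by
          rw [hhk, hD (k + 1) (by omega), mul_zero, ENNReal.zero_div])
        simp only [ite_self] at h1
        exact h1 }
  obtain ⟨Λ, hΛ, hmain⟩ := abstract_main E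
  refine hΛ.subset fun l hl => ?_
  by_contra hlΛ
  apply hl
  have hz := hmain l hlΛ (theSys D l)
  -- a.s. bounded degrees
  have hbd : ∀ᵐ ω ∂(volume : Measure Ω), ∀ w, N w ω ≤ D := by
    rw [ae_all_iff]
    intro w
    have h1 : ∀ k, D < k → (volume : Measure Ω).map (N w) {k} = 0 := by
      intro k hk
      rw [hlaws w]
      split_ifs
      · rw [hpk, hD k hk]
      · rw [hhk, hD (k + 1) (by omega), mul_zero, ENNReal.zero_div]
    have h2 : (volume : Measure Ω).map (N w) (Set.Ioi D) = 0 := by
      rw [← Set.biUnion_of_singleton (Set.Ioi D), measure_biUnion_null_iff (Set.to_countable _)]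
      exact fun k hk => h1 k hk
    rw [Measure.map_apply (hN w) measurableSet_Ioi] at h2
    rw [ae_iff]
    refine measure_mono_null ?_ h2
    intro ω hω
    simpa using hω
  obtain ⟨R, hR⟩ := hcpt
  have hmm : ∀ k : ℕ, ∫ x, x ^ k ∂ν = ∫ ω, ∫ x, x ^ k ∂(mT D (X ω)) := by
    intro k
    rw [hmom k]
    refine integral_congr_ae ?_
    filter_upwards [hbd] with ω hω
    rw [mT_pow]
    congr 1
    exact ncard_walks D (X ω) hω k
  have hat := mix_atom X hXm D ν R hR hmm l
  have hz2 : ∫⁻ ω, ENNReal.ofReal ((mT D (X ω)).real {l}) = 0 := by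
    have hmea : Measurable (fun T : Tr => ENNReal.ofReal ((mT D T).real {l})) :=
      (meas_al D l).ennreal_ofReal
    have h1 : ∫⁻ T, ENNReal.ofReal ((mT D T).real {l}) ∂((volume : Measure Ω).map X) =
        ∫⁻ ω, ENNReal.ofReal ((mT D (X ω)).real {l}) := lintegral_map hmea hXm
    rw [← h1, hlaw, lint_glue pM hM _ hmea (D + 1) (fun k hk => by rw [hpk, hD k (by omega)])]
    rw [← hz]
    unfold eA Env.EE
    refine Finset.sum_congr rfl fun k _ => ?_
    rw [hpk]
    rfl
  have hmea2 : Measurable (fun ω => ENNReal.ofReal ((mT D (X ω)).real {l})) :=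
    ((meas_al D l).ennreal_ofReal).comp hXm
  rw [lintegral_eq_zero_iff hmea2] at hz2
  have hz3 : ν.real {l} = 0 := by
    rw [hat]
    refine integral_eq_zero_of_ae ?_
    filter_upwards [hz2] with ω hω
    have h1 : ENNReal.ofReal ((mT D (X ω)).real {l}) = 0 := hω
    rw [ENNReal.ofReal_eq_zero] at h1
    exact le_antisymm h1 measureReal_nonneg
  rw [measureReal_def, ENNReal.toReal_eq_zero_iff] at hz3
  exact hz3.resolve_right (measure_ne_top _ _)

end Pool.Agent.H27R3.UG
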